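import Pool.Agent.PGE.Loc

/-!
Two-sided P-geometries (note 2448 of helper28), section 5.
-/

set_option autoImplicit false
set_option linter.unusedSectionVars false
set_option linter.unusedSimpArgs false
set_option linter.unnecessarySeqFocus false

namespace Pool.Agent.PGE

namespace TG

variable {X Y Q : Type} [AddCommGroup X] [Module (ZMod 2) X] [AddCommGroup Y]
  [Module (ZMod 2) Y] {G : TG X Y Q}

/-- the geometries `E_k` (degenerate projective planes) -/
structure EK (G : TG X Y Q) (g : X) (g' : Y) : Prop where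
  Sg : G.S g
  Tg : G.T g'
  ne : ¬ G.E g g'
  s : ∀ s, G.S s → s = g ∨ G.E s g'
  t : ∀ t, G.T t → t = g' ∨ G.E g t
  sn : ∀ s t t', G.E s g' → G.E s t → G.E s t' → t ≠ g' → t' ≠ g' → t = t'
  tn : ∀ t s s', G.E g t → G.E s t → G.E s' t → s ≠ g → s' ≠ g → s = s'

theorem EK.swap {g : X} {g' : Y} (h : G.EK g g') : G.swap.EK g' g where
  Sg := h.Tg
  Tg := h.Sg
  ne := h.ne
  s := h.t
  t := h.s
  sn := fun t s s' => h.tn t s s'
  tn := fun s t t' => h.sn s t t'

/-- two points: every line has two points -/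
theorem Red.two (hG : G.Red) {s s' : X} (hs : G.S s) (hs' : G.S s') (hne : s ≠ s') {y : Y}
    (hy : G.T y) : ∃ v, v ≠ 0 ∧ G.C v y := by
  obtain ⟨x, hx⟩ := hy
  by_cases h : s = x
  · obtain ⟨v, hv, -, h1⟩ := hG.meet (W := ⊥) (x := x) (fun w hw => by
      rw [(Submodule.mem_bot _).1 hw]; exact C.zr x) hs' (by rintro rfl; exact hne h)
      (fun w hw => by rw [(Submodule.mem_bot _).1 hw]; exact C.zr s') hx
    exact ⟨v, hv, h1⟩
  · obtain ⟨v, hv, -, h1⟩ := hG.meet (W := ⊥) (x := x) (fun w hw => by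
      rw [(Submodule.mem_bot _).1 hw]; exact C.zr x) hs h
      (fun w hw => by rw [(Submodule.mem_bot _).1 hw]; exact C.zr s) hx
    exact ⟨v, hv, h1⟩

/-- the dual: two points, every point is on two lines -/
theorem Red.two' (hG : G.Red) {s s' : X} (hs : G.S s) (hs' : G.S s') (hne : s ≠ s') {x : X}
    (hx : G.S x) : ∃ w, w ≠ 0 ∧ G.C x w := by
  -- two lines exist
  obtain ⟨y, h1, h2⟩ := link hs hs'
  by_contra hcon
  push Not at hcon
  -- then N(x) is one point, all points are on it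
  obtain ⟨t, ht⟩ := hx
  have h3 : ∀ r, G.S r → G.E r t := by
    intro r hr
    obtain ⟨t', h4, h5⟩ := link ⟨t, ht⟩ hr
    have h6 : t + t' = 0 := by
      by_contra h7
      exact hcon _ h7 (ht.C_r h4)
    rw [eo h6]; exact h5
  apply hne
  have h4 : s + s' = 0 := hG.rS _ (fun r hr => ((h3 r hr).al ((h3 s hs).C_l (h3 s' hs'))).S)
  exact eo h4

section fin
variable [Finite X] [Finite Y]

/-- the sum of the points of a line with at least four points is zero -/
theorem sum_line {y : Y} {v v' : X} (hv : G.C v y) (hv' : G.C v' y)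
    (hv0 : v ≠ 0) (hv0' : v' ≠ 0) (hvv : v ≠ v') [Fintype X] [DecidablePred fun s => G.E s y] :
    ∑ s ∈ Finset.univ.filter (fun s => G.E s y), s = 0 := by
  rw [← Module.forall_dual_apply_eq_zero_iff (ZMod 2)]
  intro ψ
  rw [map_sum]
  have h1 : ∃ a, a ≠ 0 ∧ G.C a y ∧ ψ a = 0 := by
    have z2 : ∀ a : ZMod 2, a = 0 ∨ a = 1 := by decide
    rcases z2 (ψ v) with h | h
    · exact ⟨v, hv0, hv, h⟩
    rcases z2 (ψ v') with h' | h'
    · exact ⟨v', hv0', hv', h'⟩
    refine ⟨v + v', fun h0 => hvv (eo h0), hv.al hv', ?_⟩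
    rw [map_add, h, h']; decide
  obtain ⟨a, ha0, ha, hψ⟩ := h1
  apply Finset.sum_involution (fun s _ => s + a)
  · intro s hs
    rw [map_add, hψ, add_zero]
    exact aa _
  · intro s hs _ h0
    apply ha0
    have : s + (s + a) = 0 := by rw [h0]; exact aa s
    rw [aab] at this
    exact this
  · intro s hs
    rw [Finset.mem_filter] at hs ⊢
    exact ⟨Finset.mem_univ _, hs.2.al ha⟩
  · intro s hs
    exact (eo (by abel_nf <;> simp only [ch2, ch3, ch4, ch5, ch6, add_zero, zero_add]))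

/-- if all lines are big, a point is the sum of all points -/
theorem Red.sum_all [Fintype X] [DecidablePred fun s => G.S s] (hG : G.Red)
    (hu : ∀ s s' y y', s ≠ s' → G.E s y → G.E s' y → G.E s y' → G.E s' y' → y = y')
    (hbig : ∀ y, G.T y → ∃ v v', G.C v y ∧ G.C v' y ∧ v ≠ 0 ∧ v' ≠ 0 ∧ v ≠ v')
    {p p' : X} (hp : G.S p) (hp' : G.S p') (hpp : p ≠ p') :
    ∑ s ∈ Finset.univ.filter (fun s => G.S s), s = p := by
  classical
  haveI := Fintype.ofFinite Y
  -- neighbour map
  have h1 : ∀ s, ∃ y, G.S s → G.E p y ∧ G.E s y := by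
    intro s
    by_cases hs : G.S s
    · obtain ⟨y, h⟩ := link hp hs
      exact ⟨y, fun _ => h⟩
    · exact ⟨0, fun h => absurd h hs⟩
  choose f hf using h1
  have h2 : ∑ s ∈ (Finset.univ.filter (fun s => G.S s)).erase p, s = 0 := by
    rw [← Finset.sum_fiberwise_of_maps_to (t := Finset.univ.filter (fun y => G.E p y)) (g := f)]
    · have h3 : ∀ y ∈ Finset.univ.filter (fun y => G.E p y),
          ∑ s ∈ ((Finset.univ.filter (fun s => G.S s)).erase p).filter (fun s => f s = y), s
          = p := by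
        intro y hy
        rw [Finset.mem_filter] at hy
        have hpy := hy.2
        obtain ⟨v, v', hv, hv', hv0, hv0', hvv⟩ := hbig y hpy.T
        have h4 := sum_line (G := G) hv hv' hv0 hv0' hvv
        have h5 : ((Finset.univ.filter (fun s => G.S s)).erase p).filter (fun s => f s = y)
            = (Finset.univ.filter (fun s => G.E s y)).erase p := by
          ext s
          simp only [Finset.mem_filter, Finset.mem_erase, Finset.mem_univ, true_and]
          constructor
          · rintro ⟨⟨h6, h7⟩, h8⟩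
            refine ⟨h6, ?_⟩
            rw [← h8]; exact (hf s h7).2
          · rintro ⟨h6, h7⟩
            refine ⟨⟨h6, h7.S⟩, ?_⟩
            have h8 := hf s h7.S
            exact hu p s _ _ (Ne.symm h6) h8.1 h8.2 hpy h7
        rw [h5]
        have h6 : p ∈ Finset.univ.filter (fun s => G.E s y) := by
          rw [Finset.mem_filter]; exact ⟨Finset.mem_univ _, hpy⟩
        rw [← Finset.add_sum_erase _ _ h6] at h4
        exact (eo h4).symm
      rw [Finset.sum_congr rfl h3]
      obtain ⟨w, hw0, hw⟩ := hG.two' hp hp' hpp hp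
      apply Finset.sum_involution (fun y _ => y + w)
      · intro y hy
        exact aa _
      · intro s hs _ h0
        apply hw0
        have : s + (s + w) = 0 := by rw [h0]; exact aa s
        rw [aab] at this
        exact this
      · intro s hs
        rw [Finset.mem_filter] at hs ⊢
        exact ⟨Finset.mem_univ _, hs.2.ar hw⟩
      · intro s hs
        exact (eo (by abel_nf <;> simp only [ch2, ch3, ch4, ch5, ch6, add_zero, zero_add]))
    · intro s hs
      rw [Finset.mem_erase, Finset.mem_filter] at hs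
      rw [Finset.mem_filter]
      exact ⟨Finset.mem_univ _, (hf s hs.2.2).1⟩
  have h3 : p ∈ Finset.univ.filter (fun s => G.S s) := by
    rw [Finset.mem_filter]; exact ⟨Finset.mem_univ _, hp⟩
  rw [← Finset.add_sum_erase _ _ h3, h2, add_zero]

/-- from a point with two lines, one of them with two points -/
theorem Red.ek_of (hG : G.Red)
    (hu : ∀ s s' y y', s ≠ s' → G.E s y → G.E s' y → G.E s y' → G.E s' y' → y = y')
    {p p' : X} {y0 t : Y} (hpp : p ≠ p') (h1 : G.E p y0) (h2 : G.E p' y0)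
    (h0 : ∀ s, G.E s y0 → s = p ∨ s = p') (ht : G.E p t) (hty : t ≠ y0)
    (hN : ∀ u, G.E p u → u = y0 ∨ u = t) : G.EK p' t := by
  have hne : ¬ G.E p' t := fun h => hty (hu p p' t y0 hpp ht h h1 h2)
  have hs : ∀ s, G.S s → s = p' ∨ G.E s t := by
    intro s hs
    obtain ⟨u, h3, h4⟩ := link h1.S hs
    rcases hN u h3 with rfl | rfl
    · rcases h0 s h4 with rfl | rfl
      · exact Or.inr ht
      · exact Or.inl rfl
    · exact Or.inr h4
  have hu' : ∀ u, G.T u → u ≠ t → G.E p' u := by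
    intro u hu1 hut
    obtain ⟨v, hv, hv'⟩ := hG.two h1.S h2.S hpp hu1
    obtain ⟨s, hs1⟩ := hu1
    have hs2 := hs1.al hv'
    by_contra hcon
    rcases hs s hs1.S with rfl | h3
    · exact hcon hs1
    rcases hs (s + v) hs2.S with h4 | h4
    · rw [h4] at hs2; exact hcon hs2
    apply hut
    refine hu s (s + v) u t ?_ hs1 hs2 h3 h4
    intro h5
    apply hv
    have : s + (s + v) = 0 := by rw [← h5]; exact aa s
    rw [aab] at this
    exact this
  refine ⟨h2.S, ht.T, hne, hs, ?_, ?_, ?_⟩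
  · intro u hu1
    by_cases h : u = t
    · exact Or.inl h
    · exact Or.inr (hu' u hu1 h)
  · intro s u u' hst hsu hsu' hut hut'
    have h3 : s ≠ p' := by rintro rfl; exact hne hst
    exact hu s p' u u' h3 hsu (hu' u hsu.T hut) hsu' (hu' u' hsu'.T hut')
  · intro u s s' hpu hsu hsu' hs0 hs0'
    by_contra h
    have h4 := hu s s' u t h hsu hsu' ((hs s hsu.S).resolve_left hs0)
      ((hs s' hsu'.S).resolve_left hs0')
    rw [h4] at hpu
    exact hne hpu

/-- (AN) -/
theorem Red.an (hG : G.Red)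
    (hu : ∀ s s' y y', s ≠ s' → G.E s y → G.E s' y → G.E s y' → G.E s' y' → y = y')
    {a b : X} (ha : G.S a) (hb : G.S b) (hab : a ≠ b) : ∃ g g', G.EK g g' := by
  classical
  haveI := Fintype.ofFinite X
  -- a line with two points
  have h2 : ∃ y0, G.T y0 ∧ ∀ v v', G.C v y0 → G.C v' y0 → v ≠ 0 → v' ≠ 0 → v = v' := by
    by_contra hcon
    push Not at hcon
    have hbig : ∀ y, G.T y → ∃ v v', G.C v y ∧ G.C v' y ∧ v ≠ 0 ∧ v' ≠ 0 ∧ v ≠ v' := by
      intro y hy
      obtain ⟨v, v', h⟩ := hcon y hy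
      exact ⟨v, v', h⟩
    exact hab ((hG.sum_all hu hbig ha hb hab).symm.trans
      (hG.sum_all hu hbig hb ha (Ne.symm hab)))
  obtain ⟨y0, hy0, h3⟩ := h2
  obtain ⟨v, hv0, hv⟩ := hG.two ha hb hab hy0
  obtain ⟨p, hp⟩ := hy0
  have hp' : G.E (p + v) y0 := hp.al hv
  have hpp : p ≠ p + v := by
    intro h
    apply hv0
    have : p + (p + v) = 0 := by rw [← h]; exact aa p
    rw [aab] at this
    exact this
  generalize hq : p + v = p' at hp' hpp
  have h0 : ∀ s, G.E s y0 → s = p ∨ s = p' := by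
    intro s hs
    by_cases h : s = p
    · exact Or.inl h
    right
    have h5 : p + s ≠ 0 := fun h6 => h (eo h6).symm
    have h6 := h3 (p + s) v (hp.C_l hs) hv h5 hv0
    rw [← hq, ← h6, aab]
  have hfin : ∀ {p p' : X}, p ≠ p' → G.E p y0 → G.E p' y0 →
      (∀ s, G.E s y0 → s = p ∨ s = p') → (∃ t, G.E p t ∧ ∀ u, G.E p u → u = y0 ∨ u = t) →
      ∃ g g', G.EK g g' := by
    rintro p p' hpp hp hp' h0 ⟨t, ht, hN⟩
    -- a second line through p
    obtain ⟨w, hw0, hw⟩ := hG.two' ha hb hab hp.S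
    have h5 : y0 + w ≠ y0 := by
      intro h
      apply hw0
      have : y0 + (y0 + w) = 0 := by rw [h]; exact aa y0
      rw [aab] at this
      exact this
    have h6 := hp.ar hw
    have h7 : y0 + w = t := (hN _ h6).resolve_left h5
    rw [h7] at h5
    exact ⟨p', t, hG.ek_of hu hpp hp hp' h0 ht h5 hN⟩
  -- another point
  have h4 : ∃ r, G.S r ∧ r ≠ p ∧ r ≠ p' := by
    by_contra hcon
    push Not at hcon
    have h5 : ∀ r, G.S r → G.E r y0 := by
      intro r hr
      by_cases h : r = p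
      · rw [h]; exact hp
      · rw [hcon r hr h]; exact hp'
    exact hv0 (hG.rS v (fun r hr => ((h5 r hr).al hv).S))
  obtain ⟨r, hr, hrp, hrp'⟩ := h4
  have hry : ¬ G.E r y0 := fun h => (h0 r h).elim hrp hrp'
  obtain ⟨t, ht1, ht2⟩ := link hr hp.S
  obtain ⟨t', ht1', ht2'⟩ := link hr hp'.S
  -- lines through r
  have hNr : ∀ u, G.E r u → u = t ∨ u = t' := by
    intro u hu1
    obtain ⟨s, h5, h6⟩ := linkT hu1.T hp.T
    rcases h0 s h6 with rfl | rfl
    · exact Or.inl (hu r s u t hrp hu1 h5 ht1 ht2)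
    · exact Or.inr (hu r s u t' hrp' hu1 h5 ht1' ht2')
  by_cases hc : ∃ t2, G.E p t2 ∧ t2 ≠ y0 ∧ t2 ≠ t
  · obtain ⟨t2, h5, h6, h7⟩ := hc
    by_cases hc' : ∃ t3, G.E p' t3 ∧ t3 ≠ y0 ∧ t3 ≠ t'
    · obtain ⟨t3, h8, h9, h10⟩ := hc'
      exfalso
      obtain ⟨r2, h11, h12⟩ := linkT h5.T h8.T
      have h13 : r2 ≠ p := by
        rintro rfl
        exact h9 (hu r2 p' t3 y0 hpp h12 h8 hp hp')
      have h14 : r2 ≠ p' := by
        rintro rfl
        exact h6 (hu p r2 t2 y0 hpp h5 h11 hp hp')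
      obtain ⟨u, h15, h16⟩ := link hr h11.S
      rcases hNr u h15 with rfl | rfl
      · exact h7 (hu r2 p t2 u h13 h11 h5 h16 ht2)
      · exact h10 (hu r2 p' t3 u h14 h12 h8 h16 ht2')
    · push Not at hc'
      refine hfin (Ne.symm hpp) hp' hp (fun s hs => (h0 s hs).symm) ⟨t', ht2', fun u hu1 => ?_⟩
      by_cases h : u = y0
      · exact Or.inl h
      · exact Or.inr (hc' u hu1 h)
  · push Not at hc
    refine hfin hpp hp hp' h0 ⟨t, ht2, fun u hu1 => ?_⟩
    by_cases h : u = y0
    · exact Or.inl h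
    · exact Or.inr (hc u hu1 h)

end fin

end TG

end Pool.Agent.PGE
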