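import Mathlib

/-!
Two-sided P-geometries (note 2448 of helper28), section 0-4.
-/

set_option autoImplicit false
set_option linter.unusedSectionVars false
set_option linter.unusedSimpArgs false
set_option linter.unnecessarySeqFocus false

namespace Pool.Agent.PGE

section char2
variable {M : Type} [AddCommGroup M] [Module (ZMod 2) M]

theorem aa (a : M) : a + a = 0 := ZModModule.add_self a

theorem eo {a b : M} (h : a + b = 0) : a = b := by
  have h1 : a + b + b = b := by rw [h, zero_add]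
  rw [add_assoc, aa, add_zero] at h1
  exact h1

theorem ch2 (a : M) : (2 : ℤ) • a = 0 := by
  rw [two_smul, aa]

theorem ch3 (a : M) : (3 : ℤ) • a = a := by
  rw [show (3 : ℤ) = 2 + 1 by norm_num, add_smul, ch2, zero_add, one_smul]

theorem ch4 (a : M) : (4 : ℤ) • a = 0 := by
  rw [show (4 : ℤ) = 2 + 2 by norm_num, add_smul, ch2, zero_add]

theorem ch5 (a : M) : (5 : ℤ) • a = a := by
  rw [show (5 : ℤ) = 2 + 3 by norm_num, add_smul, ch2, ch3, zero_add]

theorem ch6 (a : M) : (6 : ℤ) • a = 0 := by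
  rw [show (6 : ℤ) = 2 + 4 by norm_num, add_smul, ch2, ch4, zero_add]

theorem aab (a b : M) : a + (a + b) = b := by rw [← add_assoc, aa, zero_add]

theorem test (a b c d : M) : a + b + (c + d) + (b + c) = a + d := (eo (by abel_nf <;> simp only [ch2, ch3, ch4, ch5, ch6, add_zero, zero_add]))

theorem mem_s1 {a u : M} : a ∈ Submodule.span (ZMod 2) {u} ↔ a = 0 ∨ a = u := by
  rw [Submodule.mem_span_singleton]
  constructor
  · rintro ⟨r, rfl⟩
    have : r = 0 ∨ r = 1 := by revert r; decide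
    rcases this with rfl | rfl
    · exact Or.inl (zero_smul _ _)
    · exact Or.inr (one_smul _ _)
  · rintro (rfl | rfl)
    · exact ⟨0, zero_smul _ _⟩
    · exact ⟨1, one_smul _ _⟩

theorem mem_s2 {a u v : M} : a ∈ Submodule.span (ZMod 2) {u, v} ↔
    a = 0 ∨ a = u ∨ a = v ∨ a = u + v := by
  rw [Submodule.mem_span_insert]
  constructor
  · rintro ⟨r, b, hb, rfl⟩
    have : r = 0 ∨ r = 1 := by revert r; decide
    rcases this with rfl | rfl <;> rcases mem_s1.1 hb with rfl | rfl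
    · left; rw [zero_smul, zero_add]
    · right; right; left; rw [zero_smul, zero_add]
    · right; left; rw [one_smul, add_zero]
    · right; right; right; rw [one_smul]
  · rintro (rfl | rfl | rfl | rfl)
    · exact ⟨0, 0, Submodule.zero_mem _, by rw [zero_smul, add_zero]⟩
    · exact ⟨1, 0, Submodule.zero_mem _, by rw [one_smul, add_zero]⟩
    · exact ⟨0, a, mem_s1.2 (Or.inr rfl), by rw [zero_smul, zero_add]⟩
    · exact ⟨1, v, mem_s1.2 (Or.inr rfl), by rw [one_smul]⟩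

end char2

/-- a two-sided P-geometry, set valued -/
structure TG (X Y Q : Type) [AddCommGroup X] [Module (ZMod 2) X] [AddCommGroup Y]
    [Module (ZMod 2) Y] where
  q : X → Y → Q
  z : Q
  c : Q
  hc : c ≠ z
  addL : ∀ x x' y, q x y = q x' y ↔ q (x + x') y = z
  addR : ∀ x y y', q x y = q x y' ↔ q x (y + y') = z
  ac1 : ∀ x v s s' t t', q x s = q v t → q x s' = q v t' → q x (s + s') = q v (t + t')
  ac2 : ∀ x v s s' t t', q s x = q t v → q s' x = q t' v → q (s + s') x = q (t + t') v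
  ac3 : ∀ x y s s' t t', q x s = q t y → q x s' = q t' y → q x (s + s') = q (t + t') y
  pS : ∀ (U : Submodule (ZMod 2) X) (x : X), (∀ u ∈ U, ∃ y, q (x + u) y = c) →
    ∃ y, ∀ u ∈ U, q (x + u) y = c
  pT : ∀ (U : Submodule (ZMod 2) Y) (y : Y), (∀ u ∈ U, ∃ x, q x (y + u) = c) →
    ∃ x, ∀ u ∈ U, q x (y + u) = c

namespace TG

variable {X Y Q : Type} [AddCommGroup X] [Module (ZMod 2) X] [AddCommGroup Y]
  [Module (ZMod 2) Y]

/-- edges -/
def E (G : TG X Y Q) (x : X) (y : Y) : Prop := G.q x y = G.c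

/-- commuting pairs -/
def C (G : TG X Y Q) (x : X) (y : Y) : Prop := G.q x y = G.z

/-- slots on the left -/
def S (G : TG X Y Q) (x : X) : Prop := ∃ y, G.E x y

/-- slots on the right -/
def T (G : TG X Y Q) (y : Y) : Prop := ∃ x, G.E x y

/-- the dual geometry -/
def swap (G : TG X Y Q) : TG Y X Q where
  q := fun y x => G.q x y
  z := G.z
  c := G.c
  hc := G.hc
  addL := fun y y' x => G.addR x y y'
  addR := fun y x x' => G.addL x x' y
  ac1 := fun x v s s' t t' => G.ac2 x v s s' t t'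
  ac2 := fun x v s s' t t' => G.ac1 x v s s' t t'
  ac3 := fun x y s s' t t' h h' => (G.ac3 y x t t' s s' h.symm h'.symm).symm
  pS := G.pT
  pT := G.pS

theorem swap_E {G : TG X Y Q} {x : X} {y : Y} : G.swap.E y x ↔ G.E x y := Iff.rfl
theorem swap_C {G : TG X Y Q} {x : X} {y : Y} : G.swap.C y x ↔ G.C x y := Iff.rfl
theorem swap_S {G : TG X Y Q} {y : Y} : G.swap.S y ↔ G.T y := Iff.rfl
theorem swap_T {G : TG X Y Q} {x : X} : G.swap.T x ↔ G.S x := Iff.rfl
theorem swap_swap (G : TG X Y Q) : G.swap.swap = G := rfl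

variable {G : TG X Y Q}

theorem E.S {x : X} {y : Y} (h : G.E x y) : G.S x := ⟨y, h⟩
theorem E.T {x : X} {y : Y} (h : G.E x y) : G.T y := ⟨x, h⟩

theorem C.zl (y : Y) : G.C 0 y := by
  have h := (G.addL 0 0 y).1 rfl
  rw [add_zero] at h
  exact h

theorem C.zr (x : X) : G.C x 0 := by
  have h := (G.addR x 0 0).1 rfl
  rw [add_zero] at h
  exact h

theorem C.al {x x' : X} {y : Y} (h : G.C x y) (h' : G.C x' y) : G.C (x + x') y :=
  (G.addL x x' y).1 (h.trans h'.symm)

theorem C.ar {x : X} {y y' : Y} (h : G.C x y) (h' : G.C x y') : G.C x (y + y') :=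
  (G.addR x y y').1 (h.trans h'.symm)

/-- adding an element commuting with `y` does not change the value -/
theorem q_al {x v : X} {y : Y} (h : G.C v y) : G.q (x + v) y = G.q x y := by
  rw [G.addL]
  have : x + v + x = v := (eo (by abel_nf <;> simp only [ch2, ch3, ch4, ch5, ch6, add_zero, zero_add]))
  rw [this]; exact h

theorem q_ar {x : X} {y v : Y} (h : G.C x v) : G.q x (y + v) = G.q x y := by
  rw [G.addR]
  have : y + v + y = v := (eo (by abel_nf <;> simp only [ch2, ch3, ch4, ch5, ch6, add_zero, zero_add]))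
  rw [this]; exact h

theorem E.al {x v : X} {y : Y} (h : G.E x y) (hv : G.C v y) : G.E (x + v) y :=
  (q_al hv).trans h

theorem E.ar {x : X} {y v : Y} (h : G.E x y) (hv : G.C x v) : G.E x (y + v) :=
  (q_ar hv).trans h

theorem E.C_l {x x' : X} {y : Y} (h : G.E x y) (h' : G.E x' y) : G.C (x + x') y :=
  (G.addL x x' y).1 (h.trans h'.symm)

theorem E.C_r {x : X} {y y' : Y} (h : G.E x y) (h' : G.E x y') : G.C x (y + y') :=
  (G.addR x y y').1 (h.trans h'.symm)

theorem E.not_C {x : X} {y : Y} (h : G.E x y) (h' : G.C x y) : False :=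
  G.hc (h.symm.trans h')

theorem E.ne {x : X} {y : Y} (h : G.E x y) : x ≠ 0 := by
  rintro rfl
  exact h.not_C (C.zl y)

theorem E.ne' {x : X} {y : Y} (h : G.E x y) : y ≠ 0 := by
  rintro rfl
  exact h.not_C (C.zr x)

theorem C.eq {x x' : X} {y y' : Y} (h : G.C x y) (hx : x = x') (hy : y = y') : G.C x' y' := by
  subst hx hy; exact h

theorem E.eq {x x' : X} {y y' : Y} (h : G.E x y) (hx : x = x') (hy : y = y') : G.E x' y' := by
  subst hx hy; exact h

theorem C_smul {x : X} {y : Y} (r : ZMod 2) (h : G.C x y) : G.C (r • x) y := by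
  have : r = 0 ∨ r = 1 := by revert r; decide
  rcases this with rfl | rfl
  · rw [zero_smul]; exact C.zl y
  · rw [one_smul]; exact h

/-- elements of `X` commuting with `W` -/
def xc (G : TG X Y Q) (W : Submodule (ZMod 2) Y) : Submodule (ZMod 2) X where
  carrier := {x | ∀ w ∈ W, G.C x w}
  add_mem' := fun ha hb w hw => (ha w hw).al (hb w hw)
  zero_mem' := fun w _ => C.zl w
  smul_mem' := fun r _ ha w hw => C_smul r (ha w hw)

/-- elements of `Y` commuting with `U` -/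
def yc (G : TG X Y Q) (U : Submodule (ZMod 2) X) : Submodule (ZMod 2) Y := G.swap.xc U

/-- elements of `X` commuting with `y` -/
def xy (G : TG X Y Q) (y : Y) : Submodule (ZMod 2) X where
  carrier := {x | G.C x y}
  add_mem' := fun ha hb => C.al ha hb
  zero_mem' := C.zl y
  smul_mem' := fun r _ ha => C_smul r ha

/-- elements of `Y` commuting with `x` -/
def yx (G : TG X Y Q) (x : X) : Submodule (ZMod 2) Y := G.swap.xy x

theorem mem_xc {W : Submodule (ZMod 2) Y} {x : X} : x ∈ G.xc W ↔ ∀ w ∈ W, G.C x w := Iff.rfl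
theorem mem_yc {U : Submodule (ZMod 2) X} {y : Y} : y ∈ G.yc U ↔ ∀ u ∈ U, G.C u y := Iff.rfl
theorem mem_xy {x : X} {y : Y} : x ∈ G.xy y ↔ G.C x y := Iff.rfl
theorem mem_yx {x : X} {y : Y} : y ∈ G.yx x ↔ G.C x y := Iff.rfl

/-- linkage -/
theorem link {x x' : X} (h : G.S x) (h' : G.S x') : ∃ y, G.E x y ∧ G.E x' y := by
  obtain ⟨y, hy⟩ := G.pS (Submodule.span (ZMod 2) {x + x'}) x (by
    intro u hu
    rcases mem_s1.1 hu with rfl | rfl
    · rw [add_zero]; exact h
    · rw [aab]; exact h')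
  refine ⟨y, ?_, ?_⟩
  · have := hy 0 (Submodule.zero_mem _)
    rw [add_zero] at this
    exact this
  · have := hy (x + x') (mem_s1.2 (Or.inr rfl))
    rw [aab] at this
    exact this

theorem linkT {y y' : Y} (h : G.T y) (h' : G.T y') : ∃ x, G.E x y ∧ G.E x y' :=
  link (G := G.swap) h h'

/-- three-point case -/
theorem plane {x v v' : X} (h0 : G.S x) (h1 : G.S (x + v)) (h2 : G.S (x + v'))
    (h3 : G.S (x + (v + v'))) : ∃ y, G.E x y ∧ G.C v y ∧ G.C v' y := by
  obtain ⟨y, hy⟩ := G.pS (Submodule.span (ZMod 2) {v, v'}) x (by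
    intro u hu
    rcases mem_s2.1 hu with rfl | rfl | rfl | rfl
    · rw [add_zero]; exact h0
    · exact h1
    · exact h2
    · exact h3)
  have e0 : G.E x y := by
    have := hy 0 (Submodule.zero_mem _)
    rw [add_zero] at this
    exact this
  refine ⟨y, e0, ?_, ?_⟩
  · have e1 : G.E (x + v) y := hy v (mem_s2.2 (Or.inr (Or.inl rfl)))
    exact (e0.C_l e1).eq (aab x v) rfl
  · have e1 : G.E (x + v') y := hy v' (mem_s2.2 (Or.inr (Or.inr (Or.inl rfl))))
    exact (e0.C_l e1).eq (aab x v') rfl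

theorem planeT {y v v' : Y} (h0 : G.T y) (h1 : G.T (y + v)) (h2 : G.T (y + v'))
    (h3 : G.T (y + (v + v'))) : ∃ x, G.E x y ∧ G.C x v ∧ G.C x v' :=
  plane (G := G.swap) h0 h1 h2 h3

/-- `v ∈ S_x` -/
theorem S_iff {x v : X} (hx : G.S x) : G.S (x + v) ↔ ∃ y, G.E x y ∧ G.C v y := by
  constructor
  · intro h
    obtain ⟨y, h1, h2⟩ := link hx h
    exact ⟨y, h1, (h1.C_l h2).eq (aab x v) rfl⟩
  · rintro ⟨y, h1, h2⟩
    exact (h1.al h2).S

theorem T_iff {y v : Y} (hy : G.T y) : G.T (y + v) ↔ ∃ x, G.E x y ∧ G.C x v :=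
  S_iff (G := G.swap) hy

/-- (3a) -/
theorem S2_iff {x v v' : X} (hx : G.S x) (hv : G.S (x + v)) (hv' : G.S (x + v')) :
    G.S (x + (v + v')) ↔ ∃ y, G.E x y ∧ G.C v y ∧ G.C v' y := by
  constructor
  · intro h
    exact plane hx hv hv' h
  · rintro ⟨y, h1, h2, h3⟩
    exact (h1.al (h2.al h3)).S

theorem T2_iff {y v v' : Y} (hy : G.T y) (hv : G.T (y + v)) (hv' : G.T (y + v')) :
    G.T (y + (v + v')) ↔ ∃ x, G.E x y ∧ G.C x v ∧ G.C x v' :=
  S2_iff (G := G.swap) hy hv hv'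

/-- reduced geometries -/
structure Red (G : TG X Y Q) : Prop where
  rS : ∀ u, (∀ x, G.S x → G.S (x + u)) → u = 0
  rT : ∀ u, (∀ y, G.T y → G.T (y + u)) → u = 0

theorem Red.swap (h : G.Red) : G.swap.Red := ⟨h.rT, h.rS⟩

/-- section 1 -/
theorem stab_of_comm {x u : X} (hx : G.S x) (h : ∀ y, G.E x y → G.C u y) :
    ∀ x', G.S x' → G.S (x' + u) := by
  intro x' hx'
  obtain ⟨y, h1, h2⟩ := link hx hx'
  exact (h2.al (h y h1)).S

theorem Red.comm (hG : G.Red) {x u : X} (hx : G.S x) (h : ∀ y, G.E x y → G.C u y) : u = 0 :=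
  hG.rS u (stab_of_comm hx h)

theorem Red.commT (hG : G.Red) {y u : Y} (hy : G.T y) (h : ∀ x, G.E x y → G.C x u) : u = 0 :=
  hG.swap.comm hy h

theorem Red.sub (hG : G.Red) {x x' : X} (hx : G.S x) (h : ∀ y, G.E x y → G.E x' y) :
    x = x' := eo (hG.comm hx fun y hy => hy.C_l (h y hy))

theorem Red.subT (hG : G.Red) {y y' : Y} (hy : G.T y) (h : ∀ x, G.E x y → G.E x y') :
    y = y' := hG.swap.sub hy h

/-- the residue `(X_W, Y/W)` -/
def up (G : TG X Y Q) (W : Submodule (ZMod 2) Y) : TG (G.xc W) (Y ⧸ W) Q where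
  q := fun x y => Quotient.liftOn' y (fun t => G.q x.1 t) (by
    intro a b hab
    have h1 : a - b ∈ W := (Submodule.quotientRel_def W).1 hab
    have h2 : a - b = b + a := by
      rw [sub_eq_iff_eq_add]; exact (eo (by abel_nf <;> simp only [ch2, ch3, ch4, ch5, ch6, add_zero, zero_add]))
    rw [h2] at h1
    have : G.q x.1 (b + (b + a)) = G.q x.1 b := q_ar (x.2 _ h1)
    rw [aab] at this
    exact this)
  z := G.z
  c := G.c
  hc := G.hc
  addL := by
    rintro x x' ⟨y⟩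
    exact G.addL x.1 x'.1 y
  addR := by
    rintro x ⟨y⟩ ⟨y'⟩
    exact G.addR x.1 y y'
  ac1 := by
    rintro x v ⟨s⟩ ⟨s'⟩ ⟨t⟩ ⟨t'⟩
    exact G.ac1 x.1 v.1 s s' t t'
  ac2 := by
    rintro ⟨x⟩ ⟨v⟩ s s' t t'
    exact G.ac2 x v s.1 s'.1 t.1 t'.1
  ac3 := by
    rintro x ⟨y⟩ ⟨s⟩ ⟨s'⟩ t t'
    exact G.ac3 x.1 y s s' t.1 t'.1
  pS := by
    intro U x h
    obtain ⟨y, hy⟩ := G.pS (U.map (G.xc W).subtype) x.1 (by
      rintro u ⟨u', hu', rfl⟩
      obtain ⟨⟨y⟩, hy⟩ := h u' hu'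
      exact ⟨y, hy⟩)
    exact ⟨Submodule.Quotient.mk y, fun u hu => hy u.1 ⟨u, hu, rfl⟩⟩
  pT := by
    rintro U ⟨y⟩ h
    obtain ⟨x, hx⟩ := G.pT (U.comap W.mkQ) y (by
      intro u hu
      obtain ⟨x, hx⟩ := h _ hu
      exact ⟨x.1, hx⟩)
    have hx0 : G.E x y := by
      have := hx 0 (Submodule.zero_mem _)
      rw [add_zero] at this
      exact this
    have hxW : x ∈ G.xc W := by
      intro w hw
      have h1 : G.E x (y + w) := hx w (by
        show W.mkQ w ∈ U
        rw [show W.mkQ w = 0 from (Submodule.Quotient.mk_eq_zero W).2 hw]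
        exact Submodule.zero_mem _)
      exact (hx0.C_r h1).eq rfl (aab y w)
    refine ⟨⟨x, hxW⟩, ?_⟩
    rintro ⟨u⟩ hu
    exact hx u hu

theorem up_q {W : Submodule (ZMod 2) Y} (x : G.xc W) (y : Y) :
    (G.up W).q x (Submodule.Quotient.mk y) = G.q x.1 y := rfl

theorem up_E {W : Submodule (ZMod 2) Y} {x : G.xc W} {y : Y} :
    (G.up W).E x (Submodule.Quotient.mk y) ↔ G.E x.1 y := Iff.rfl

theorem up_C {W : Submodule (ZMod 2) Y} {x : G.xc W} {y : Y} :
    (G.up W).C x (Submodule.Quotient.mk y) ↔ G.C x.1 y := Iff.rfl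

theorem up_S {W : Submodule (ZMod 2) Y} {x : G.xc W} : (G.up W).S x ↔ G.S x.1 := by
  constructor
  · rintro ⟨⟨y⟩, h⟩
    exact ⟨y, h⟩
  · rintro ⟨y, h⟩
    exact ⟨Submodule.Quotient.mk y, h⟩

theorem up_T {W : Submodule (ZMod 2) Y} {y : Y} :
    (G.up W).T (Submodule.Quotient.mk y) ↔ ∃ x, G.E x y ∧ ∀ w ∈ W, G.C x w := by
  constructor
  · rintro ⟨x, h⟩
    exact ⟨x.1, h, x.2⟩
  · rintro ⟨x, h, h'⟩
    exact ⟨⟨x, h'⟩, h⟩

/-- closedness lemma -/
theorem Red.up (hG : G.Red) {W : Submodule (ZMod 2) Y} (hne : ∃ s, G.S s ∧ ∀ w ∈ W, G.C s w)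
    (hcl : ∀ w, (∀ s, G.S s → (∀ w' ∈ W, G.C s w') → G.C s w) → w ∈ W) : (G.up W).Red := by
  -- Stab(T') = 0
  have hT : ∀ u, (∀ y, (G.up W).T y → (G.up W).T (y + u)) → u = 0 := by
    -- the stabilizer as a submodule
    intro u hu
    obtain ⟨u, rfl⟩ := Submodule.Quotient.mk_surjective W u
    rw [Submodule.Quotient.mk_eq_zero]
    apply hcl
    intro s hs hsW
    -- N(s) + u is a flat of T'
    obtain ⟨y, hy⟩ := hs
    obtain ⟨⟨s', hs'W⟩, hs'⟩ := (G.up W).pT
      (((G.yx s).map W.mkQ) ⊔ Submodule.span (ZMod 2) {Submodule.Quotient.mk u})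
      (Submodule.Quotient.mk y) (by
        intro a ha
        obtain ⟨b, ⟨b, hb, rfl⟩, c, hc, rfl⟩ := Submodule.mem_sup.1 ha
        have h1 : (G.up W).T (Submodule.Quotient.mk (y + b)) :=
          up_T.2 ⟨s, hy.ar hb, hsW⟩
        rcases mem_s1.1 hc with rfl | rfl
        · rw [add_zero]; exact h1
        · rw [← add_assoc]; exact hu _ h1)
    have h2 : ∀ b, G.C s b → G.E s' (y + b) := fun b hb =>
      hs' (Submodule.Quotient.mk b) (Submodule.mem_sup_left ⟨b, hb, rfl⟩)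
    have h3 : s = s' := hG.sub ⟨y, hy⟩ (fun t ht => by
      have := h2 (y + t) (hy.C_r ht)
      rw [aab] at this
      exact this)
    subst h3
    have h4 : G.E s y := hy
    have h5 : G.E s (y + u) := hs' (Submodule.Quotient.mk u)
      (Submodule.mem_sup_right (mem_s1.2 (Or.inr rfl)))
    exact (h4.C_r h5).eq rfl (aab y u)
  refine ⟨?_, hT⟩
  intro u hu
  obtain ⟨s, hs, hsW⟩ := hne
  apply Subtype.ext
  apply hG.comm hs
  intro y hy
  -- F'_y + u is a flat
  let s' : G.xc W := ⟨s, hsW⟩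
  obtain ⟨y', hy'⟩ := (G.up W).pS
      ((G.up W).xy (Submodule.Quotient.mk y) ⊔ Submodule.span (ZMod 2) {u}) s' (by
        intro a ha
        obtain ⟨b, hb, c, hc, rfl⟩ := Submodule.mem_sup.1 ha
        have h1 : (G.up W).S (s' + b) :=
          ⟨Submodule.Quotient.mk y, E.al (G := G.up W) (up_E.2 hy) hb⟩
        rcases mem_s1.1 hc with rfl | rfl
        · rw [add_zero]; exact h1
        · rw [← add_assoc]; exact hu _ h1)
  have h2 : ∀ b, (G.up W).C b (Submodule.Quotient.mk y) → (G.up W).E (s' + b) y' := fun b hb =>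
      hy' b (Submodule.mem_sup_left hb)
  have hE : (G.up W).E s' (Submodule.Quotient.mk y) := hy
  have h3 : (Submodule.Quotient.mk y : Y ⧸ W) = y' := by
    refine eo (hT _ ?_)
    apply stab_of_comm (G := (G.up W).swap) (x := Submodule.Quotient.mk y) ⟨s', hE⟩
    intro x hx
    have h4 : (G.up W).E x (Submodule.Quotient.mk y) := hx
    have h5 : (G.up W).E x y' := (h2 (s' + x) (hE.C_l h4)).eq (aab _ _) rfl
    exact h4.C_r h5
  subst h3
  have h6 : (G.up W).E (s' + u) (Submodule.Quotient.mk y) :=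
    hy' u (Submodule.mem_sup_right (mem_s1.2 (Or.inr rfl)))
  exact (hE.C_l h6).eq (aab _ _) rfl

end TG

end Pool.Agent.PGE
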