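import Pool.Agent.PGE.Base

/-!
Two-sided P-geometries (note 2448 of helper28), sections 2-5.
-/

set_option autoImplicit false
set_option linter.unusedSectionVars false
set_option linter.unusedSimpArgs false
set_option linter.unnecessarySeqFocus false

namespace Pool.Agent.PGE

namespace TG

variable {X Y Q : Type} [AddCommGroup X] [Module (ZMod 2) X] [AddCommGroup Y]
  [Module (ZMod 2) Y] {G : TG X Y Q}

/-- the residue `(X/U, Y_U)` -/
def down (G : TG X Y Q) (U : Submodule (ZMod 2) X) : TG (X ⧸ U) (G.yc U) Q :=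
  (G.swap.up U).swap

theorem down_E {U : Submodule (ZMod 2) X} {x : X} {y : G.yc U} :
    (G.down U).E (Submodule.Quotient.mk x) y ↔ G.E x y.1 := Iff.rfl

theorem down_C {U : Submodule (ZMod 2) X} {x : X} {y : G.yc U} :
    (G.down U).C (Submodule.Quotient.mk x) y ↔ G.C x y.1 := Iff.rfl

theorem down_T {U : Submodule (ZMod 2) X} {y : G.yc U} : (G.down U).T y ↔ G.T y.1 :=
  up_S (G := G.swap)

/-- common perp of a set -/
def ca (G : TG X Y Q) (A : X → Prop) : Submodule (ZMod 2) Y where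
  carrier := {w | ∀ a, A a → G.C a w}
  add_mem' := fun ha hb a h => (ha a h).ar (hb a h)
  zero_mem' := fun a _ => C.zr a
  smul_mem' := fun r _ ha a h => C_smul (G := G.swap) r (ha a h)

theorem mem_ca {A : X → Prop} {w : Y} : w ∈ G.ca A ↔ ∀ a, A a → G.C a w := Iff.rfl

theorem Red.ca (hG : G.Red) {A : X → Prop} (h : ∀ a, A a → G.S a) (hA : ∃ a, A a) :
    (G.up (G.ca A)).Red := by
  obtain ⟨a, ha⟩ := hA
  refine hG.up ⟨a, h a ha, fun w hw => hw a ha⟩ (fun w hw b hb => ?_)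
  exact hw b (h b hb) (fun w' hw' => hw' b hb)

/-- common perp of a set in `Y_x` -/
def cl (G : TG X Y Q) (x : X) (A : X → Prop) : Submodule (ZMod 2) Y where
  carrier := {w | G.C x w ∧ ∀ a, A a → G.C a w}
  add_mem' := fun ha hb => ⟨ha.1.ar hb.1, fun a h => (ha.2 a h).ar (hb.2 a h)⟩
  zero_mem' := ⟨C.zr x, fun a _ => C.zr a⟩
  smul_mem' := fun r _ ha => ⟨C_smul (G := G.swap) r ha.1,
    fun a h => C_smul (G := G.swap) r (ha.2 a h)⟩

theorem mem_cl {x : X} {A : X → Prop} {w : Y} :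
    w ∈ G.cl x A ↔ G.C x w ∧ ∀ a, A a → G.C a w := Iff.rfl

/-- residues at common perps of sets of vectors with `x + a ∈ S` are reduced -/
theorem Red.cl (hG : G.Red) {x : X} (hx : G.S x) {A : X → Prop} (hA : ∀ a, A a → G.S (x + a)) :
    (G.up (G.cl x A)).Red := by
  refine hG.up ⟨x, hx, fun w hw => hw.1⟩ (fun w hw => ?_)
  have h0 : G.C x w := hw x hx (fun w' hw' => hw'.1)
  refine ⟨h0, fun a ha => ?_⟩
  have h1 : G.C (x + a) w := hw (x + a) (hA a ha) (fun w' hw' => hw'.1.al (hw'.2 a ha))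
  exact (h0.al h1).eq (aab x a) rfl

/-- `D_v(x)` -/
def dd (G : TG X Y Q) (x v : X) : Submodule (ZMod 2) Y := G.cl x (fun a => a = v)

theorem mem_dd {x v : X} {w : Y} : w ∈ G.dd x v ↔ G.C x w ∧ G.C v w := by
  constructor
  · intro h
    exact ⟨h.1, h.2 v rfl⟩
  · rintro ⟨h, h'⟩
    exact ⟨h, fun a ha => by subst ha; exact h'⟩

theorem Red.dd (hG : G.Red) {x v : X} (hx : G.S x) (hv : G.S (x + v)) :
    (G.up (G.dd x v)).Red :=
  hG.cl hx (fun a ha => by subst ha; exact hv)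

/-- 3': meeting -/
theorem Red.meet (hG : G.Red) {x : X} {W : Submodule (ZMod 2) Y} (hW : ∀ w ∈ W, G.C x w)
    {s : X} (hs : G.S s) (hsx : s ≠ x) (hsW : ∀ w ∈ W, G.C s w) {y : Y} (hy : G.E x y) :
    ∃ v, v ≠ 0 ∧ (∀ w ∈ W, G.C v w) ∧ G.C v y := by
  by_contra hcon
  push Not at hcon
  apply hsx
  apply hG.sub hs
  intro t ht
  obtain ⟨⟨x', hx'W⟩, h1, h2⟩ := linkT (G := G.up W) (y := Submodule.Quotient.mk y)
    (y' := Submodule.Quotient.mk t) (up_T.2 ⟨x, hy, hW⟩) (up_T.2 ⟨s, ht, hsW⟩)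
  have h3 : G.E x' y := h1
  have h4 : G.E x' t := h2
  have h5 : x + x' = 0 := by
    by_contra hne
    exact hcon (x + x') hne (fun w hw => (hW w hw).al (hx'W w hw)) (hy.C_l h3)
  rw [eo h5]
  exact h4

/-- 4: pure vectors -/
theorem Red.pure (hG : G.Red) {x v : X} {y : Y} (hy : G.E x y) (hv : G.C v y)
    (h : ∀ w, G.C x w → G.C v w → w = 0) {t : Y} (ht : G.T t) (hvt : G.C v t) : t = y := by
  apply hG.subT ht
  intro s hs
  have h1 : G.S (x + (x + s)) := by rw [aab]; exact hs.S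
  have h2 : G.S (x + (v + (x + s))) := by
    have : x + (v + (x + s)) = s + v := (eo (by abel_nf <;> simp only [ch2, ch3, ch4, ch5, ch6, add_zero, zero_add]))
    rw [this]; exact (hs.al hvt).S
  obtain ⟨y1, h3, h4, h5⟩ := plane hy.S (hy.al hv).S h1 h2
  have h6 : y + y1 = 0 := h _ (hy.C_r h3) (hv.ar h4)
  rw [← eo h6] at h5 h3
  exact (h3.al h5).eq (aab x s) rfl

theorem pure_perp {x v : X} {y : Y} (hy : G.E x y) (hv : G.C v y)
    (h : ∀ t, G.T t → G.C v t → t = y) : ∀ w, G.C x w → G.C v w → w = 0 := by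
  intro w hw hvw
  have h1 := h (y + w) (hy.ar hw).T (hv.ar hvw)
  have h2 : y + (y + w) = y + y := by rw [h1]
  rw [aab, aa] at h2
  exact h2

/-- the perp of `v` in `Y_x` is not the whole of `Y_x` -/
theorem Red.perp_ne (hG : G.Red) {x v : X} (hv0 : v ≠ 0) {y : Y} (hy : G.E x y)
    (hv : G.C v y) : ∃ w, G.C x w ∧ ¬ G.C v w := by
  by_contra hcon
  push Not at hcon
  apply hv0
  apply hG.comm hy.S
  intro t ht
  have h1 := hv.ar (hcon (y + t) (hy.C_r ht))
  exact h1.eq rfl (aab y t)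

end TG

end Pool.Agent.PGE
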