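import Pool.Agent.PGE.S9d

/-!
Two-sided P-geometries (note 2448 of helper28), section 10 and the local trichotomy.
-/

set_option autoImplicit false
set_option linter.unusedSectionVars false
set_option linter.unusedSimpArgs false
set_option linter.unnecessarySeqFocus false

namespace Pool.Agent.PGE

namespace TG

variable {X Y Q : Type} [AddCommGroup X] [Module (ZMod 2) X] [AddCommGroup Y]
  [Module (ZMod 2) Y] {G : TG X Y Q}

/-- `a` has only the value `f` -/
def Val (G : TG X Y Q) (x a : X) (f : Q) : Prop := ∀ w, G.C x w → G.C a w ∨ G.q a w = f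

/-- span of the atoms with value in `F` -/
def US (G : TG X Y Q) (x : X) (y : Y) (F : Q → Prop) : Submodule (ZMod 2) X :=
  Submodule.span (ZMod 2) {a | (G.At x a ∧ G.C a y) ∧ ∃ f, F f ∧ G.Val x a f}

theorem Val.zero (G : TG X Y Q) (x : X) (f : Q) : G.Val x 0 f := fun w _ => Or.inl (C.zl w)

theorem Val.add {x a b : X} {f : Q} (ha : G.Val x a f) (hb : G.Val x b f) :
    G.Val x (a + b) f := by
  intro w hw
  rcases ha w hw with h1 | h1 <;> rcases hb w hw with h2 | h2
  · exact Or.inl (h1.al h2)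
  · right
    rw [add_comm, q_al h1]; exact h2
  · right
    rw [q_al h2]; exact h1
  · left
    exact (G.addL _ _ _).1 (h1.trans h2.symm)

theorem US.le {x : X} {y : Y} {F : Q → Prop} {u : X} (hu : u ∈ G.US x y F) : G.C u y := by
  have h : G.US x y F ≤ G.xy y := by
    unfold US
    rw [Submodule.span_le]
    rintro a ⟨⟨-, h⟩, -⟩
    exact h
  exact h hu

theorem US.val {x : X} {y : Y} {f : Q} {u : X} (hu : u ∈ G.US x y (fun g => g = f)) :
    G.Val x u f := by
  unfold US at hu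
  refine Submodule.span_induction ?_ (Val.zero G x f) (fun _ _ _ _ h1 h2 => h1.add h2) ?_ hu
  · rintro a ⟨-, g, rfl, h⟩
    exact h
  · intro r a _ h
    have : r = 0 ∨ r = 1 := by revert r; decide
    rcases this with rfl | rfl
    · rw [zero_smul]; exact Val.zero G x f
    · rw [one_smul]; exact h

theorem US.split {x : X} {y : Y} {F F1 F2 : Q → Prop} {u : X} (hu : u ∈ G.US x y F)
    (h : ∀ f, F f → F1 f ∨ F2 f) : ∃ a ∈ G.US x y F1, ∃ b ∈ G.US x y F2, u = a + b := by
  have h1 : G.US x y F ≤ G.US x y F1 ⊔ G.US x y F2 := by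
    unfold US
    rw [Submodule.span_le]
    rintro a ⟨h2, f, h3, h4⟩
    rcases h f h3 with h5 | h5
    · exact Submodule.mem_sup_left (Submodule.subset_span ⟨h2, f, h5, h4⟩)
    · exact Submodule.mem_sup_right (Submodule.subset_span ⟨h2, f, h5, h4⟩)
  obtain ⟨a, ha, b, hb, h2⟩ := Submodule.mem_sup.1 (h1 hu)
  exact ⟨a, ha, b, hb, h2.symm⟩

/-- atoms with different values are orthogonal to a `Y`-atom with value `e` -/
theorem US.orth {x : X} {y : Y} {F : Q → Prop} {u : X} (hu : u ∈ G.US x y F) {e : Q} {b : Y}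
    (hb : ∀ u, G.C u y → G.C u b ∨ G.q u b = e) (hxb : G.C x b) (he : ¬ F e) : G.C u b := by
  have h : G.US x y F ≤ G.xy b := by
    unfold US
    rw [Submodule.span_le]
    rintro a ⟨⟨-, h1⟩, f, h2, h3⟩
    show G.C a b
    rcases hb a h1 with h4 | h4
    · exact h4
    rcases h3 b hxb with h5 | h5
    · exact h5
    · rw [h4] at h5
      rw [h5] at he
      exact absurd h2 he
  exact h hu

section fin
variable [Finite X] [Finite Y]

/-- 10(c) -/
theorem Red.sec10c (hG : G.Red) {x : X} {y : Y} (hx : G.E x y) {e : Q} (he0 : e ≠ G.z)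
    {u1 : X} (hu1 : G.C u1 y) (hv1 : G.Val x u1 e) {b : Y} (hxb : G.C x b)
    (hb : ∀ u, G.C u y → G.C u b ∨ G.q u b = e) (hub : G.q u1 b = e) (n : ℕ) :
    ∀ F : Finset Q, F.card = n → e ∉ F → ∀ u ∈ G.US x y (fun f => f ∈ F), ∀ w, G.C x w →
      G.C u1 w → G.q u w ≠ e := by
  classical
  have hub' : ¬ G.C u1 b := fun h => he0 (hub.symm.trans h)
  -- the vector v
  have hu10 : u1 ≠ 0 := by
    rintro rfl
    exact hub' (C.zl b)
  obtain ⟨v, hv0, hv, hvb⟩ := hG.meet (W := G.dd x u1) (x := x)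
    (fun w hw => (mem_dd.1 hw).1) (hx.al hu1).S (add_ne hu10)
    (fun w hw => (mem_dd.1 hw).1.al (mem_dd.1 hw).2) (hx.ar hxb)
  have hv' : ∀ w, G.C x w → G.C u1 w → G.C v w := fun w h1 h2 => hv w (mem_dd.2 ⟨h1, h2⟩)
  have hvy : ¬ G.C v y := by
    intro h1
    have h2 : G.C v b := (h1.ar hvb).eq rfl (aab y b)
    obtain ⟨w, h3, h4⟩ := hG.perp_ne hv0 hx h1
    rcases hv1 w h3 with h5 | h5
    · exact h4 (hv' w h3 h5)
    · have h6 : G.C u1 (w + b) := (G.addR _ _ _).1 (h5.trans hub.symm)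
      have h7 := hv' _ (h3.ar hxb) h6
      exact h4 ((h7.ar h2).eq rfl (eo (by abel_nf <;> simp only [ch2, ch3, ch4, ch5, ch6, add_zero, zero_add])))
  induction n using Nat.strong_induction_on with
  | _ n ih =>
    intro F hFn heF u hu w hw huw hcon
    -- one step
    have step : ∀ f ∈ F, ∀ a ∈ G.US x y (fun g => g = f),
        ∀ a' ∈ G.US x y (fun g => g ∈ F.erase f), u = a + a' → G.q v y = f := by
      intro f hf a ha a' ha' hua
      have hfe : f ≠ e := by
        rintro rfl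
        exact heF hf
      have hay := US.le ha
      have hay' := US.le ha'
      have hab : G.C a b := US.orth ha hb hxb (fun h => hfe h.symm)
      have hab' : G.C a' b := US.orth ha' hb hxb (fun h => heF (Finset.mem_of_mem_erase h))
      have k1 : G.S (x + (v + a)) := ((hx.ar hxb).al (hvb.al (hay.ar hab))).S
      have k2 : G.S (x + (u1 + a')) := (hx.al (hu1.al hay')).S
      have k3 : G.S (x + (v + a + (u1 + a'))) := by
        have e1 : G.q u1 (b + w) = e := by rw [q_ar huw]; exact hub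
        have e2 : G.q u (b + w) = e := by
          have : G.C u b := by rw [hua]; exact hab.al hab'
          rw [add_comm, q_ar this]; exact hcon
        have e3 : G.C (u1 + u) (b + w) := (G.addL _ _ _).1 (e1.trans e2.symm)
        have e4 : G.C (u1 + u) y := hu1.al (by rw [hua]; exact hay.al hay')
        have e5 : G.C v (y + b + w) := hvb.ar (hv' w hw huw)
        have e6 : G.C (v + (u1 + u)) (y + b + w) :=
          e5.al ((e4.ar e3).eq rfl (eo (by abel_nf <;> simp only [ch2, ch3, ch4, ch5, ch6, add_zero, zero_add])))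
        have e7 := ((hx.ar hxb).ar hw).al e6
        have : x + (v + a + (u1 + a')) = x + (v + (u1 + u)) := by
          rw [hua]; exact (eo (by abel_nf <;> simp only [ch2, ch3, ch4, ch5, ch6, add_zero, zero_add]))
        rw [this]; exact e7.S
      obtain ⟨y2, m1, m2, m3⟩ := (S2_iff hx.S k1 k2).1 k3
      have m4 : G.C x (y + y2) := hx.C_r m1
      have m5 : G.C (u1 + a') (y + y2) := (hu1.al hay').ar m3
      by_cases m6 : G.C u1 (y + y2)
      · have m7 := hv' _ m4 m6
        have m8 : G.q v y = G.q a (y + y2) := by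
          have n1 : G.q v y2 = G.q a y2 := (G.addL _ _ _).2 m2
          have n2 : G.q v y2 = G.q v y := by
            have := q_ar (G := G) (x := v) (y := y) (v := y + y2) m7
            rw [aab] at this
            exact this
          have n3 : G.q a (y + y2) = G.q a y2 := by rw [add_comm, q_ar hay]
          rw [n3, ← n1, n2]
        rcases US.val ha _ m4 with m9 | m9
        · exact absurd (m8.trans m9) hvy
        · exact m8.trans m9
      · exfalso
        have m7 : G.q u1 (y + y2) = e := (hv1 _ m4).resolve_left m6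
        have m8 : G.q a' (y + y2) = e := by
          rw [← m7]
          exact ((G.addL _ _ _).2 m5).symm
        have m9 : G.C u1 (y + y2 + b) := (G.addR _ _ _).1 (m7.trans hub.symm)
        have m10 : G.q a' (y + y2 + b) = e := by rw [q_ar hab']; exact m8
        refine ih (F.erase f).card ?_ (F.erase f) rfl (fun h => heF (Finset.mem_of_mem_erase h))
          a' ha' (y + y2 + b) (m4.ar hxb) m9 m10
        rw [← hFn]
        exact Finset.card_erase_lt_of_mem hf
    -- two values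
    rcases F.eq_empty_or_nonempty with rfl | ⟨f, hf⟩
    · have : u = 0 := by
        unfold US at hu
        have h1 : {a | (G.At x a ∧ G.C a y) ∧ ∃ f, f ∈ (∅ : Finset Q) ∧ G.Val x a f} = ∅ := by
          ext a
          simp
        rw [h1, Submodule.span_empty] at hu
        exact (Submodule.mem_bot _).1 hu
      rw [this] at hcon
      exact he0 (hcon.symm.trans (C.zl w))
    · by_cases h1 : ∃ g, g ∈ F ∧ g ≠ f
      · obtain ⟨g, hg, hgf⟩ := h1
        obtain ⟨a, ha, a', ha', h2⟩ := US.split (F1 := fun g => g = f)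
          (F2 := fun g => g ∈ F.erase f) hu (by
            intro r hr
            by_cases h3 : r = f
            · exact Or.inl h3
            · exact Or.inr (Finset.mem_erase.2 ⟨h3, hr⟩))
        obtain ⟨c, hc, c', hc', h3⟩ := US.split (F1 := fun h => h = g)
          (F2 := fun h => h ∈ F.erase g) hu (by
            intro r hr
            by_cases h3 : r = g
            · exact Or.inl h3
            · exact Or.inr (Finset.mem_erase.2 ⟨h3, hr⟩))
        exact hgf ((step g hg c hc c' hc' h3).symm.trans (step f hf a ha a' ha' h2))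
      · push Not at h1
        have h2 : u ∈ G.US x y (fun g => g = f) := by
          unfold US at hu ⊢
          refine Submodule.span_mono ?_ hu
          rintro a ⟨h3, r, h4, h5⟩
          exact ⟨h3, r, h1 r h4, h5⟩
        rcases US.val h2 w hw with h3 | h3
        · exact he0 (hcon.symm.trans h3)
        · rw [hcon] at h3
          rw [h3] at heF
          exact heF hf

/-- section 10 -/
theorem Red.sec10 (hG : G.Red) {x : X} {y : Y} (hx : G.E x y)
    (hX : ∀ a, G.At x a → G.C a y → ∀ w w', G.C x w → G.C x w' → ¬ G.C a w → ¬ G.C a w' →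
      G.C a (w + w'))
    (hY : ∀ b, G.swap.At y b → G.C x b → ∀ u u', G.C u y → G.C u' y → ¬ G.C u b →
      ¬ G.C u' b → G.C (u + u') b) :
    G.DP x y ∨ ∃ U1 U2 W1 W2, G.SpE x y U1 U2 W1 W2 := by
  classical
  have vX : ∀ a, G.At x a → G.C a y → ∃ f, f ≠ G.z ∧ (∃ w, G.q a w = f) ∧ G.Val x a f := by
    intro a ha hay
    obtain ⟨w, h1, h2⟩ := hG.perp_ne ha.ne hx hay
    refine ⟨G.q a w, h2, ⟨w, rfl⟩, ?_⟩
    intro w' h3
    by_cases h4 : G.C a w'
    · exact Or.inl h4
    · exact Or.inr ((G.addR _ _ _).2 (hX a ha hay w' w h3 h1 h4 h2))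
  have vY : ∀ b, G.swap.At y b → G.C x b → ∃ f, f ≠ G.z ∧
      ∀ u, G.C u y → G.C u b ∨ G.q u b = f := by
    intro b hb hxb
    obtain ⟨u, h1, h2⟩ := hG.swap.perp_ne hb.ne (x := y) (y := x) hx hxb
    refine ⟨G.q u b, h2, ?_⟩
    intro u' h3
    by_cases h4 : G.C u' b
    · exact Or.inl h4
    · exact Or.inr ((G.addL _ _ _).2 (hY b hb hxb u' u h3 h1 h4 h2))
  by_cases h0 : ∃ a, G.At x a ∧ G.C a y
  swap
  · -- no atoms
    left
    refine ⟨G.c, G.hc, fun u w hu hw => Or.inl ?_⟩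
    by_cases hu0 : u = 0
    · rw [hu0]; exact C.zl w
    obtain ⟨p, hp, -⟩ := exists_at hu0 (hx.al hu).S
    obtain ⟨v, h1, h2, -⟩ := hG.at_y hp hx
    exact absurd ⟨v, h1, h2⟩ h0
  obtain ⟨a0, ha0, ha0y⟩ := h0
  obtain ⟨e, he0, -, hv0⟩ := vX a0 ha0 ha0y
  -- the two spans
  have hgen : ∀ u, G.C u y → u ∈ G.US x y (fun _ => True) := by
    intro u hu
    have h1 := hG.gen hx hu
    unfold US
    refine Submodule.span_mono ?_ h1
    rintro a ⟨h2, h3⟩
    obtain ⟨f, -, -, h4⟩ := vX a h2 h3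
    exact ⟨⟨h2, h3⟩, f, trivial, h4⟩
  by_cases hall : ∀ a, G.At x a → G.C a y → G.Val x a e
  · left
    refine ⟨e, he0, fun u w hu hw => ?_⟩
    have h1 : u ∈ G.US x y (fun g => g = e) := by
      have h2 := hG.gen hx hu
      unfold US
      refine Submodule.span_mono ?_ h2
      rintro a ⟨h3, h4⟩
      exact ⟨⟨h3, h4⟩, e, rfl, hall a h3 h4⟩
    exact US.val h1 w hw
  push Not at hall
  obtain ⟨a2, ha2, ha2y, hn2⟩ := hall
  right
  let F : Finset Q := ((Set.finite_range (fun p : X × Y => G.q p.1 p.2)).toFinset).erase e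
  have hF : ∀ a w, G.q a w ≠ e → G.q a w ∈ F := fun a w h =>
    Finset.mem_erase.2 ⟨h, (Set.Finite.mem_toFinset _).2 ⟨(a, w), rfl⟩⟩
  have heF : e ∉ F := fun h => (Finset.mem_erase.1 h).1 rfl
  let W1 : Submodule (ZMod 2) Y := G.cl x (fun u => u ∈ G.US x y (fun f => f ∈ F))
  let W2 : Submodule (ZMod 2) Y := G.cl x (fun u => u ∈ G.US x y (fun f => f = e))
  have hsw : ∀ w, G.C x w → w ∈ W1 ⊔ W2 := by
    intro w hw
    have h1 := hG.swap.gen (x := y) (y := x) (v := w) hx hw
    have h2 : Submodule.span (ZMod 2) {p | G.swap.At y p ∧ G.swap.C p x} ≤ W1 ⊔ W2 := by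
      rw [Submodule.span_le]
      rintro b ⟨hb1, hb2⟩
      obtain ⟨f, -, hf⟩ := vY b hb1 hb2
      by_cases hfe : f = e
      · subst hfe
        exact Submodule.mem_sup_left ⟨hb2, fun u hu => US.orth hu hf hb2 heF⟩
      · exact Submodule.mem_sup_right ⟨hb2, fun u hu => US.orth hu hf hb2 hfe⟩
    exact h2 h1
  refine ⟨G.US x y (fun f => f = e), G.US x y (fun f => f ∈ F), W1, W2, hx,
    fun u hu => US.le hu, fun u hu => US.le hu, fun w hw => hw.1, fun w hw => hw.1, ?_, ?_,
    fun u hu w hw => hw.2 u hu, fun u hu w hw => hw.2 u hu, ?_, ?_, ?_⟩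
  · intro u hu
    have h2 : u ∈ G.US x y (fun f => f = e ∨ f ∈ F) := by
      have h1 := hG.gen hx hu
      unfold US
      refine Submodule.span_mono ?_ h1
      rintro a ⟨h2, h3⟩
      obtain ⟨f, -, ⟨w, h5⟩, h4⟩ := vX a h2 h3
      refine ⟨⟨h2, h3⟩, f, ?_, h4⟩
      by_cases hfe : f = e
      · exact Or.inl hfe
      · right
        rw [← h5] at hfe ⊢
        exact hF a w hfe
    exact US.split h2 (fun f hf => hf)
  · intro w hw
    obtain ⟨a, ha, b, hb, h1⟩ := Submodule.mem_sup.1 (hsw w hw)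
    exact ⟨a, ha, b, hb, h1.symm⟩
  · intro u1 hu1 w1 hw1 u2 hu2 w2 hw2 heq
    by_contra hcon
    have h1 : G.q u1 w1 = e := (US.val hu1 w1 hw1.1).resolve_left hcon
    -- a Y-atom not orthogonal to u1
    obtain ⟨b, hb1, hb2, hb3⟩ := hG.exY hx hw1.1 hcon
    obtain ⟨f, -, hf⟩ := vY b hb1 hb2
    have hu1y := US.le hu1
    have hv1 := US.val hu1
    have h2 : G.q u1 b = e := (hv1 b hb2).resolve_left hb3
    have h3 : f = e := ((hf u1 hu1y).resolve_left hb3).symm.trans h2
    subst h3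
    exact hG.sec10c hx he0 hu1y hv1 hb2 hf h2 _ F rfl heF u2 hu2 w2 hw2.1 (hw2.2 u1 hu1)
      (heq.symm.trans h1)
  · exact ⟨a0, Submodule.subset_span ⟨⟨ha0, ha0y⟩, e, rfl, hv0⟩, ha0.ne⟩
  · obtain ⟨f, -, ⟨w, h5⟩, h4⟩ := vX a2 ha2 ha2y
    refine ⟨a2, Submodule.subset_span ⟨⟨ha2, ha2y⟩, f, ?_, h4⟩, ha2.ne⟩
    rw [← h5]
    apply hF
    rw [h5]
    rintro rfl
    exact hn2 h4

/-- the case of a big atom -/
theorem Red.ltBig (hG : G.Red) (hs : G.StrP) {x : X} {y : Y} (hx : G.E x y) {a p : X}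
    (ha : G.At x a) (hay : G.C a y) (hp : G.PP x y a p) (hp0 : p ≠ 0) (hpa : p ≠ a) :
    (∃ g g', G.EK g g') ∨ ∃ U1 U2 W1 W2, G.SpE x y U1 U2 W1 W2 := by
  obtain ⟨w, hw, haw⟩ := hG.perp_ne ha.ne hx hay
  obtain ⟨h, hh, hxh, hah⟩ := hG.exY hx hw haw
  obtain ⟨γ, H⟩ := hG.c9 hx ha hay hp hp0 hpa hh hxh hah
  have st := hs _ _ _ _ _ H
  by_cases hK : ∃ k, G.C k y ∧ G.C k h ∧ k ≠ 0
  · right
    let P : Submodule (ZMod 2) X :=
      { carrier := {u | G.PP x y a u}
        add_mem' := fun ha hb => ha.add hb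
        zero_mem' := PP.zero
        smul_mem' := by
          intro r u hu
          have : r = 0 ∨ r = 1 := by revert r; decide
          rcases this with rfl | rfl
          · rw [zero_smul]; exact PP.zero
          · rw [one_smul]; exact hu }
    refine ⟨P, G.swap.dd y h, Submodule.span (ZMod 2) {h}, G.dd x a, hx, fun u hu => hu.1,
      fun u hu => (mem_K.1 hu).1, ?_, fun w hw => (mem_dd.1 hw).1, ?_, ?_, ?_, ?_, ?_, ?_, ?_⟩
    · intro w hw
      rcases mem_s1.1 hw with rfl | rfl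
      · exact C.zr x
      · exact hxh
    · intro v hv
      obtain ⟨p, h1, h2⟩ := H.sum v hv
      exact ⟨p, h1, v + p, mem_K.2 ⟨hv.al h1.1, h2⟩, (eo (by abel_nf <;> simp only [ch2, ch3, ch4, ch5, ch6, add_zero, zero_add]))⟩
    · intro w hw
      by_cases h1 : G.C a w
      · exact ⟨0, Submodule.zero_mem _, w, mem_dd.2 ⟨hw, h1⟩, (zero_add w).symm⟩
      · exact ⟨h, mem_s1.2 (Or.inr rfl), h + w, mem_dd.2 ⟨hxh.ar hw,
          (H.idx _ _ hw hxh h1 hah).eq rfl (add_comm _ _)⟩, (aab h w).symm⟩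
    · intro u hu w hw
      exact hu.2 w (mem_dd.1 hw).1 (mem_dd.1 hw).2
    · intro u hu w hw
      rcases mem_s1.1 hw with rfl | rfl
      · exact C.zr u
      · exact (mem_K.1 hu).2
    · intro u1 hu1 w1 hw1 u2 hu2 w2 hw2 e
      rcases mem_s1.1 hw1 with rfl | rfl
      · exact C.zr u1
      · have h1 := st u1 u2 w2 hu1 (mem_K.1 hu2).1 (mem_K.1 hu2).2 (mem_dd.1 hw2).1
          (mem_dd.1 hw2).2 e
        rw [h1]; exact C.zl _
    · exact ⟨a, PP.self hay, ha.ne⟩
    · obtain ⟨k, h1, h2, h3⟩ := hK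
      exact ⟨k, mem_K.2 ⟨h1, h2⟩, h3⟩
  · left
    push Not at hK
    -- P = X_y
    have hP : ∀ u, G.C u y → G.PP x y a u := by
      intro u hu
      obtain ⟨p, h1, h2⟩ := H.sum u hu
      have h3 : u + p = 0 := by
        by_contra h4
        exact h4 (hK _ (hu.al h1.1) h2)
      rw [eo h3]; exact h1
    -- W0 = 0
    have hW : ∀ w, G.C x w → G.C a w → w = 0 := by
      intro w h1 h2
      by_contra hw0
      obtain ⟨u, h3, h4⟩ := hG.swap.perp_ne hw0 (x := y) (y := x) hx h1
      exact h4 ((hP u h3).2 w h1 h2)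
    have hD : ∀ v, v ≠ 0 → G.C v y → ∀ w, G.C x w → G.C v w → w = 0 := by
      intro v hv0 hv w h1 h2
      by_cases h3 : G.C a w
      · exact hW w h1 h3
      · exfalso
        have h4 : w + h = 0 := hW _ (h1.ar hxh) (H.idx _ _ h1 hxh h3 hah)
        rw [eo h4] at h2
        exact hv0 (H.PK v (hP v hv) h2)
    refine hG.ek6 hx.S ?_ ha.ne ha.S
    intro v hv0 hv w h1 h2
    obtain ⟨v', h3, h4, h5⟩ := hG.meet (W := G.dd x v) (x := x)
      (fun w hw => (mem_dd.1 hw).1) hv (add_ne hv0)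
      (fun w hw => (mem_dd.1 hw).1.al (mem_dd.1 hw).2) hx
    exact hD v' h3 h5 w h1 (h4 w (mem_dd.2 ⟨h1, h2⟩))

/-- the local trichotomy, one edge -/
theorem Red.ltEdge (hG : G.Red) (hs : G.StrP) (hs' : G.swap.StrP) {x : X} {y : Y}
    (hx : G.E x y) : (∃ g g', G.EK g g') ∨ G.DP x y ∨ ∃ U1 U2 W1 W2, G.SpE x y U1 U2 W1 W2 := by
  by_cases h1 : ∃ a p, G.At x a ∧ G.C a y ∧ G.PP x y a p ∧ p ≠ 0 ∧ p ≠ a
  · obtain ⟨a, p, h2, h3, h4, h5, h6⟩ := h1
    rcases hG.ltBig hs hx h2 h3 h4 h5 h6 with h | h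
    · exact Or.inl h
    · exact Or.inr (Or.inr h)
  by_cases h2 : ∃ b p, G.swap.At y b ∧ G.C x b ∧ G.swap.PP y x b p ∧ p ≠ 0 ∧ p ≠ b
  · obtain ⟨b, p, h2, h3, h4, h5, h6⟩ := h2
    rcases hG.swap.ltBig hs' (x := y) (y := x) hx h2 h3 h4 h5 h6 with
      ⟨g', g, h⟩ | ⟨W1, W2, U1, U2, h⟩
    · exact Or.inl ⟨g, g', h.swap⟩
    · exact Or.inr (Or.inr ⟨U1, U2, W1, W2, h.swp hG.swap⟩)
  push Not at h1 h2
  right
  apply hG.sec10 hx
  · intro a ha hay w w' hw hw' haw haw'
    by_contra hcon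
    obtain ⟨h, hh, hxh, hah⟩ := hG.exY hx hw haw
    obtain ⟨p, k1, k2, k3⟩ := hG.swap.c9' (x := y) (y := x) hx hh hxh (h := a) ha hay hah
      hw hw' haw haw' hcon
    exact k3 (h2 h p hh hxh k1 k2)
  · intro b hb hxb u u' hu hu' hub hub'
    by_contra hcon
    obtain ⟨a, ha, hay, hah⟩ := hG.exX hx hu hub
    obtain ⟨p, k1, k2, k3⟩ := hG.c9' hx ha hay hb hxb hah hu hu' hub hub' hcon
    exact k3 (h1 a p ha hay k1 k2)

end fin

theorem IHyp.all (N : ℕ) : IHyp Q N := by
  induction N with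
  | zero =>
    intro X Y _ _ _ _ _ _ G h
    exact absurd h (Nat.not_lt_zero _)
  | succ N ih =>
    intro X Y _ _ _ _ _ _ G h hG
    have ih' : IHyp Q (Nat.card X * Nat.card Y) := by
      intro X' Y' _ _ _ _ _ _ G' h' hG'
      exact ih X' Y' G' (by omega) hG'
    have ih'' : IHyp Q (Nat.card Y * Nat.card X) := by rw [mul_comm]; exact ih'
    have s1 : G.StrP := hG.strP ih'
    have s2 : G.swap.StrP := hG.swap.strP ih''
    refine ⟨s1, ?_⟩
    by_cases h1 : ∃ g g', G.EK g g'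
    · exact Or.inl h1
    · right
      intro x y hx
      exact (hG.ltEdge s1 s2 hx).resolve_left h1

/-- **the local trichotomy** -/
theorem Red.ltp [Finite X] [Finite Y] (hG : G.Red) : G.LTP :=
  (IHyp.all (Nat.card X * Nat.card Y + 1) X Y G (Nat.lt_succ_self _) hG).2

end TG

end Pool.Agent.PGE
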