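import Pool.Agent.PGE.S10

/-!
Two-sided P-geometries (note 2448 of helper28), section 11: Claim S and the trichotomy.
-/

set_option autoImplicit false
set_option linter.unusedSectionVars false
set_option linter.unusedSimpArgs false
set_option linter.unnecessarySeqFocus false

namespace Pool.Agent.PGE

namespace TG

variable {X Y Q : Type} [AddCommGroup X] [Module (ZMod 2) X] [AddCommGroup Y]
  [Module (ZMod 2) Y] {G : TG X Y Q}

/-- the `Y`-atoms at a strict splitting lie in the pieces -/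
theorem SpE.atoms (hG : G.Red) {x : X} {y : Y} {U1 U2 : Submodule (ZMod 2) X}
    {W1 W2 : Submodule (ZMod 2) Y} (h : G.SpE x y U1 U2 W1 W2) {b : Y} (hb : G.swap.At y b)
    (hxb : G.C x b) : b ∈ W1 ∨ b ∈ W2 := by
  obtain ⟨b1, hb1, b2, hb2, rfl⟩ := h.sw b hxb
  by_cases h1 : b1 = 0
  · right; rw [h1, zero_add]; exact hb2
  by_cases h2 : b2 = 0
  · left; rw [h2, add_zero]; exact hb1
  exfalso
  have hx1 : G.C x b1 := h.w1 _ hb1
  -- b1 is above b
  have h3 := hb.mx b1 h1 (h.e.ar hx1).T (by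
    intro u hu hub
    have hu : G.C u y := hu
    have hub : G.C u (b1 + b2) := hub
    show G.C u b1
    obtain ⟨a1, ha1, a2, ha2, rfl⟩ := h.su u hu
    have e1 : G.q a1 (b1 + b2) = G.q a1 b1 := q_ar (h.o12 a1 ha1 b2 hb2)
    have e2 : G.q a2 (b1 + b2) = G.q a2 b2 := by
      rw [add_comm, q_ar (h.o21 a2 ha2 b1 hb1)]
    have e3 : G.q a1 (b1 + b2) = G.q a2 (b1 + b2) := (G.addL _ _ _).2 hub
    rw [e1, e2] at e3
    exact (h.st a1 ha1 b1 hb1 a2 ha2 b2 hb2 e3).al (h.o21 a2 ha2 b1 hb1))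
  obtain ⟨u, hu, hub⟩ := hG.swap.perp_ne h2 (x := y) (y := x) h.e (h.w2 _ hb2)
  have hu : G.C u y := hu
  have hub : ¬ G.C u b2 := hub
  obtain ⟨a1, ha1, a2, ha2, rfl⟩ := h.su u hu
  have h4 : G.C a2 (b1 + b2) := h3 a2 (h.u2 a2 ha2) (h.o21 a2 ha2 b1 hb1)
  have h5 : G.C a2 b2 := ((h.o21 a2 ha2 b1 hb1).ar h4).eq rfl (aab b1 b2)
  exact hub ((h.o12 a1 ha1 b2 hb2).al h5)

/-- the residue at a piece -/
theorem SpE.redPiece (hG : G.Red) {x : X} {y : Y} {U1 U2 : Submodule (ZMod 2) X}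
    {W1 W2 : Submodule (ZMod 2) Y} (h : G.SpE x y U1 U2 W1 W2) : (G.down U2).Red := by
  have h1 := hG.swap.cl (x := y) h.e.T (A := fun w => w ∈ W1) (fun w hw =>
    (h.e.ar (h.w1 w hw)).T)
  have h2 : G.swap.cl y (fun w => w ∈ W1) = U2 := by
    rw [← h.U2_eq hG]
    ext u
    rw [Submodule.mem_inf]
    constructor
    · intro h3
      exact ⟨h3.1, fun w hw => h3.2 w hw⟩
    · intro h3
      exact ⟨h3.1, fun w hw => h3.2 w hw⟩
  rw [h2] at h1
  exact h1.swap

/-- `Y`-atoms of a residue `G_L` are `Y`-atoms of `G` -/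
theorem At.ofDown {y : Y} {L : Submodule (ZMod 2) X} (hy : y ∈ G.yc L) {b : G.yc L}
    (hb : (G.down L).swap.At ⟨y, hy⟩ b) : G.swap.At y b.1 where
  ne := fun h => hb.ne (Subtype.ext h)
  S := by
    have := hb.S
    exact down_T.1 this
  mx := by
    intro v hv0 hv h1 w hw hvw
    have hvL : v ∈ G.yc L := fun u hu => h1 u (hy u hu) (b.2 u hu)
    exact hb.mx ⟨v, hvL⟩ (fun h => hv0 (congrArg Subtype.val h)) (down_T.2 hv) (by
      intro u hu hub
      obtain ⟨u, rfl⟩ := Submodule.Quotient.mk_surjective _ u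
      exact h1 u hu hub) (Submodule.Quotient.mk w) hw hvw

/-- strictness of orthogonal splittings containing all `Y`-atoms -/
theorem strictAux (n : ℕ) : ∀ (X Y : Type) [AddCommGroup X] [Module (ZMod 2) X]
    [AddCommGroup Y] [Module (ZMod 2) Y] [Finite X] [Finite Y] (G : TG X Y Q),
    Nat.card X * Nat.card Y = n → G.Red → ∀ (x : X) (y : Y) (U1 U2 : Submodule (ZMod 2) X),
    G.E x y → (∀ u ∈ U1, G.C u y) → (∀ u ∈ U2, G.C u y) →
    (∀ b, G.swap.At y b → G.C x b → (∀ u ∈ U1, G.C u b) ∨ (∀ u ∈ U2, G.C u b)) →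
    ∀ u1 ∈ U1, ∀ u2 ∈ U2, ∀ w1 w2, G.C x w1 → G.C x w2 → (∀ u ∈ U2, G.C u w1) →
    (∀ u ∈ U1, G.C u w2) → G.q u1 w1 = G.q u2 w2 → G.C u1 w1 := by
  induction n using Nat.strong_induction_on with
  | _ n ih =>
    intro X Y _ _ _ _ _ _ G hn hG x y U1 U2 hx hU1 hU2 hat u1 hu1 u2 hu2 w1 w2 hw1 hw2 ho1 ho2 e
    by_contra hcon
    have hu10 : u1 ≠ 0 := by rintro rfl; exact hcon (C.zl w1)
    have hw20 : w2 ≠ 0 := by
      rintro rfl
      exact hcon (e.trans (C.zr u2))
    rcases hG.ltp with ⟨g, g', hE⟩ | lt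
    · have h1 := hE.uniq (s := x) (s' := x + u1) (ne_add hu10) hx (hx.al (hU1 u1 hu1))
        (hx.ar hw2) ((hx.ar hw2).al ((hU1 u1 hu1).ar (ho2 u1 hu1)))
      exact ne_add hw20 h1
    rcases lt x y hx with ⟨f, hf0, hD⟩ | ⟨A1, A2, B1, B2, hS⟩
    · -- dual pair : w1 + w2 is an atom
      have h1 : ¬ G.C u1 (w1 + w2) := fun h => hcon
        ((h.ar (ho2 u1 hu1)).eq rfl (eo (by abel_nf <;> simp only [ch2, ch3, ch4, ch5, ch6, add_zero, zero_add])))
      have hxw : G.C x (w1 + w2) := hw1.ar hw2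
      have h2 : G.swap.At y (w1 + w2) := by
        refine ⟨?_, (hx.ar hxw).T, ?_⟩
        · intro h
          rw [h] at h1
          exact h1 (C.zr u1)
        · intro v hv0 hv k1 u hu huv
          have hu : G.C u y := hu
          have huv : G.C u v := huv
          show G.C u (w1 + w2)
          by_contra k2
          obtain ⟨x1, m2, m3⟩ := (T_iff hx.T).1 hv
          obtain ⟨u', m4, m5⟩ := hG.swap.perp_ne hv0 (x := y) (y := x1) m2 m3
          have m4 : G.C u' y := m4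
          have m5 : ¬ G.C u' v := m5
          apply m5
          by_cases m6 : G.C u' (w1 + w2)
          · exact k1 u' m4 m6
          · have m7 := (hD u _ hu hxw).resolve_left k2
            have m8 := (hD u' _ m4 hxw).resolve_left m6
            have m9 : G.C (u + u') v := k1 _ (C.al (G := G) hu m4)
              ((G.addL _ _ _).1 (m7.trans m8.symm))
            exact (huv.al m9).eq (aab u u') rfl
      rcases hat _ h2 hxw with h3 | h3
      · exact h1 (h3 u1 hu1)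
      · have h4 := h3 u2 hu2
        have h5 : G.C u2 w2 := ((ho1 u2 hu2).ar h4).eq rfl (aab _ _)
        exact hcon (e.trans h5)
    · -- a strict splitting
      obtain ⟨a, ha, a', ha', hua⟩ := hS.su u1 (hU1 u1 hu1)
      obtain ⟨c, hc, c', hc', huc⟩ := hS.su u2 (hU2 u2 hu2)
      obtain ⟨b, hb, b', hb', hwb⟩ := hS.sw w1 hw1
      obtain ⟨d, hd, d', hd', hwd⟩ := hS.sw w2 hw2
      -- components of vectors orthogonal to a subspace of `X_y` are orthogonal to it
      have comp : ∀ u w b b', G.C u y → b ∈ B1 → b' ∈ B2 → w = b + b' → G.C u w →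
          G.C u b ∧ G.C u b' := by
        intro u w b b' hu hb hb' hw huw
        obtain ⟨s, hs, s', hs', rfl⟩ := hS.su u hu
        subst hw
        have e1 : G.q s (b + b') = G.q s b := q_ar (hS.o12 s hs b' hb')
        have e2 : G.q s' (b + b') = G.q s' b' := by
          rw [add_comm, q_ar (hS.o21 s' hs' b hb)]
        have e3 : G.q s (b + b') = G.q s' (b + b') := (G.addL _ _ _).2 huw
        rw [e1, e2] at e3
        have e4 := hS.st s hs b hb s' hs' b' hb' e3
        have e5 : G.C s' b' := e3.symm.trans e4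
        exact ⟨e4.al (hS.o21 s' hs' b hb), (hS.o12 s hs b' hb').al e5⟩
      have hb2 : ∀ u ∈ U2, G.C u b ∧ G.C u b' := fun u hu =>
        comp u w1 b b' (hU2 u hu) hb hb' hwb (ho1 u hu)
      have hd2 : ∀ u ∈ U1, G.C u d ∧ G.C u d' := fun u hu =>
        comp u w2 d d' (hU1 u hu) hd hd' hwd (ho2 u hu)
      -- the two partial relations
      have h1 : G.C (u1 + u2) (w1 + w2) := by
        apply (G.addL _ _ _).1
        rw [q_ar (ho2 u1 hu1), e, add_comm w1 w2, q_ar (ho1 u2 hu2)]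
      have h2 := comp (u1 + u2) (w1 + w2) (b + d) (b' + d') ((hU1 u1 hu1).al (hU2 u2 hu2))
        (B1.add_mem hb hd) (B2.add_mem hb' hd') (by rw [hwb, hwd]; exact (eo (by abel_nf <;> simp only [ch2, ch3, ch4, ch5, ch6, add_zero, zero_add]))) h1
      have rel : ∀ b d, (∀ u ∈ U2, G.C u b) → (∀ u ∈ U1, G.C u d) → G.C (u1 + u2) (b + d) →
          G.q u1 b = G.q u2 d := by
        intro b d k1 k2 k3
        have k4 : G.q u1 (b + d) = G.q u2 (b + d) := (G.addL _ _ _).2 k3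
        rw [q_ar (k2 u1 hu1), add_comm b d, q_ar (k1 u2 hu2)] at k4
        exact k4
      have r1 := rel b d (fun u hu => (hb2 u hu).1) (fun u hu => (hd2 u hu).1) h2.1
      have r2 := rel b' d' (fun u hu => (hb2 u hu).2) (fun u hu => (hd2 u hu).2) h2.2
      -- the residue at a piece
      have piece : ∀ (A1 A2 : Submodule (ZMod 2) X) (B1 B2 : Submodule (ZMod 2) Y),
          G.SpE x y A1 A2 B1 B2 → ∀ b ∈ B1, ∀ d ∈ B1, (∀ u ∈ U2, G.C u b) →
          (∀ u ∈ U1, G.C u d) → G.q u1 b = G.q u2 d → G.C u1 b := by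
        intro A1 A2 B1 B2 hS b hb d hd k1 k2 k3
        have hR := hS.redPiece hG
        have := finQ A2
        obtain ⟨m, hm, hm0⟩ := hS.n2
        have hyA : y ∈ G.yc A2 := fun u hu => hS.u2 u hu
        have hbA : ∀ b ∈ B1, b ∈ G.yc A2 := fun b hb u hu => hS.o21 u hu b hb
        refine ih _ ?_ (X ⧸ A2) (G.yc A2) (G.down A2) rfl hR (Submodule.Quotient.mk x)
          ⟨y, hyA⟩ (U1.map A2.mkQ) (U2.map A2.mkQ) hx ?_ ?_ ?_ (Submodule.Quotient.mk u1)
          ⟨u1, hu1, rfl⟩ (Submodule.Quotient.mk u2) ⟨u2, hu2, rfl⟩ ⟨b, hbA b hb⟩ ⟨d, hbA d hd⟩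
          (hS.w1 b hb) (hS.w1 d hd) ?_ ?_ k3
        · rw [← hn]; exact card_down G A2 hm hm0
        · rintro _ ⟨u, hu, rfl⟩
          exact hU1 u hu
        · rintro _ ⟨u, hu, rfl⟩
          exact hU2 u hu
        · intro b hb hxb
          rcases hat b.1 (At.ofDown hyA hb) hxb with h | h
          · left
            rintro _ ⟨u, hu, rfl⟩
            exact h u hu
          · right
            rintro _ ⟨u, hu, rfl⟩
            exact h u hu
        · rintro _ ⟨u, hu, rfl⟩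
          exact k1 u hu
        · rintro _ ⟨u, hu, rfl⟩
          exact k2 u hu
      have p1 := piece A1 A2 B1 B2 hS b hb d hd (fun u hu => (hb2 u hu).1)
        (fun u hu => (hd2 u hu).1) r1
      have p2 := piece A2 A1 B2 B1 hS.symm' b' hb' d' hd' (fun u hu => (hb2 u hu).2)
        (fun u hu => (hd2 u hu).2) r2
      apply hcon
      rw [hwb]
      exact p1.ar p2

section fin
variable [Finite X] [Finite Y]

/-- **Claim S** -/
theorem Red.cs (hG : G.Red) : G.CS := by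
  intro x y U1 U2 W1 W2 h x' hx'
  -- atoms at (x', y)
  have hat : ∀ b, G.swap.At y b → G.C x' b → (∀ u ∈ U1, G.C u b) ∨ (∀ u ∈ U2, G.C u b) := by
    intro b hb _
    obtain ⟨b', h1, h2, h3⟩ := hG.swap.at_y hb (y := x) h.e
    rcases h.atoms hG h1 h2 with h4 | h4
    · right
      intro u hu
      exact (h3 u (h.u2 u hu)).2 (h.o21 u hu b' h4)
    · left
      intro u hu
      exact (h3 u (h.u1 u hu)).2 (h.o12 u hu b' h4)
  refine ⟨hx', h.u1, h.u2, fun w hw => (Submodule.mem_inf.1 hw).1,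
    fun w hw => (Submodule.mem_inf.1 hw).1, h.su, ?_,
    fun u hu w hw => (Submodule.mem_inf.1 hw).2 u hu,
    fun u hu w hw => (Submodule.mem_inf.1 hw).2 u hu, ?_, h.n1, h.n2⟩
  · intro w hw
    have h1 := hG.swap.gen (x := y) (y := x') (v := w) hx' hw
    have h2 : Submodule.span (ZMod 2) {p | G.swap.At y p ∧ G.swap.C p x'} ≤
        (G.yx x' ⊓ G.yc U2) ⊔ (G.yx x' ⊓ G.yc U1) := by
      rw [Submodule.span_le]
      rintro b ⟨hb1, hb2⟩
      rcases hat b hb1 hb2 with h3 | h3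
      · exact Submodule.mem_sup_right (Submodule.mem_inf.2 ⟨hb2, h3⟩)
      · exact Submodule.mem_sup_left (Submodule.mem_inf.2 ⟨hb2, h3⟩)
    obtain ⟨a, ha, b, hb, h3⟩ := Submodule.mem_sup.1 (h2 h1)
    exact ⟨a, ha, b, hb, h3.symm⟩
  · intro u1 hu1 w1 hw1 u2 hu2 w2 hw2 e
    exact strictAux _ X Y G rfl hG x' y U1 U2 hx' h.u1 h.u2 hat u1 hu1 u2 hu2 w1 w2
      (Submodule.mem_inf.1 hw1).1 (Submodule.mem_inf.1 hw2).1 (Submodule.mem_inf.1 hw1).2
      (Submodule.mem_inf.1 hw2).2 e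

/-- **the trichotomy** -/
theorem Red.tri (hG : G.Red) : (∃ g g', G.EK g g') ∨
    (∀ x y, G.E x y → ∃ e, e ≠ G.z ∧ ∀ u w, G.C u y → G.C x w → G.C u w ∨ G.q u w = e) ∨
    ∃ x y U1 U2 W1 W2, G.SpE x y U1 U2 W1 W2 := by
  rcases hG.ltp with h | h
  · exact Or.inl h
  right
  by_cases h1 : ∃ x y U1 U2 W1 W2, G.SpE x y U1 U2 W1 W2
  · exact Or.inr h1
  · left
    intro x y hx
    rcases h x y hx with h2 | ⟨U1, U2, W1, W2, h2⟩
    · exact h2
    · exact absurd ⟨x, y, U1, U2, W1, W2, h2⟩ h1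

end fin

end TG

end Pool.Agent.PGE
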