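import Pool.Agent.PGE.AN

/-!
Two-sided P-geometries (note 2448 of helper28), section 6.
-/

set_option autoImplicit false
set_option linter.unusedSectionVars false
set_option linter.unusedSimpArgs false
set_option linter.unnecessarySeqFocus false

namespace Pool.Agent.PGE

namespace TG

variable {X Y Q : Type} [AddCommGroup X] [Module (ZMod 2) X] [AddCommGroup Y]
  [Module (ZMod 2) Y] {G : TG X Y Q}

/-- linkage in the residue `G^{<w>}` -/
theorem linkW {s s' : X} {w t t' : Y} (hs : G.C s w) (hs' : G.C s' w) (h : G.E s t)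
    (h' : G.E s' t') : ∃ r, G.C r w ∧ G.E r t ∧ G.E r t' := by
  obtain ⟨⟨r, hr⟩, h1, h2⟩ := linkT (G := G.up (Submodule.span (ZMod 2) {w}))
    (y := Submodule.Quotient.mk t) (y' := Submodule.Quotient.mk t')
    (up_T.2 ⟨s, h, fun a ha => by
      rcases mem_s1.1 ha with rfl | rfl
      · exact C.zr s
      · exact hs⟩) (up_T.2 ⟨s', h', fun a ha => by
      rcases mem_s1.1 ha with rfl | rfl
      · exact C.zr s'
      · exact hs'⟩)
  exact ⟨r, hr w (mem_s1.2 (Or.inr rfl)), h1, h2⟩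

/-- two points `s,s'` of the residue at `W`, lines `t,t'` -/
theorem linkWW {W : Submodule (ZMod 2) Y} {s s' : X} {t t' : Y} (hs : ∀ w ∈ W, G.C s w)
    (hs' : ∀ w ∈ W, G.C s' w) (h : G.E s t)
    (h' : G.E s' t') : ∃ r, (∀ w ∈ W, G.C r w) ∧ G.E r t ∧ G.E r t' := by
  obtain ⟨⟨r, hr⟩, h1, h2⟩ := linkT (G := G.up W)
    (y := Submodule.Quotient.mk t) (y' := Submodule.Quotient.mk t')
    (up_T.2 ⟨s, h, hs⟩) (up_T.2 ⟨s', h', hs'⟩)
  exact ⟨r, hr, h1, h2⟩

theorem EK.uniq {g : X} {g' : Y} (h : G.EK g g') {s s' : X} {t t' : Y} (hne : s ≠ s')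
    (h1 : G.E s t) (h2 : G.E s' t) (h3 : G.E s t') (h4 : G.E s' t') : t = t' := by
  by_contra hcon
  -- not both are g'
  have key : ∀ {t t' : Y}, t ≠ t' → G.E s t → G.E s' t → G.E s t' → G.E s' t' → t ≠ g' → False := by
    intro t t' htt h1 h2 h3 h4 htg
    have h5 : G.E g t := (h.t t h1.T).resolve_left htg
    by_cases h6 : s = g
    · subst h6
      have h7 : t' ≠ g' := by rintro rfl; exact h.ne h3
      have h8 : G.E s' g' := (h.s s' h2.S).resolve_left (Ne.symm hne)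
      exact htt (h.sn s' t t' h8 h2 h4 htg h7)
    by_cases h7 : s' = g
    · subst h7
      have h7 : t' ≠ g' := by rintro rfl; exact h.ne h4
      have h8 : G.E s g' := (h.s s h1.S).resolve_left h6
      exact htt (h.sn s t t' h8 h1 h3 htg h7)
    exact hne (h.tn t s s' h5 h1 h2 h6 h7)
  by_cases htg : t = g'
  · exact key (Ne.symm hcon) h3 h4 h1 h2 (fun h5 => hcon (htg.trans h5.symm))
  · exact key hcon h1 h2 h3 h4 htg

/-- two lines of `E_k` have no common direction -/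
theorem EK.par {g : X} {g' : Y} (h : G.EK g g') {t t' : Y} (ht : G.T t) (ht' : G.T t')
    (hne : t ≠ t') {a : X} (h1 : G.C a t) (h2 : G.C a t') : a = 0 := by
  obtain ⟨s, h3, h4⟩ := linkT ht ht'
  by_contra ha
  refine hne (h.uniq (s := s) (s' := s + a) ?_ h3 (h3.al h1) h4 (h4.al h2))
  intro h5
  apply ha
  have : s + (s + a) = 0 := by rw [← h5]; exact aa s
  rw [aab] at this
  exact this

theorem ne_add {x v : X} (hv : v ≠ 0) : x ≠ x + v := by
  intro h
  apply hv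
  have : x + (x + v) = 0 := by rw [← h]; exact aa x
  rw [aab] at this
  exact this

theorem add_ne {x v : X} (hv : v ≠ 0) : x + v ≠ x := fun h => ne_add hv h.symm

/-- a line with more than two points is `g'` -/
theorem EK.big {g : X} {g' : Y} (h : G.EK g g') {t : Y} (ht : G.T t) {v v' : X}
    (hv : v ≠ 0) (hv' : v' ≠ 0) (hvv : v ≠ v') (h1 : G.C v t) (h2 : G.C v' t) : t = g' := by
  by_contra htg
  have h3 : G.E g t := (h.t t ht).resolve_left htg
  exact hvv (by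
    have h4 := h.tn t (g + v) (g + v') h3 (h3.al h1) (h3.al h2) (add_ne hv) (add_ne hv')
    have h5 : g + (g + v) = g + (g + v') := by rw [h4]
    rw [aab, aab] at h5
    exact h5)

/-- points on `g'` are on two lines -/
theorem EK.small {g : X} {g' : Y} (h : G.EK g g') {x : X} (hx : G.E x g') {w w' : Y}
    (hw : w ≠ 0) (hw' : w' ≠ 0) (h1 : G.C x w) (h2 : G.C x w') : w = w' := by
  have h4 := h.sn x (g' + w) (g' + w') hx (hx.ar h1) (hx.ar h2) (add_ne hw) (add_ne hw')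
  have h5 : g' + (g' + w) = g' + (g' + w') := by rw [h4]
  rw [aab, aab] at h5
  exact h5

section fin
variable [Finite X] [Finite Y]

/-- section 6, the basic case -/
theorem Red.ek6 (hG : G.Red) {x : X} (hx : G.S x)
    (h : ∀ v, v ≠ 0 → G.S (x + v) → ∀ w, G.C x w → G.C v w → w = 0)
    {b : X} (hb : b ≠ 0) (hb' : G.S (x + b)) : ∃ g g', G.EK g g' := by
  apply hG.an _ hx hb' (ne_add hb)
  have key : ∀ s, s ≠ x → G.S s → ∀ w, G.C s w → G.C x w → w = 0 := by
    intro s hsx hs w h1 h2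
    refine h (x + s) (fun h3 => hsx (eo h3).symm) (by rw [aab]; exact hs) w h2 (h2.al h1)
  intro s s' y y' hne h1 h2 h3 h4
  apply eo
  have c1 := h1.C_r h3
  have c2 := h2.C_r h4
  by_cases hsx : s = x
  · subst hsx
    exact key s' (Ne.symm hne) h2.S _ c2 c1
  by_cases hsx' : s' = x
  · subst hsx'
    exact key s hne h1.S _ c1 c2
  obtain ⟨t, h5, h6⟩ := link hx h1.S
  obtain ⟨t', h7, h8⟩ := link hx h2.S
  by_cases htt : t = t'
  · subst htt
    -- purity of s + s'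
    have hv : G.C (s + s') t := h6.C_l h8
    have hv0 : s + s' ≠ 0 := fun h9 => hne (eo h9)
    have h9 : ∀ t1, G.T t1 → G.C (s + s') t1 → t1 = t := by
      intro t1 ht1 h10
      exact hG.pure h5 hv (h (s + s') hv0 (h5.al hv).S) ht1 h10
    exact pure_perp h6 hv h9 _ c1 (c1.al c2)
  · obtain ⟨r, h9, h10, h11⟩ := linkW (w := y + y') c1 c2 h6 h8
    by_cases hr : r = x
    · subst hr
      exact key s hsx h1.S _ c1 h9
    · exact absurd (eo (key r hr h10.S _ (h10.C_r h11) (h5.C_r h7))) htt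

/-- atoms at `x` -/
structure At (G : TG X Y Q) (x p : X) : Prop where
  ne : p ≠ 0
  S : G.S (x + p)
  mx : ∀ v, v ≠ 0 → G.S (x + v) → (∀ w, G.C x w → G.C p w → G.C v w) →
    ∀ w, G.C x w → G.C v w → G.C p w

theorem finQ {M : Type} [AddCommGroup M] [Module (ZMod 2) M] [Finite M]
    (W : Submodule (ZMod 2) M) : Finite (M ⧸ W) :=
  Finite.of_surjective _ (Submodule.Quotient.mk_surjective W)

/-- section 6 -/
theorem Red.ek (hG : G.Red) {x p : X} (hx : G.S x) (hp : G.At x p) :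
    ∃ g g', (G.up (G.dd x p)).EK g g' := by
  have hR := hG.dd hx hp.S
  have := finQ (G.dd x p)
  have hxW : x ∈ G.xc (G.dd x p) := fun w hw => (mem_dd.1 hw).1
  have hpW : p ∈ G.xc (G.dd x p) := fun w hw => (mem_dd.1 hw).2
  refine hR.ek6 (x := ⟨x, hxW⟩) (up_S.2 hx) ?_ (b := ⟨p, hpW⟩) ?_ (up_S.2 hp.S)
  · rintro ⟨v, hvW⟩ hv0 hv w h1 h2
    obtain ⟨w, rfl⟩ := Submodule.Quotient.mk_surjective _ w
    rw [Submodule.Quotient.mk_eq_zero]
    have hv0' : v ≠ 0 := fun h => hv0 (Subtype.ext h)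
    have h3 : G.S (x + v) := up_S.1 hv
    have h4 := hp.mx v hv0' h3 (fun w hw hpw => hvW w (mem_dd.2 ⟨hw, hpw⟩)) w h1 h2
    exact mem_dd.2 ⟨h1, h4⟩
  · intro h
    exact hp.ne (congrArg Subtype.val h)

end fin

/-- an element with the same perp as an atom is an atom -/
theorem At.of_le {x p v : X} (hp : G.At x p) (hv0 : v ≠ 0) (hv : G.S (x + v))
    (h : ∀ w, G.C x w → G.C p w → G.C v w) : G.At x v where
  ne := hv0
  S := hv
  mx := by
    intro v' hv0' hv' h1 w hw hw'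
    exact h w hw (hp.mx v' hv0' hv' (fun w hw hw' => h1 w hw (h w hw hw')) w hw hw')

/-- atoms can be moved into `X_y` -/
theorem Red.at_y (hG : G.Red) {x p : X} (hp : G.At x p) {y : Y} (hy : G.E x y) :
    ∃ v, G.At x v ∧ G.C v y ∧ ∀ w, G.C x w → (G.C p w ↔ G.C v w) := by
  obtain ⟨v, hv0, h1, h2⟩ := hG.meet (W := G.dd x p) (x := x) (fun w hw => (mem_dd.1 hw).1)
    hp.S (add_ne hp.ne) (fun w hw => (mem_dd.1 hw).1.al (mem_dd.1 hw).2) hy
  have h3 : ∀ w, G.C x w → G.C p w → G.C v w := fun w hw hw' => h1 w (mem_dd.2 ⟨hw, hw'⟩)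
  have h4 : G.S (x + v) := (hy.al h2).S
  exact ⟨v, hp.of_le hv0 h4 h3, h2, fun w hw =>
    ⟨h3 w hw, hp.mx v hv0 h4 h3 w hw⟩⟩

/-- atoms exist above every vector -/
theorem exists_at [Finite X] [Finite Y] {x v : X} (hv0 : v ≠ 0) (hv : G.S (x + v)) :
    ∃ p, G.At x p ∧ ∀ w, G.C x w → G.C v w → G.C p w := by
  classical
  have hfin : {W : Submodule (ZMod 2) Y | ∃ p, p ≠ 0 ∧ G.S (x + p) ∧ W = G.dd x p ∧
      G.dd x v ≤ G.dd x p}.Finite := Set.toFinite _
  have hne : {W : Submodule (ZMod 2) Y | ∃ p, p ≠ 0 ∧ G.S (x + p) ∧ W = G.dd x p ∧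
      G.dd x v ≤ G.dd x p}.Nonempty := ⟨_, v, hv0, hv, rfl, le_refl _⟩
  obtain ⟨W, ⟨⟨p, hp0, hp, rfl, hvp⟩, hmax⟩⟩ := hfin.exists_maximal hne
  refine ⟨p, ⟨hp0, hp, ?_⟩, fun w hw hw' => (mem_dd.1 (hvp (mem_dd.2 ⟨hw, hw'⟩))).2⟩
  intro v' hv0' hv' h1 w hw hw'
  have h2 : G.dd x p ≤ G.dd x v' := fun w hw =>
    mem_dd.2 ⟨(mem_dd.1 hw).1, h1 w (mem_dd.1 hw).1 (mem_dd.1 hw).2⟩
  have h3 : G.dd x v' ≤ G.dd x p := hmax ⟨v', hv0', hv', rfl, hvp.trans h2⟩ h2
  exact (mem_dd.1 (h3 (mem_dd.2 ⟨hw, hw'⟩))).2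

end TG

end Pool.Agent.PGE
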