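import Pool.Agent.PGE.S6

/-!
Two-sided P-geometries (note 2448 of helper28), section 7.
-/

set_option autoImplicit false
set_option linter.unusedSectionVars false
set_option linter.unusedSimpArgs false
set_option linter.unnecessarySeqFocus false

namespace Pool.Agent.PGE

namespace TG

variable {X Y Q : Type} [AddCommGroup X] [Module (ZMod 2) X] [AddCommGroup Y]
  [Module (ZMod 2) Y] {G : TG X Y Q}

/-- nonpure vectors of `X_y` -/
def NP (G : TG X Y Q) (y : Y) (u : X) : Prop := G.C u y ∧ ∃ t, G.T t ∧ t ≠ y ∧ G.C u t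

/-- `Z_u` -/
def zu (G : TG X Y Q) (u : X) : Submodule (ZMod 2) X := G.swap.ca (fun t => G.T t ∧ G.C u t)

theorem mem_zu {u a : X} : a ∈ G.zu u ↔ ∀ t, G.T t → G.C u t → G.C a t :=
  ⟨fun h t ht hut => h t ⟨ht, hut⟩, fun h t ht => h t ht.1 ht.2⟩

/-- the context of section 7 -/
structure Ctx7 (G : TG X Y Q) (y : Y) (v : X) : Prop where
  red : G.Red
  ty : G.T y
  cv : G.C v y
  v0 : v ≠ 0
  pu : ∀ t, G.T t → G.C v t → t = y
  ns : ∀ u u', G.NP y u → G.NP y u' → v ≠ u + u'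
  ek : ∀ u, u ≠ 0 → G.NP y u → ∃ g g', (G.down (G.zu u)).EK g g'

variable {y : Y} {v : X}

theorem Red.zu (hG : G.Red) {u : X} (hy : G.T y) (hu : G.C u y) : (G.down (G.zu u)).Red := by
  have h := hG.swap.ca (A := fun t => G.T t ∧ G.C u t) (fun _ ha => ha.1) ⟨y, hy, hu⟩
  exact h.swap

theorem zu_y {u : X} (hy : G.T y) (hu : G.C u y) : y ∈ G.yc (G.zu u) :=
  fun a ha => mem_zu.1 ha y hy hu

/-- F2 -/
theorem Ctx7.f2 (h : Ctx7 G y v) {u : X} (hu0 : u ≠ 0) (hu : G.C u y) {t : Y} (ht : G.T t)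
    (hty : t ≠ y) (hut : G.C u t) {a : X} (ha : G.C a y) (hat : G.C a t) : a ∈ G.zu u := by
  obtain ⟨g, g', hE⟩ := h.ek u hu0 ⟨hu, t, ht, hty, hut⟩
  have h1 := hE.par (t := ⟨t, zu_y ht hut⟩) (t' := ⟨y, zu_y h.ty hu⟩) (down_T.2 ht)
    (down_T.2 h.ty) (fun h2 => hty (congrArg Subtype.val h2))
    (a := Submodule.Quotient.mk a) hat ha
  exact (Submodule.Quotient.mk_eq_zero _).1 h1

theorem zu_y' {u a : X} (hy : G.T y) (hu : G.C u y) (ha : a ∈ G.zu u) : G.C a y :=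
  mem_zu.1 ha y hy hu

theorem Ctx7.np0 (h : Ctx7 G y v) {u : X} (hu : G.NP y u) {a : X} (ha : a ∈ G.zu u) :
    G.NP y a := by
  obtain ⟨h1, t, h2, h3, h4⟩ := hu
  exact ⟨zu_y' h.ty h1 ha, t, h2, h3, mem_zu.1 ha t h2 h4⟩

theorem Ctx7.sym (h : Ctx7 G y v) {u a : X} (hu : G.NP y u) (ha0 : a ≠ 0)
    (ha : a ∈ G.zu u) : u ∈ G.zu a := by
  have h5 := h.np0 hu ha
  obtain ⟨h1, t, h2, h3, h4⟩ := hu
  exact h.f2 ha0 h5.1 h2 h3 (mem_zu.1 ha t h2 h4) h1 h4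

/-- the perp of a nonpure vector in `Y_x` -/
theorem Ctx7.w_of_np (h : Ctx7 G y v) {u : X} (hu : G.NP y u) {x : X} (hx : G.E x y) :
    ∃ w, w ≠ 0 ∧ G.C x w ∧ G.C u w := by
  by_contra hcon
  push Not at hcon
  obtain ⟨h1, t, h2, h3, h4⟩ := hu
  apply h3
  refine h.red.pure hx h1 (fun w hw huw => ?_) h2 h4
  by_contra h5
  exact hcon w h5 hw huw

/-- vectors with a perp are nonpure -/
theorem np_of_w {u : X} (hu : G.C u y) {x : X} (hx : G.E x y) {w : Y} (hw0 : w ≠ 0)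
    (hw : G.C x w) (huw : G.C u w) : G.NP y u :=
  ⟨hu, y + w, (hx.ar hw).T, fun h => hw0 (by
    have : y + (y + w) = 0 := by rw [h]; exact aa y
    rw [aab] at this
    exact this), hu.ar huw⟩

/-- case 0 : all nonpure vectors are zero -/
theorem Ctx7.case0 [Finite X] [Finite Y] (h : Ctx7 G y v) (h0 : ∀ u, G.NP y u → u = 0) :
    ∃ g g', G.EK g g' := by
  -- a second line
  have h1 : ∃ t, G.T t ∧ t ≠ y := by
    by_contra hcon
    push Not at hcon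
    apply h.v0
    apply h.red.rS
    intro x hx
    obtain ⟨t, ht⟩ := hx
    have h2 := hcon t ht.T
    rw [h2] at ht
    exact (ht.al h.cv).S
  obtain ⟨t, ht, hty⟩ := h1
  obtain ⟨g', g, hE⟩ := h.red.swap.ek6 (x := y) h.ty (fun w hw0 hw u hu huw => h0 u
    ⟨hu, y + w, hw, fun h2 => hw0 (by
      have : y + (y + w) = 0 := by rw [h2]; exact aa y
      rw [aab] at this
      exact this), C.ar (G := G) hu huw⟩) (b := y + t) (fun h2 => hty (eo h2).symm) (by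
      rw [aab]; exact ht)
  exact ⟨g, g', hE.swap⟩

section ii

/-- in case (ii) `y` is the big line of `G_{Z_u}` -/
theorem Ctx7.big (h : Ctx7 G y v) {u u' : X} (hu0 : u ≠ 0) (hu : G.NP y u)
    (hu' : G.NP y u') (hn : u' ∉ G.zu u) :
    ∃ g, (G.down (G.zu u)).EK (Submodule.Quotient.mk g) ⟨y, zu_y h.ty hu.1⟩ := by
  obtain ⟨g, g', hE⟩ := h.ek u hu0 hu
  obtain ⟨g, rfl⟩ := Submodule.Quotient.mk_surjective _ g
  refine ⟨g, ?_⟩
  have h1 : (⟨y, zu_y h.ty hu.1⟩ : G.yc (G.zu u)) = g' := by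
    apply hE.big (down_T.2 h.ty) (v := Submodule.Quotient.mk v) (v' := Submodule.Quotient.mk u')
    · intro h2
      have h3 := (Submodule.Quotient.mk_eq_zero _).1 h2
      have h4 := h.np0 hu h3
      obtain ⟨-, t, h5, h6, h7⟩ := h4
      exact h6 (h.pu t h5 h7)
    · intro h2
      exact hn ((Submodule.Quotient.mk_eq_zero _).1 h2)
    · intro h2
      have h3 : v + u' ∈ G.zu u := by
        have h4 := (Submodule.Quotient.eq _).1 h2
        have h5 : v - u' = v + u' := by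
          rw [sub_eq_iff_eq_add]; exact (eo (by abel_nf <;> simp only [ch2, ch3, ch4, ch5, ch6, add_zero, zero_add]))
        rwa [h5] at h4
      exact h.ns (v + u') u' (h.np0 hu h3) hu' (eo (by abel_nf <;> simp only [ch2, ch3, ch4, ch5, ch6, add_zero, zero_add]))
    · exact h.cv
    · exact hu'.1
  rw [h1]
  exact hE

/-- lemma (iia) -/
theorem Ctx7.iia (h : Ctx7 G y v)
    (hii : ∀ u, u ≠ 0 → G.NP y u → ∃ u', G.NP y u' ∧ u' ∉ G.zu u) {x : X} (hx : G.E x y)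
    {e : X} (he0 : e ≠ 0) (he : G.S (x + e)) {w w' : Y} (hw0 : w ≠ 0) (hw0' : w' ≠ 0)
    (hw : G.C x w) (hw' : G.C x w') (hew : G.C e w) (hew' : G.C e w') : w = w' := by
  obtain ⟨p, hp0, h1, h2⟩ := h.red.meet (W := G.dd x e) (x := x)
    (fun w hw => (mem_dd.1 hw).1) he (add_ne he0)
    (fun w hw => (mem_dd.1 hw).1.al (mem_dd.1 hw).2) hx
  have c1 : G.C p w := h1 w (mem_dd.2 ⟨hw, hew⟩)
  have c2 : G.C p w' := h1 w' (mem_dd.2 ⟨hw', hew'⟩)
  have hnp := np_of_w h2 hx hw0 hw c1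
  obtain ⟨u', hu', hn⟩ := hii p hp0 hnp
  obtain ⟨g, hE⟩ := h.big hp0 hnp hu' hn
  have key : ∀ w, G.C x w → G.C p w → w ∈ G.yc (G.zu p) := by
    intro w hw hpw a ha
    have h3 := mem_zu.1 ha (y + w) (hx.ar hw).T (h2.ar hpw)
    have h4 := (zu_y' h.ty h2 ha).ar h3
    exact h4.eq rfl (aab y w)
  have h5 := hE.small (x := Submodule.Quotient.mk x) (w := ⟨w, key w hw c1⟩)
    (w' := ⟨w', key w' hw' c2⟩) hx (fun h6 => hw0 (congrArg Subtype.val h6))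
    (fun h6 => hw0' (congrArg Subtype.val h6)) hw hw'
  exact congrArg Subtype.val h5

/-- facts on `G_{Z_u} = E_k` -/
theorem Ctx7.gfact (h : Ctx7 G y v) {u g : X} (hu : G.NP y u)
    (hE : (G.down (G.zu u)).EK (Submodule.Quotient.mk g) ⟨y, zu_y h.ty hu.1⟩) :
    (∀ t, G.T t → t ≠ y → G.C u t → G.E g t) ∧
    (∀ r t, G.E r t → t ≠ y → G.C u t → r + g ∈ G.zu u ∨ G.E r y) ∧ ¬ G.E g y := by
  refine ⟨fun t ht hty hut => ?_, fun r t hr hty hut => ?_, fun h1 => hE.ne h1⟩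
  · rcases hE.t ⟨t, zu_y ht hut⟩ (down_T.2 ht) with h1 | h1
    · exact absurd (congrArg Subtype.val h1) hty
    · exact h1
  · have h1 : (G.down (G.zu u)).E (Submodule.Quotient.mk r) ⟨t, zu_y hr.T hut⟩ := hr
    rcases hE.s _ h1.S with h2 | h2
    · left
      have h4 := (Submodule.Quotient.eq _).1 h2
      have h5 : r - g = r + g := by
        rw [sub_eq_iff_eq_add]; exact (eo (by abel_nf <;> simp only [ch2, ch3, ch4, ch5, ch6, add_zero, zero_add]))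
      rwa [h5] at h4
    · exact Or.inr h2

/-- case (ii) -/
theorem Ctx7.case2 (h : Ctx7 G y v) {u1 u2 : X} (h10 : u1 ≠ 0) (h20 : u2 ≠ 0)
    (h1 : G.NP y u1) (h2 : G.NP y u2) (h12 : u2 ∉ G.zu u1) : False := by
  have hii : ∀ u, u ≠ 0 → G.NP y u → ∃ u', G.NP y u' ∧ u' ∉ G.zu u := by
    intro u hu0 hu
    by_cases h3 : u1 ∈ G.zu u
    · refine ⟨u2, h2, fun h4 => h12 ?_⟩
      obtain ⟨-, t, h5, h6, h7⟩ := hu
      exact h.f2 h10 h1.1 h5 h6 (mem_zu.1 h3 t h5 h7) h2.1 (mem_zu.1 h4 t h5 h7)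
    · exact ⟨u1, h1, h3⟩
  obtain ⟨g1, hE1⟩ := h.big h10 h1 h2 h12
  have h21 : u1 ∉ G.zu u2 := fun h3 => h12 (h.sym h2 h10 h3)
  obtain ⟨g2, hE2⟩ := h.big h20 h2 h1 h21
  obtain ⟨a1, a2, a3⟩ := h.gfact h1 hE1
  obtain ⟨b1, b2, b3⟩ := h.gfact h2 hE2
  obtain ⟨x, hx⟩ := h.ty
  have hxv : G.E (x + v) y := hx.al h.cv
  have ht : ∀ u, G.NP y u → ∀ s, G.E s y → ∃ t, G.E s t ∧ t ≠ y ∧ G.C u t := by
    intro u hu s hs
    obtain ⟨w, hw0, hw, huw⟩ := h.w_of_np hu hs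
    exact ⟨y + w, hs.ar hw, add_ne hw0, hu.1.ar huw⟩
  obtain ⟨t1, c1, c2, c3⟩ := ht u1 h1 _ hxv
  obtain ⟨t2, d1, d2, d3⟩ := ht u2 h2 _ hx
  obtain ⟨g, e1, e2⟩ := linkT c1.T d1.T
  have hgy : ¬ G.E g y := by
    intro h3
    have f1 : g + (x + v) ∈ G.zu u1 :=
      h.f2 h10 h1.1 c1.T c2 c3 (h3.C_l hxv) (e1.C_l c1)
    have f2 : g + x ∈ G.zu u2 := h.f2 h20 h2.1 d1.T d2 d3 (h3.C_l hx) (e2.C_l d1)
    exact h.ns _ _ (h.np0 h1 f1) (h.np0 h2 f2) (eo (by abel_nf <;> simp only [ch2, ch3, ch4, ch5, ch6, add_zero, zero_add]))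
  have f1 : g + g1 ∈ G.zu u1 := (a2 g t1 e1 c2 c3).resolve_right hgy
  have f2 : g + g2 ∈ G.zu u2 := (b2 g t2 e2 d2 d3).resolve_right hgy
  have g1' : ∀ t, G.T t → t ≠ y → G.C u1 t → G.E g t := by
    intro t ht hty hut
    have := (a1 t ht hty hut).al (mem_zu.1 f1 t ht hut)
    exact this.eq (eo (by abel_nf <;> simp only [ch2, ch3, ch4, ch5, ch6, add_zero, zero_add])) rfl
  have g2' : ∀ t, G.T t → t ≠ y → G.C u2 t → G.E g t := by
    intro t ht hty hut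
    have := (b1 t ht hty hut).al (mem_zu.1 f2 t ht hut)
    exact this.eq (eo (by abel_nf <;> simp only [ch2, ch3, ch4, ch5, ch6, add_zero, zero_add])) rfl
  -- not both
  have nb : ∀ t, G.T t → t ≠ y → G.C u1 t → G.C u2 t → False := fun t ht hty k1 k2 =>
    h12 (h.f2 h10 h1.1 ht hty k1 h2.1 k2)
  -- each line through g is of type 1 or 2
  have p12 : ∀ t, G.E g t → G.C u1 t ∨ G.C u2 t := by
    intro t hgt
    obtain ⟨s, k1, k2⟩ := linkT hgt.T hx.T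
    obtain ⟨s1, m1, m2, m3⟩ := ht u1 h1 s k2
    obtain ⟨s2, n1, n2, n3⟩ := ht u2 h2 s k2
    have m4 := g1' s1 m1.T m2 m3
    have n4 := g2' s2 n1.T n2 n3
    by_cases hts : t = s1
    · left; rw [hts]; exact m3
    right
    have h3 : s ≠ g := by rintro rfl; exact hgy k2
    have h4 := h.iia hii k2 (e := s + g) (fun h5 => h3 (eo h5)) (by rw [aab]; exact hgt.S)
      (w := t + s1) (w' := s2 + s1) (fun h5 => hts (eo h5))
      (fun h5 => nb s1 m1.T m2 m3 (by rw [← eo h5]; exact n3)) (k1.C_r m1) (n1.C_r m1)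
      ((k1.C_r m1).al (hgt.C_r m4)) ((n1.C_r m1).al (n4.C_r m4))
    have h5 : t = s2 := by
      have h6 : t + s1 + s1 = s2 + s1 + s1 := by rw [h4]
      rw [add_assoc, aa, add_zero, add_assoc, aa, add_zero] at h6
      exact h6
    rw [h5]; exact n3
  -- t1 = t_1(x + v), t2 = t_2(x)
  obtain ⟨tx, k1, k2, k3⟩ := ht u1 h1 x hx
  have gt1 := g1' t1 c1.T c2 c3
  have gtx := g1' tx k1.T k2 k3
  have gt2 := g2' t2 d1.T d2 d3
  -- t' = t2 + (t1 + tx)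
  have gt' : G.E g (t2 + (t1 + tx)) := gt2.ar (gt1.C_r gtx)
  have hnp : ∀ t, G.E g t → t ≠ y := by
    rintro t h3 rfl
    exact hgy h3
  have m1 : G.C u2 (t2 + (t1 + tx)) := by
    rcases p12 _ gt' with h3 | h3
    · exfalso
      have h4 : G.C u1 t2 := (h3.ar (c3.ar k3)).eq rfl (eo (by abel_nf <;> simp only [ch2, ch3, ch4, ch5, ch6, add_zero, zero_add]))
      exact nb t2 d1.T d2 h4 d3
    · exact h3
  -- t3 = y + tx + t2
  have ht3 : G.E x (y + (tx + t2)) := hx.ar (k1.C_r d1)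
  obtain ⟨r, n1, n2, n3⟩ := planeT (y := y) (v := y + t1) (v' := y + (t2 + (t1 + tx))) hx.T
    (by rw [aab]; exact c1.T) (by rw [aab]; exact gt'.T) (by
      have : y + (y + t1 + (y + (t2 + (t1 + tx)))) = y + (tx + t2) := (eo (by abel_nf <;> simp only [ch2, ch3, ch4, ch5, ch6, add_zero, zero_add]))
      rw [this]; exact ht3.T)
  have n4 : G.E r t1 := (n1.ar n2).eq rfl (aab _ _)
  have n5 : G.E r (y + (tx + t2)) := (n1.ar (n2.ar n3)).eq rfl (eo (by abel_nf <;> simp only [ch2, ch3, ch4, ch5, ch6, add_zero, zero_add]))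
  have f1 : r + (x + v) ∈ G.zu u1 := h.f2 h10 h1.1 c1.T c2 c3 (n1.C_l hxv) (n4.C_l c1)
  have f2 : G.NP y (r + x) := ⟨n1.C_l hx, y + (tx + t2), ht3.T, (by
    apply add_ne
    intro h3
    have := eo h3
    subst this
    exact nb tx k1.T k2 k3 d3), n5.C_l ht3⟩
  exact h.ns _ _ (h.np0 h1 f1) f2 (eo (by abel_nf <;> simp only [ch2, ch3, ch4, ch5, ch6, add_zero, zero_add]))

end ii

end TG

end Pool.Agent.PGE
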