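import Pool.Agent.PGE.S7

/-!
Two-sided P-geometries (note 2448 of helper28), section 7, case (i), and section 8.
-/

set_option autoImplicit false
set_option linter.unusedSectionVars false
set_option linter.unusedSimpArgs false
set_option linter.unnecessarySeqFocus false

namespace Pool.Agent.PGE

namespace TG

section card
variable {M : Type} [AddCommGroup M] [Module (ZMod 2) M]

theorem card_pow [Finite M] (W : Submodule (ZMod 2) M) : ∃ n, Nat.card W = 2 ^ n := by
  have h := Module.natCard_eq_pow_finrank (K := ZMod 2) (V := W)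
  rw [Nat.card_eq_fintype_card (α := ZMod 2), ZMod.card] at h
  exact ⟨_, h⟩

/-- the number of elements of a coset -/
theorem card_coset [Fintype M] (W : Submodule (ZMod 2) M) (a : M) (P : M → Prop)
    [DecidablePred P] (h : ∀ b, P b ↔ a + b ∈ W) :
    (Finset.univ.filter P).card = Nat.card W := by
  rw [← Fintype.card_subtype, ← Nat.card_eq_fintype_card]
  refine Nat.card_congr ⟨fun b => ⟨a + b.1, (h b.1).1 b.2⟩, fun w => ⟨a + w.1, (h _).2 (by
    rw [aab]; exact w.2)⟩, fun b => ?_, fun w => ?_⟩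
  · exact Subtype.ext (aab a b.1)
  · exact Subtype.ext (aab a w.1)

theorem arith {a b c m : ℕ} (hc : 1 ≤ c) (hb : b < m)
    (h : 2 ^ a = 2 ^ b * 2 ^ c + (2 ^ m - 2 ^ b)) : False := by
  obtain ⟨c, rfl⟩ := Nat.exists_eq_add_of_le hc
  obtain ⟨d, rfl⟩ := Nat.exists_eq_add_of_lt hb
  have h1 : 2 ^ (b + d + 1) - 2 ^ b = 2 ^ b * (2 * 2 ^ d - 1) := by
    rw [Nat.mul_sub, mul_one, pow_succ, pow_add]
    ring_nf
  rw [h1, ← mul_add] at h
  have hd : 0 < 2 ^ d := by positivity
  have hcc : 0 < 2 ^ c := by positivity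
  have hcc' : 0 < 2 ^ (1 + c) := by positivity
  have hab : b ≤ a := by
    by_contra hcon
    push Not at hcon
    have h2 : 2 ^ a < 2 ^ b := Nat.pow_lt_pow_right (by norm_num) hcon
    have h3 : 2 ^ b * 1 ≤ 2 ^ b * (2 ^ (1 + c) + (2 * 2 ^ d - 1)) :=
      Nat.mul_le_mul_left _ (by omega)
    omega
  obtain ⟨k, rfl⟩ := Nat.exists_eq_add_of_le hab
  rw [pow_add] at h
  have h4 := Nat.eq_of_mul_eq_mul_left (by positivity) h
  rw [pow_add, pow_one] at h4
  rcases k with _ | k
  · rw [pow_zero] at h4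
    omega
  · rw [pow_succ] at h4
    omega

end card

variable {X Y Q : Type} [AddCommGroup X] [Module (ZMod 2) X] [AddCommGroup Y]
  [Module (ZMod 2) Y] {G : TG X Y Q}

variable {y : Y} {v : X}

/-- case (i) -/
theorem Ctx7.case1 [Finite X] [Finite Y] (h : Ctx7 G y v) {u : X} (hu0 : u ≠ 0)
    (hu : G.NP y u) (h1 : ∀ a, a ≠ 0 → G.NP y a → a ∈ G.zu u) : False := by
  classical
  have := Fintype.ofFinite X
  have := Fintype.ofFinite Y
  have hZ : ∀ a, a ∈ G.zu u ↔ G.NP y a := by
    intro a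
    refine ⟨fun ha => h.np0 hu ha, fun ha => ?_⟩
    by_cases ha0 : a = 0
    · rw [ha0]; exact Submodule.zero_mem _
    · exact h1 a ha0 ha
  obtain ⟨x, hx⟩ := h.ty
  -- the perp of `Z`
  have hW : ∀ a, a ≠ 0 → G.NP y a → ∀ w, G.C x w → (G.C a w ↔ G.C u w) := by
    intro a ha0 ha w hw
    have k1 := (hZ a).2 ha
    have k2 := h.sym hu ha0 k1
    constructor
    · intro k3
      have k4 := mem_zu.1 k2 (y + w) (hx.ar hw).T (ha.1.ar k3)
      exact (hu.1.ar k4).eq rfl (aab y w)
    · intro k3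
      have k4 := mem_zu.1 k1 (y + w) (hx.ar hw).T (hu.1.ar k3)
      exact (ha.1.ar k4).eq rfl (aab y w)
  obtain ⟨w1, hw10, hw1, huw1⟩ := h.w_of_np hu hx
  obtain ⟨w2, hw2, huw2⟩ := h.red.perp_ne hu0 hx hu.1
  have hz : G.E x (y + w2) := hx.ar hw2
  have hu' : G.S (x + u) := (hx.al hu.1).S
  obtain ⟨e, he0, he1, he2⟩ := h.red.meet (W := G.dd x u) (x := x)
    (fun w hw => (mem_dd.1 hw).1) hu' (add_ne hu0)
    (fun w hw => (mem_dd.1 hw).1.al (mem_dd.1 hw).2) hz
  have he1' : ∀ w, G.C x w → G.C u w → G.C e w := fun w k1 k2 => he1 w (mem_dd.2 ⟨k1, k2⟩)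
  -- e is not in X_y
  have hey : ¬ G.C e y := by
    intro k1
    have k2 : G.C e w2 := (k1.ar he2).eq rfl (aab y w2)
    have k3 : G.NP y e := np_of_w k1 hx hw10 hw1 (he1' w1 hw1 huw1)
    exact huw2 ((hW e he0 k3 w2 hw2).1 k2)
  -- X_y ∩ X_z = 0
  have hyz : ∀ a, G.C a y → G.C a (y + w2) → a = 0 := by
    intro a k1 k2
    by_contra ha0
    have k3 : G.C a w2 := (k1.ar k2).eq rfl (aab y w2)
    have k4 : G.NP y a := ⟨k1, y + w2, hz.T, add_ne (by
      rintro rfl
      exact huw2 (C.zr u)), k2⟩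
    exact huw2 ((hW a ha0 k4 w2 hw2).1 k3)
  -- u is an atom
  have hat : G.At x u := by
    refine ⟨hu0, hu', ?_⟩
    intro v' hv0' hv' k1 w hw hw'
    by_cases hw0 : w = 0
    · rw [hw0]; exact C.zr u
    obtain ⟨p, hp0, hp1, hp2⟩ := h.red.meet (W := G.dd x v') (x := x)
      (fun w hw => (mem_dd.1 hw).1) hv' (add_ne hv0')
      (fun w hw => (mem_dd.1 hw).1.al (mem_dd.1 hw).2) hx
    have k2 : G.C p w := hp1 w (mem_dd.2 ⟨hw, hw'⟩)
    exact (hW p hp0 (np_of_w hp2 hx hw0 hw k2) w hw).1 k2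
  obtain ⟨g, g', hE⟩ := h.red.ek hx.S hat
  have hs' : G.E (x + e) (y + w2) := hz.al he2
  -- lines through s' = x + e
  have hty : ∀ t, G.E (x + e) t → t ≠ y := by
    rintro t k1 rfl
    exact hey ((hx.C_l k1).eq (aab x e) rfl)
  have hpar : ∀ t, G.E (x + e) t → ∀ a, G.C a y → G.C a t → a = 0 := by
    intro t k1 a k2 k3
    by_contra ha0
    have k4 : G.NP y a := ⟨k2, t, k1.T, hty t k1, k3⟩
    have k5 : u ∈ G.zu a := h.sym hu ha0 ((hZ a).2 k4)
    have k6 : G.C u t := mem_zu.1 k5 t k1.T k3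
    obtain ⟨y1, k7, k8, k9⟩ := (S2_iff hx.S hs'.S hu').1
      ((k1.al k6).eq (add_assoc x e u) rfl).S
    have k10 : G.C x (y + y1) := hx.C_r k7
    have k11 : G.C u (y + y1) := hu.1.ar k9
    have k12 : G.C e (y + y1) := he1' _ k10 k11
    exact hey ((k8.ar k12).eq rfl (eo (by abel_nf <;> simp only [ch2, ch3, ch4, ch5, ch6, add_zero, zero_add])))
  -- the point on y
  have hf : ∀ t, ∃ x', G.E (x + e) t → G.E x' y ∧ G.E x' t := by
    intro t
    by_cases k : G.E (x + e) t
    · obtain ⟨x', k1, k2⟩ := linkT hx.T k.T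
      exact ⟨x', fun _ => ⟨k1, k2⟩⟩
    · exact ⟨0, fun k1 => absurd k1 k⟩
  choose f hf using hf
  -- count
  have c0 : (Finset.univ.filter (fun t => G.E (x + e) t)).card = Nat.card (G.yx (x + e)) := by
    apply card_coset (G.yx (x + e)) (y + w2)
    intro b
    constructor
    · intro k; exact hs'.C_r k
    · intro k
      have k1 := hs'.ar k
      exact k1.eq rfl (aab _ _)
  have c1 := Finset.card_eq_sum_card_fiberwise (f := f)
    (s := Finset.univ.filter (fun t => G.E (x + e) t))
    (t := Finset.univ.filter (fun x' => G.E x' y)) (by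
      intro t ht
      rw [Finset.mem_coe, Finset.mem_filter] at ht ⊢
      exact ⟨Finset.mem_univ _, (hf t ht.2).1⟩)
  have c2 : ∀ x' ∈ Finset.univ.filter (fun x' => G.E x' y),
      ((Finset.univ.filter (fun t => G.E (x + e) t)).filter (fun t => f t = x')).card =
        if x + x' ∈ G.zu u then Nat.card (G.dd x u) else 1 := by
    intro x' hx'
    rw [Finset.mem_filter] at hx'
    have hx' := hx'.2
    have k0 : (Finset.univ.filter (fun t => G.E (x + e) t)).filter (fun t => f t = x') =
        Finset.univ.filter (fun t => G.E (x + e) t ∧ G.E x' t) := by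
      ext t
      simp only [Finset.mem_filter, Finset.mem_univ, true_and]
      constructor
      · rintro ⟨k1, k2⟩
        refine ⟨k1, ?_⟩
        rw [← k2]; exact (hf t k1).2
      · rintro ⟨k1, k2⟩
        refine ⟨k1, ?_⟩
        have k3 := hf t k1
        exact eo (hpar t k1 _ (k3.1.C_l hx') (k3.2.C_l k2))
    rw [k0]
    obtain ⟨t0, k1, k2⟩ := link hs'.S hx'.S
    split_ifs with k3
    · -- coset of W1
      apply card_coset (G.dd x u) t0
      intro b
      have k3' := (hZ _).1 k3
      constructor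
      · rintro ⟨k4, k5⟩
        -- uniqueness in E_k
        have m1 : x + e ∈ G.xc (G.dd x u) := fun w hw =>
          (mem_dd.1 hw).1.al (he1' w (mem_dd.1 hw).1 (mem_dd.1 hw).2)
        have m2 : ∀ w, G.C x w → G.C u w → G.C x' w := by
          intro w k6 k7
          by_cases k8 : x + x' = 0
          · rw [← eo k8]; exact k6
          · have k9 := (hW _ k8 k3' w k6).2 k7
            exact (k6.al k9).eq (aab x x') rfl
        have m2' : x' ∈ G.xc (G.dd x u) := fun w hw => m2 w (mem_dd.1 hw).1 (mem_dd.1 hw).2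
        have m3 := hE.uniq (s := ⟨x + e, m1⟩) (s' := ⟨x', m2'⟩)
          (t := Submodule.Quotient.mk t0) (t' := Submodule.Quotient.mk b) (by
            intro k6
            have k7 : x + e = x' := congrArg Subtype.val k6
            apply hey
            have k8 := hx.C_l hx'
            rw [← k7] at k8
            exact k8.eq (aab x e) rfl) k1 k2 k4 k5
        have m4 := (Submodule.Quotient.eq _).1 m3
        have m5 : t0 - b = t0 + b := by
          rw [sub_eq_iff_eq_add]; exact (eo (by abel_nf <;> simp only [ch2, ch3, ch4, ch5, ch6, add_zero, zero_add]))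
        rwa [m5] at m4
      · intro k4
        obtain ⟨k5, k6⟩ := mem_dd.1 k4
        have k7 : G.C e (t0 + b) := he1' _ k5 k6
        have k8 : G.C x' (t0 + b) := by
          by_cases k8 : x + x' = 0
          · rw [← eo k8]; exact k5
          · have k9 := (hW _ k8 k3' _ k5).2 k6
            exact (k5.al k9).eq (aab x x') rfl
        exact ⟨(k1.ar (k5.al k7)).eq rfl (aab _ _), (k2.ar k8).eq rfl (aab _ _)⟩
    · rw [Finset.card_eq_one]
      refine ⟨t0, ?_⟩
      ext t
      simp only [Finset.mem_filter, Finset.mem_univ, true_and, Finset.mem_singleton]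
      constructor
      · rintro ⟨k4, k5⟩
        by_contra htt
        obtain ⟨r, k6, k7, k8⟩ := linkW (w := t + t0) (k5.C_r k2) (k4.C_r k1) hx' hs'
        have k9 : r = x := by
          have k10 := hyz (r + x) (k7.C_l hx) (k8.C_l hz)
          exact eo k10
        rw [k9] at k6
        have k10 : G.C (x + x') (t + t0) := k6.al (k5.C_r k2)
        exact k3 ((hZ _).2 (np_of_w (hx.C_l hx') hx (fun k11 => htt (eo k11)) k6 k10))
      · rintro rfl
        exact ⟨k1, k2⟩
  rw [Finset.sum_congr rfl c2, c0, Finset.sum_ite, Finset.sum_const, Finset.sum_const,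
    smul_eq_mul, smul_eq_mul, mul_one] at c1
  have c3 : ((Finset.univ.filter (fun x' => G.E x' y)).filter
      (fun x' => x + x' ∈ G.zu u)).card = Nat.card (G.zu u) := by
    rw [Finset.filter_filter]
    apply card_coset (G.zu u) x
    intro b
    constructor
    · rintro ⟨-, k⟩; exact k
    · intro k
      exact ⟨(hx.al ((hZ _).1 k).1).eq (aab x b) rfl, k⟩
  have c4 : (Finset.univ.filter (fun x' => G.E x' y)).card = Nat.card (G.xy y) := by
    apply card_coset (G.xy y) x
    intro b
    constructor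
    · intro k; exact hx.C_l k
    · intro k; exact (hx.al k).eq (aab x b) rfl
  have c5 := Finset.card_filter_add_card_filter_not
    (s := Finset.univ.filter (fun x' => G.E x' y)) (p := fun x' => x + x' ∈ G.zu u)
  rw [c3, c4] at c5
  rw [c3] at c1
  obtain ⟨a, ha⟩ := card_pow (G.yx (x + e))
  obtain ⟨b, hb⟩ := card_pow (G.zu u)
  obtain ⟨c, hc⟩ := card_pow (G.dd x u)
  obtain ⟨m, hm⟩ := card_pow (G.xy y)
  rw [ha, hb, hc] at c1
  rw [hb, hm] at c5
  have hc1 : 1 ≤ c := by
    rcases Nat.eq_zero_or_pos c with hc0 | hc0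
    · exfalso
      rw [hc0, pow_zero] at hc
      have : Subsingleton (G.dd x u) := (Nat.card_eq_one_iff_unique.1 hc).1
      have k1 := Subsingleton.elim (⟨w1, mem_dd.2 ⟨hw1, huw1⟩⟩ : G.dd x u) 0
      exact hw10 (congrArg Subtype.val k1)
    · exact hc0
  have hbm : b < m := by
    have k1 : G.zu u < G.xy y := by
      refine lt_of_le_of_ne (fun a ha => ((hZ a).1 ha).1) ?_
      intro k2
      have k3 : v ∈ G.zu u := by
        rw [k2]; exact h.cv
      obtain ⟨-, t, k4, k5, k6⟩ := (hZ v).1 k3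
      exact k5 (h.pu t k4 k6)
    have k2 : Nat.card (G.zu u) < Nat.card (G.xy y) := by
      have k3 : ((G.zu u : Submodule (ZMod 2) X) : Set X) ⊂ (G.xy y : Set X) := k1
      exact Set.ncard_lt_ncard k3 (Set.toFinite _)
    rw [hb, hm] at k2
    exact (Nat.pow_lt_pow_iff_right (by norm_num)).1 k2
  have c6 : (Finset.filter (fun x' => x + x' ∉ G.zu u)
      (Finset.univ.filter (fun x' => G.E x' y))).card = 2 ^ m - 2 ^ b := by omega
  rw [c6] at c1
  exact arith hc1 hbm c1

end TG

end Pool.Agent.PGE
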