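import Pool.Agent.PGE.S7b

/-!
Two-sided P-geometries (note 2448 of helper28), end of section 7 and section 8.
-/

set_option autoImplicit false
set_option linter.unusedSectionVars false
set_option linter.unusedSimpArgs false
set_option linter.unnecessarySeqFocus false

namespace Pool.Agent.PGE

namespace TG

theorem card_quo {M : Type} [AddCommGroup M] [Module (ZMod 2) M] [Finite M]
    (W : Submodule (ZMod 2) M) {w : M} (hw : w ∈ W) (hw0 : w ≠ 0) :
    Nat.card (M ⧸ W) < Nat.card M := by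
  have h := Submodule.card_eq_card_quotient_mul_card W
  have h1 : 1 < Nat.card W := by
    rw [Finite.one_lt_card_iff_nontrivial]
    exact ⟨⟨w, hw⟩, 0, fun h => hw0 (congrArg Subtype.val h)⟩
  have := finQ W
  have h2 : 0 < Nat.card (M ⧸ W) := Nat.card_pos
  rw [h]
  nlinarith

theorem card_sub {M : Type} [AddCommGroup M] [Module (ZMod 2) M] [Finite M]
    (W : Submodule (ZMod 2) M) : Nat.card W ≤ Nat.card M :=
  Nat.card_le_card_of_injective (fun w : W => (w : M)) Subtype.val_injective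

variable {X Y Q : Type} [AddCommGroup X] [Module (ZMod 2) X] [AddCommGroup Y]
  [Module (ZMod 2) Y]

theorem card_up [Finite X] [Finite Y] (G : TG X Y Q) (W : Submodule (ZMod 2) Y) {w : Y}
    (hw : w ∈ W) (hw0 : w ≠ 0) :
    Nat.card (G.xc W) * Nat.card (Y ⧸ W) < Nat.card X * Nat.card Y := by
  have h1 := card_quo W hw hw0
  have h2 := card_sub (G.xc W)
  have h3 : 0 < Nat.card X := Nat.card_pos
  calc Nat.card (G.xc W) * Nat.card (Y ⧸ W) ≤ Nat.card X * Nat.card (Y ⧸ W) :=
        Nat.mul_le_mul_right _ h2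
    _ < Nat.card X * Nat.card Y := Nat.mul_lt_mul_of_pos_left h1 h3

theorem card_down [Finite X] [Finite Y] (G : TG X Y Q) (U : Submodule (ZMod 2) X) {u : X}
    (hu : u ∈ U) (hu0 : u ≠ 0) :
    Nat.card (X ⧸ U) * Nat.card (G.yc U) < Nat.card X * Nat.card Y := by
  have h := card_up G.swap U hu hu0
  rw [mul_comm, mul_comm (Nat.card X)]
  exact h

/-- (*) of section 7 -/
theorem star (n : ℕ) : ∀ (X Y : Type) [AddCommGroup X] [Module (ZMod 2) X] [AddCommGroup Y]
    [Module (ZMod 2) Y] [Finite X] [Finite Y] (G : TG X Y Q), Nat.card X * Nat.card Y = n →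
    G.Red → ∀ y v, G.T y → G.C v y → v ≠ 0 → (∀ t, G.T t → G.C v t → t = y) →
    (∀ u u', G.NP y u → G.NP y u' → v ≠ u + u') → ∃ g g', G.EK g g' := by
  induction n using Nat.strong_induction_on with
  | _ n ih =>
    intro X Y _ _ _ _ _ _ G hn hG y v hy hv hv0 hp hns
    have hek : ∀ u, u ≠ 0 → G.NP y u → ∃ g g', (G.down (G.zu u)).EK g g' := by
      intro u hu0 hu
      have hu' : u ∈ G.zu u := mem_zu.2 fun t _ h => h
      have hR : (G.down (G.zu u)).Red := hG.zu hy hu.1
      have := finQ (G.zu u)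
      have hZt : ∀ a ∈ G.zu u, ∃ t, G.T t ∧ t ≠ y ∧ G.C a t := by
        intro a ha
        obtain ⟨-, t, h2, h3, h4⟩ := hu
        exact ⟨t, h2, h3, mem_zu.1 ha t h2 h4⟩
      refine ih _ ?_ (X ⧸ G.zu u) (G.yc (G.zu u)) (G.down (G.zu u)) rfl hR
        ⟨y, zu_y hy hu.1⟩ (Submodule.Quotient.mk v) (down_T.2 hy) hv ?_ ?_ ?_
      · rw [← hn]; exact card_down G _ hu' hu0
      · intro h
        obtain ⟨t, h1, h2, h3⟩ := hZt v ((Submodule.Quotient.mk_eq_zero _).1 h)
        exact h2 (hp t h1 h3)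
      · rintro ⟨t, ht⟩ h1 h2
        exact Subtype.ext (hp t (down_T.1 h1) h2)
      · intro a b ha hb hab
        obtain ⟨a, rfl⟩ := Submodule.Quotient.mk_surjective _ a
        obtain ⟨b, rfl⟩ := Submodule.Quotient.mk_surjective _ b
        obtain ⟨ha1, ⟨t, ht⟩, ha2, ha3, ha4⟩ := ha
        obtain ⟨hb1, ⟨t', ht'⟩, hb2, hb3, hb4⟩ := hb
        have k1 : v + (a + b) ∈ G.zu u := by
          have k2 := (Submodule.Quotient.eq _).1 hab
          have k3 : v - (a + b) = v + (a + b) := by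
            rw [sub_eq_iff_eq_add]; exact (eo (by abel_nf <;> simp only [ch2, ch3, ch4, ch5, ch6, add_zero, zero_add]))
          rwa [k3] at k2
        refine hns a (b + (v + (a + b))) ?_ ?_ (eo (by abel_nf <;> simp only [ch2, ch3, ch4, ch5, ch6, add_zero, zero_add]))
        · exact ⟨ha1, t, down_T.1 ha2, fun h => ha3 (Subtype.ext h), ha4⟩
        · refine ⟨C.al (G := G) hb1 (zu_y' hy hu.1 k1), t', down_T.1 hb2,
            fun h => hb3 (Subtype.ext h), C.al (G := G) hb4 (ht' _ k1)⟩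
    have hc : Ctx7 G y v := ⟨hG, hy, hv, hv0, hp, hns, hek⟩
    by_cases h0 : ∀ u, G.NP y u → u = 0
    · exact hc.case0 h0
    exfalso
    push Not at h0
    obtain ⟨u, hu, hu0⟩ := h0
    by_cases h1 : ∀ a, a ≠ 0 → G.NP y a → a ∈ G.zu u
    · exact hc.case1 hu0 hu h1
    · push Not at h1
      obtain ⟨a, ha0, ha, ha1⟩ := h1
      exact hc.case2 hu0 ha0 hu ha ha1

/-- section 8: atoms generate -/
theorem gen (n : ℕ) : ∀ (X Y : Type) [AddCommGroup X] [Module (ZMod 2) X] [AddCommGroup Y]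
    [Module (ZMod 2) Y] [Finite X] [Finite Y] (G : TG X Y Q), Nat.card X * Nat.card Y = n →
    G.Red → ∀ x y v, G.E x y → G.C v y →
    v ∈ Submodule.span (ZMod 2) {p | G.At x p ∧ G.C p y} := by
  induction n using Nat.strong_induction_on with
  | _ n ih =>
    intro X Y _ _ _ _ _ _ G hn hG x y v hx hv
    -- nonpure vectors
    have hnp : ∀ u, u ≠ 0 → G.NP y u → u ∈ Submodule.span (ZMod 2) {p | G.At x p ∧ G.C p y} := by
      intro u hu0 hu
      have hw : ∃ w, w ≠ 0 ∧ G.C x w ∧ G.C u w := by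
        by_contra hcon
        push Not at hcon
        obtain ⟨h1, t, h2, h3, h4⟩ := hu
        apply h3
        refine hG.pure hx h1 (fun w hw huw => ?_) h2 h4
        by_contra h5
        exact hcon w h5 hw huw
      obtain ⟨w, hw0, hw, huw⟩ := hw
      have hR : (G.up (G.dd x u)).Red := hG.dd hx.S (hx.al hu.1).S
      have := finQ (G.dd x u)
      have hxW : x ∈ G.xc (G.dd x u) := fun w hw => (mem_dd.1 hw).1
      have huW : u ∈ G.xc (G.dd x u) := fun w hw => (mem_dd.1 hw).2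
      have h1 := ih _ (by rw [← hn]; exact card_up G _ (mem_dd.2 ⟨hw, huw⟩) hw0)
        (G.xc (G.dd x u)) (Y ⧸ G.dd x u) (G.up (G.dd x u)) rfl hR ⟨x, hxW⟩
        (Submodule.Quotient.mk y) ⟨u, huW⟩ hx hu.1
      have h2 : (u : X) ∈ (Submodule.span (ZMod 2) {p | (G.up (G.dd x u)).At ⟨x, hxW⟩ p ∧
          (G.up (G.dd x u)).C p (Submodule.Quotient.mk y)}).map (G.xc (G.dd x u)).subtype :=
        ⟨⟨u, huW⟩, h1, rfl⟩
      rw [Submodule.map_span] at h2
      refine Submodule.span_mono ?_ h2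
      rintro _ ⟨⟨p, hpW⟩, ⟨hp1, hp2⟩, rfl⟩
      refine ⟨⟨fun h => hp1.ne (Subtype.ext h), up_S.1 hp1.S, ?_⟩, hp2⟩
      intro v' hv0' hv' h3 w hw hvw
      have hvW : v' ∈ G.xc (G.dd x u) := fun w hw => h3 w (mem_dd.1 hw).1 (hpW w hw)
      exact hp1.mx ⟨v', hvW⟩ (fun h => hv0' (congrArg Subtype.val h)) (up_S.2 hv') (by
        intro w hw hpw
        obtain ⟨w, rfl⟩ := Submodule.Quotient.mk_surjective _ w
        exact h3 w hw hpw) (Submodule.Quotient.mk w) hw hvw
    by_cases hv0 : v = 0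
    · rw [hv0]; exact Submodule.zero_mem _
    by_cases h1 : G.NP y v
    · exact hnp v hv0 h1
    have hp : ∀ t, G.T t → G.C v t → t = y := by
      intro t ht hvt
      by_contra hty
      exact h1 ⟨hv, t, ht, hty, hvt⟩
    by_cases h2 : ∀ u u', G.NP y u → G.NP y u' → v ≠ u + u'
    · obtain ⟨g, g', hE⟩ := star n X Y G hn hG y v hx.T hv hv0 hp h2
      apply Submodule.subset_span
      refine ⟨⟨hv0, (hx.al hv).S, ?_⟩, hv⟩
      intro v' hv0' hv' _ w hw hvw
      obtain ⟨t, h3, h4⟩ := link hx.S hv'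
      have h5 := hE.uniq (ne_add hv0') h3 h4 (h3.ar hw) (h4.ar (hw.al hvw))
      have h6 : w = 0 := by
        have : t + (t + w) = 0 := by rw [← h5]; exact aa t
        rw [aab] at this
        exact this
      rw [h6]; exact C.zr v
    · push Not at h2
      obtain ⟨u, u', hu, hu', rfl⟩ := h2
      refine Submodule.add_mem _ ?_ ?_
      · by_cases hu0 : u = 0
        · rw [hu0]; exact Submodule.zero_mem _
        · exact hnp u hu0 hu
      · by_cases hu0 : u' = 0
        · rw [hu0]; exact Submodule.zero_mem _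
        · exact hnp u' hu0 hu'

variable {G : TG X Y Q}

/-- section 8 -/
theorem Red.gen [Finite X] [Finite Y] (hG : G.Red) {x : X} {y : Y} {v : X} (hx : G.E x y)
    (hv : G.C v y) : v ∈ Submodule.span (ZMod 2) {p | G.At x p ∧ G.C p y} :=
  TG.gen _ X Y G rfl hG x y v hx hv

end TG

end Pool.Agent.PGE
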