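import Pool.Agent.PGE.S8

/-!
Two-sided P-geometries (note 2448 of helper28), section 9.
-/

set_option autoImplicit false
set_option linter.unusedSectionVars false
set_option linter.unusedSimpArgs false
set_option linter.unnecessarySeqFocus false

namespace Pool.Agent.PGE

namespace TG

variable {X Y Q : Type} [AddCommGroup X] [Module (ZMod 2) X] [AddCommGroup Y]
  [Module (ZMod 2) Y] {G : TG X Y Q}

theorem quo_eq {M : Type} [AddCommGroup M] [Module (ZMod 2) M] {W : Submodule (ZMod 2) M}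
    {a b : M} (h : (Submodule.Quotient.mk a : M ⧸ W) = Submodule.Quotient.mk b) : a + b ∈ W := by
  have h1 := (Submodule.Quotient.eq _).1 h
  have h2 : a - b = a + b := by
    rw [sub_eq_iff_eq_add]; exact (eo (by abel_nf <;> simp only [ch2, ch3, ch4, ch5, ch6, add_zero, zero_add]))
  rwa [h2] at h1

theorem quo_ne {M : Type} [AddCommGroup M] [Module (ZMod 2) M] {W : Submodule (ZMod 2) M}
    {a : M} (h : a ∉ W) : (Submodule.Quotient.mk a : M ⧸ W) ≠ 0 :=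
  fun h1 => h ((Submodule.Quotient.mk_eq_zero _).1 h1)

/-- the double perp `P` of `a` -/
def PP (G : TG X Y Q) (x : X) (y : Y) (a u : X) : Prop :=
  G.C u y ∧ ∀ w, G.C x w → G.C a w → G.C u w

theorem PP.zero {x : X} {y : Y} {a : X} : G.PP x y a 0 := ⟨C.zl y, fun w _ _ => C.zl w⟩

theorem PP.self {x : X} {y : Y} {a : X} (h : G.C a y) : G.PP x y a a := ⟨h, fun _ _ h => h⟩

theorem PP.add {x : X} {y : Y} {a u u' : X} (h : G.PP x y a u) (h' : G.PP x y a u') :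
    G.PP x y a (u + u') := ⟨h.1.al h'.1, fun w hw haw => (h.2 w hw haw).al (h'.2 w hw haw)⟩

/-- the situation of section 9 -/
structure C9 (G : TG X Y Q) (x : X) (y : Y) (a : X) (h : Y) (γ : X) : Prop where
  e : G.E x y
  ay : G.C a y
  hx : G.C x h
  ah : ¬ G.C a h
  ata : G.At x a
  ath : G.swap.At y h
  idx : ∀ w w', G.C x w → G.C x w' → ¬ G.C a w → ¬ G.C a w' → G.C a (w + w')
  two : ∃ p, G.PP x y a p ∧ p ≠ 0 ∧ p ≠ a
  PK : ∀ p, G.PP x y a p → G.C p h → p = 0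
  sum : ∀ u, G.C u y → ∃ p, G.PP x y a p ∧ G.C (u + p) h
  gw : ∀ w, G.C x w → G.C a w → G.C γ w
  gy : ¬ G.C γ y
  gh : G.C γ (y + h)
  Kp : ∀ w, G.C x w → (∀ k, G.C k y → G.C k h → G.C k w) → w = 0 ∨ w = h
  Xh : ∀ u, G.C u (y + h) → G.C u y ∨ G.C (u + γ) y

section fin
variable [Finite X] [Finite Y]

/-- the residue `G_K`, `K = h^perp` -/
theorem Red.ekd (hG : G.Red) {y : Y} {h : Y} (hy : G.T y) (hh : G.swap.At y h) :
    ∃ g g', (G.down (G.swap.dd y h)).EK g g' := by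
  obtain ⟨g', g, hE⟩ := hG.swap.ek (x := y) hy hh
  exact ⟨g, g', hE.swap⟩

theorem mem_K {y h : Y} {u : X} : u ∈ G.swap.dd y h ↔ G.C u y ∧ G.C u h :=
  mem_dd (G := G.swap)

/-- section 9 -/
theorem Red.c9 (hG : G.Red) {x : X} {y : Y} (hx : G.E x y) {a : X} (ha : G.At x a)
    (hay : G.C a y) {p : X} (hp : G.PP x y a p) (hp0 : p ≠ 0) (hpa : p ≠ a) {h : Y}
    (hh : G.swap.At y h) (hxh : G.C x h) (hah : ¬ G.C a h) : ∃ γ, G.C9 x y a h γ := by
  obtain ⟨g0, g0', hE0⟩ := hG.ek hx.S ha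
  have hR0 : (G.up (G.dd x a)).Red := hG.dd hx.S ha.S
  have hxW : x ∈ G.xc (G.dd x a) := fun w hw => (mem_dd.1 hw).1
  have haW : a ∈ G.xc (G.dd x a) := fun w hw => (mem_dd.1 hw).2
  have hpW : p ∈ G.xc (G.dd x a) := fun w hw => hp.2 w (mem_dd.1 hw).1 (mem_dd.1 hw).2
  have hy0 : (Submodule.Quotient.mk y : Y ⧸ G.dd x a) = g0' := by
    apply hE0.big (v := ⟨a, haW⟩) (v' := ⟨p, hpW⟩)
    · exact ⟨⟨x, hxW⟩, hx⟩
    · exact fun h1 => ha.ne (congrArg Subtype.val h1)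
    · exact fun h1 => hp0 (congrArg Subtype.val h1)
    · exact fun h1 => hpa (congrArg Subtype.val h1).symm
    · exact hay
    · exact hp.1
  subst hy0
  have idx : ∀ w w', G.C x w → G.C x w' → ¬ G.C a w → ¬ G.C a w' → G.C a (w + w') := by
    intro w w' h1 h2 h3 h4
    have h5 := hE0.small (x := ⟨x, hxW⟩) (w := Submodule.Quotient.mk w)
      (w' := Submodule.Quotient.mk w') hx (quo_ne fun h6 => h3 (mem_dd.1 h6).2)
      (quo_ne fun h6 => h4 (mem_dd.1 h6).2) h1 h2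
    exact (mem_dd.1 (quo_eq h5)).2
  have PK : ∀ p, G.PP x y a p → G.C p h → p = 0 := by
    intro p hp hph
    by_contra hp0
    obtain ⟨w, h1, h2⟩ := hG.perp_ne hp0 hx hp.1
    by_cases h3 : G.C a w
    · exact h2 (hp.2 w h1 h3)
    · have h4 := hp.2 _ (h1.ar hxh) (idx w h h1 hxh h3 hah)
      exact h2 ((h4.ar hph).eq rfl (eo (by abel_nf <;> simp only [ch2, ch3, ch4, ch5, ch6, add_zero, zero_add])))
  -- the other residue
  obtain ⟨g1, g1', hE1⟩ := hG.ekd hx.T hh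
  have hR1 : (G.down (G.swap.dd y h)).Red := (hG.swap.dd (x := y) hx.T hh.S).swap
  have hyK : y ∈ G.yc (G.swap.dd y h) := fun k hk => (mem_K.1 hk).1
  have hhK : h ∈ G.yc (G.swap.dd y h) := fun k hk => (mem_K.1 hk).2
  have hy1 : (⟨y, hyK⟩ : G.yc (G.swap.dd y h)) = g1' := by
    apply hE1.big (v := Submodule.Quotient.mk a) (v' := Submodule.Quotient.mk p)
    · exact ⟨Submodule.Quotient.mk x, hx⟩
    · exact quo_ne fun h1 => hah (mem_K.1 h1).2
    · exact quo_ne fun h1 => hp0 (PK p hp (mem_K.1 h1).2)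
    · intro h1
      have h2 := mem_K.1 (quo_eq h1)
      exact hpa (eo (PK _ ((PP.self hay).add hp) h2.2)).symm
    · exact hay
    · exact hp.1
  subst hy1
  have Kp : ∀ w, G.C x w → (∀ k, G.C k y → G.C k h → G.C k w) → w = 0 ∨ w = h := by
    intro w h1 h2
    by_cases hw0 : w = 0
    · exact Or.inl hw0
    right
    have h3 := hE1.small (x := Submodule.Quotient.mk x)
      (w := ⟨w, fun k hk => h2 k (mem_K.1 hk).1 (mem_K.1 hk).2⟩) (w' := ⟨h, hhK⟩) hx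
      (fun h3 => hw0 (congrArg Subtype.val h3)) (fun h3 => hh.ne (congrArg Subtype.val h3)) h1 hxh
    exact congrArg Subtype.val h3
  -- gamma
  obtain ⟨γ, hg0, hg1, hg2⟩ := hG.meet (W := G.dd x a) (x := x)
    (fun w hw => (mem_dd.1 hw).1) ha.S (add_ne ha.ne)
    (fun w hw => (mem_dd.1 hw).1.al (mem_dd.1 hw).2) (hx.ar hxh)
  have gw : ∀ w, G.C x w → G.C a w → G.C γ w := fun w h1 h2 => hg1 w (mem_dd.2 ⟨h1, h2⟩)
  have gy : ¬ G.C γ y := by
    intro h1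
    have h2 : G.C γ h := (h1.ar hg2).eq rfl (aab y h)
    exact hg0 (PK γ ⟨h1, gw⟩ h2)
  have hgW : x + γ ∈ G.xc (G.dd x a) := fun w hw =>
    (mem_dd.1 hw).1.al (gw w (mem_dd.1 hw).1 (mem_dd.1 hw).2)
  have nE : ∀ u, ¬ G.C u y → ¬ G.E (x + u) y := fun u h1 h2 =>
    h1 ((hx.C_l h2).eq (aab x u) rfl)
  have hyh : G.E x (y + h) := hx.ar hxh
  have hyhK : y + h ∈ G.yc (G.swap.dd y h) := fun k hk => (mem_K.1 hk).1.ar (mem_K.1 hk).2
  have hg1' : ∀ u, G.C u (y + h) → ¬ G.C u y → Submodule.Quotient.mk (x + u) = g1 := by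
    intro u h1 h2
    have h3 : (G.down (G.swap.dd y h)).E (Submodule.Quotient.mk (x + u)) ⟨y + h, hyhK⟩ :=
      hyh.al h1
    exact (hE1.s _ h3.S).resolve_right (nE u h2)
  have Xh : ∀ u, G.C u (y + h) → G.C u y ∨ G.C (u + γ) y := by
    intro u h1
    by_cases h2 : G.C u y
    · exact Or.inl h2
    right
    have h3 := quo_eq ((hg1' u h1 h2).trans (hg1' γ hg2 gy).symm)
    exact (mem_K.1 h3).1.eq (eo (by abel_nf <;> simp only [ch2, ch3, ch4, ch5, ch6, add_zero, zero_add])) rfl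
  have hgg0 : (⟨x + γ, hgW⟩ : G.xc (G.dd x a)) = g0 := by
    have h3 : (G.up (G.dd x a)).E ⟨x + γ, hgW⟩ (Submodule.Quotient.mk (y + h)) := hyh.al hg2
    exact (hE0.s _ h3.S).resolve_right (nE γ gy)
  have hgg1 := hg1' γ hg2 gy
  refine ⟨γ, hx, hay, hxh, hah, ha, hh, idx, ⟨p, hp, hp0, hpa⟩, PK, ?_, gw, gy, hg2, Kp, Xh⟩
  intro u hu
  by_cases huh : G.C u h
  · exact ⟨0, PP.zero, huh.al (C.zl h)⟩
  -- the second line of x + u in G_K
  have hu0 : x + u ≠ x := add_ne (by rintro rfl; exact huh (C.zl h))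
  have h1 : (G.down (G.swap.dd y h)).S (Submodule.Quotient.mk x) := ⟨⟨y, hyK⟩, hx⟩
  have h2 : (G.down (G.swap.dd y h)).S (Submodule.Quotient.mk (x + u)) :=
    ⟨⟨y, hyK⟩, hx.al hu⟩
  have h3 : (Submodule.Quotient.mk x : X ⧸ G.swap.dd y h) ≠ Submodule.Quotient.mk (x + u) := by
    intro h4
    have h5 := quo_eq h4
    rw [aab] at h5
    exact huh (mem_K.1 h5).2
  obtain ⟨⟨w, hwK⟩, hw0, hw⟩ := hR1.two' h1 h2 h3 h2
  have hw0' : w ≠ 0 := fun h4 => hw0 (Subtype.ext h4)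
  have hw' : G.C (x + u) w := hw
  have ht : G.E (x + u) (y + w) := (hx.al hu).ar hw'
  have htK : y + w ∈ G.yc (G.swap.dd y h) := fun k hk => C.ar (G := G) (hyK k hk) (hwK k hk)
  have hgt : G.E (x + γ) (y + w) := by
    have h4 : (G.down (G.swap.dd y h)).T ⟨y + w, htK⟩ := ⟨Submodule.Quotient.mk (x + u), ht⟩
    rcases hE1.t _ h4 with h5 | h5
    · exact absurd (congrArg Subtype.val h5) (add_ne hw0')
    · rw [← hgg1] at h5
      exact h5
  -- another point on y + w in G^{W0}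
  have h5 : (G.up (G.dd x a)).T (Submodule.Quotient.mk (y + w)) := ⟨⟨x + γ, hgW⟩, hgt⟩
  obtain ⟨⟨v, hvW⟩, hv0, hv⟩ := hR0.two (s := ⟨x, hxW⟩) (s' := ⟨x + a, fun w hw =>
    (hxW w hw).al (haW w hw)⟩) (up_S.2 hx.S) (up_S.2 ha.S)
    (fun h6 => ne_add ha.ne (congrArg Subtype.val h6)) h5
  have hv' : G.C v (y + w) := hv
  have hv0' : v ≠ 0 := fun h6 => hv0 (Subtype.ext h6)
  have hvE : G.E (x + γ + v) (y + w) := hgt.al hv'
  have h6 : G.E (x + γ + v) y := by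
    have h7 : (G.up (G.dd x a)).E ⟨x + γ + v, fun w hw => (hgW w hw).al (hvW w hw)⟩
      (Submodule.Quotient.mk (y + w)) := hvE
    rcases hE0.s _ h7.S with h8 | h8
    · rw [← hgg0] at h8
      exact absurd (congrArg Subtype.val h8) (add_ne hv0')
    · exact h8
  have hp' : G.PP x y a (γ + v) :=
    ⟨(hx.C_l h6).eq (eo (by abel_nf <;> simp only [ch2, ch3, ch4, ch5, ch6, add_zero, zero_add])) rfl, fun w h7 h8 =>
      (gw w h7 h8).al (hvW w (mem_dd.2 ⟨h7, h8⟩))⟩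
  refine ⟨γ + v, hp', ?_⟩
  have h7 : G.C (u + (γ + v)) y := hu.al hp'.1
  have h8 : G.C (u + (γ + v)) (y + w) := (ht.C_l hvE).eq (eo (by abel_nf <;> simp only [ch2, ch3, ch4, ch5, ch6, add_zero, zero_add])) rfl
  have h9 := hE1.par (t := ⟨y + w, htK⟩) (t' := ⟨y, hyK⟩) ⟨Submodule.Quotient.mk (x + u), ht⟩
    ⟨Submodule.Quotient.mk x, hx⟩ (fun h9 => add_ne hw0' (congrArg Subtype.val h9))
    (a := Submodule.Quotient.mk (u + (γ + v))) h8 h7
  exact (mem_K.1 ((Submodule.Quotient.mk_eq_zero _).1 h9)).2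

/-- lemma 9' : a `Y`-atom with big codimension gives an `X`-atom of type `(k,1)` -/
theorem Red.c9' (hG : G.Red) {x : X} {y : Y} (hx : G.E x y) {a : X} (ha : G.At x a)
    (hay : G.C a y) {h : Y} (hh : G.swap.At y h) (hxh : G.C x h) (hah : ¬ G.C a h)
    {u u' : X} (hu : G.C u y) (hu' : G.C u' y) (h1 : ¬ G.C u h) (h2 : ¬ G.C u' h)
    (h3 : ¬ G.C (u + u') h) : ∃ p, G.PP x y a p ∧ p ≠ 0 ∧ p ≠ a := by
  by_contra hcon
  push Not at hcon
  obtain ⟨g0, g0', hE0⟩ := hG.ek hx.S ha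
  have hR0 : (G.up (G.dd x a)).Red := hG.dd hx.S ha.S
  have hxW : x ∈ G.xc (G.dd x a) := fun w hw => (mem_dd.1 hw).1
  have haW : a ∈ G.xc (G.dd x a) := fun w hw => (mem_dd.1 hw).2
  obtain ⟨g1, g1', hE1⟩ := hG.ekd hx.T hh
  have hR1 : (G.down (G.swap.dd y h)).Red := (hG.swap.dd (x := y) hx.T hh.S).swap
  have hyK : y ∈ G.yc (G.swap.dd y h) := fun k hk => (mem_K.1 hk).1
  have hhK : h ∈ G.yc (G.swap.dd y h) := fun k hk => (mem_K.1 hk).2
  have hy1 : (⟨y, hyK⟩ : G.yc (G.swap.dd y h)) = g1' := by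
    apply hE1.big (v := Submodule.Quotient.mk u) (v' := Submodule.Quotient.mk u')
    · exact ⟨Submodule.Quotient.mk x, hx⟩
    · exact quo_ne fun h4 => h1 (mem_K.1 h4).2
    · exact quo_ne fun h4 => h2 (mem_K.1 h4).2
    · intro h4
      exact h3 (mem_K.1 (quo_eq h4)).2
    · exact hu
    · exact hu'
  subst hy1
  have Kp : ∀ w, G.C x w → w ∈ G.yc (G.swap.dd y h) → w = 0 ∨ w = h := by
    intro w h1 h2
    by_cases hw0 : w = 0
    · exact Or.inl hw0
    right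
    have h3 := hE1.small (x := Submodule.Quotient.mk x)
      (w := ⟨w, h2⟩) (w' := ⟨h, hhK⟩) hx
      (fun h3 => hw0 (congrArg Subtype.val h3)) (fun h3 => hh.ne (congrArg Subtype.val h3)) h1 hxh
    exact congrArg Subtype.val h3
  obtain ⟨γ, hg0, hg1, hg2⟩ := hG.meet (W := G.dd x a) (x := x)
    (fun w hw => (mem_dd.1 hw).1) ha.S (add_ne ha.ne)
    (fun w hw => (mem_dd.1 hw).1.al (mem_dd.1 hw).2) (hx.ar hxh)
  have gw : ∀ w, G.C x w → G.C a w → G.C γ w := fun w h1 h2 => hg1 w (mem_dd.2 ⟨h1, h2⟩)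
  have gy : ¬ G.C γ y := by
    intro h4
    have h5 : G.C γ h := (h4.ar hg2).eq rfl (aab y h)
    have h6 := hcon γ ⟨h4, gw⟩ hg0
    rw [h6] at h5
    exact hah h5
  have hgW : x + γ ∈ G.xc (G.dd x a) := fun w hw =>
    (mem_dd.1 hw).1.al (gw w (mem_dd.1 hw).1 (mem_dd.1 hw).2)
  have nE : ∀ u, ¬ G.C u y → ¬ G.E (x + u) y := fun u h1 h2 =>
    h1 ((hx.C_l h2).eq (aab x u) rfl)
  have hyh : G.E x (y + h) := hx.ar hxh
  have hyhK : y + h ∈ G.yc (G.swap.dd y h) := fun k hk => (mem_K.1 hk).1.ar (mem_K.1 hk).2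
  have hgg1 : Submodule.Quotient.mk (x + γ) = g1 := by
    have h3 : (G.down (G.swap.dd y h)).E (Submodule.Quotient.mk (x + γ)) ⟨y + h, hyhK⟩ :=
      hyh.al hg2
    exact (hE1.s _ h3.S).resolve_right (nE γ gy)
  -- lines of G_K through x + v
  have line : ∀ v, G.C v y → ∃ t, t ∈ G.yc (G.swap.dd y h) ∧ t ≠ y ∧ G.E (x + v) t ∧
      G.E (x + γ) t := by
    intro v hv
    have k1 : (G.down (G.swap.dd y h)).S (Submodule.Quotient.mk x) := ⟨⟨y, hyK⟩, hx⟩
    have k2 : (G.down (G.swap.dd y h)).S (Submodule.Quotient.mk (x + u)) :=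
      ⟨⟨y, hyK⟩, hx.al hu⟩
    have k3 : (Submodule.Quotient.mk x : X ⧸ G.swap.dd y h) ≠
        Submodule.Quotient.mk (x + u) := by
      intro h4
      have h5 := quo_eq h4
      rw [aab] at h5
      exact h1 (mem_K.1 h5).2
    have k4 : (G.down (G.swap.dd y h)).S (Submodule.Quotient.mk (x + v)) :=
      ⟨⟨y, hyK⟩, hx.al hv⟩
    obtain ⟨⟨w, hwK⟩, hw0, hw⟩ := hR1.two' k1 k2 k3 k4
    have hw0' : w ≠ 0 := fun h4 => hw0 (Subtype.ext h4)
    have hw' : G.C (x + v) w := hw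
    have ht : G.E (x + v) (y + w) := (hx.al hv).ar hw'
    have htK : y + w ∈ G.yc (G.swap.dd y h) := fun k hk => C.ar (G := G) (hyK k hk) (hwK k hk)
    refine ⟨y + w, htK, add_ne hw0', ht, ?_⟩
    have h4 : (G.down (G.swap.dd y h)).T ⟨y + w, htK⟩ := ⟨Submodule.Quotient.mk (x + v), ht⟩
    rcases hE1.t _ h4 with h5 | h5
    · exact absurd (congrArg Subtype.val h5) (add_ne hw0')
    · rw [← hgg1] at h5
      exact h5
  -- lines of G_K through different points are different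
  have dist : ∀ v v' t, G.C v y → G.C v' y → ¬ G.C (v + v') h → t ∈ G.yc (G.swap.dd y h) →
      t ≠ y → G.E (x + v) t → G.E (x + v') t → False := by
    intro v v' t hv hv' hvv ht hty k1 k2
    have h9 := hE1.par (t := ⟨t, ht⟩) (t' := ⟨y, hyK⟩) ⟨Submodule.Quotient.mk (x + v), k1⟩
      ⟨Submodule.Quotient.mk x, hx⟩ (fun h9 => hty (congrArg Subtype.val h9))
      (a := Submodule.Quotient.mk (v + v')) ((k1.C_l k2).eq (eo (by abel_nf <;> simp only [ch2, ch3, ch4, ch5, ch6, add_zero, zero_add])) rfl) (hv.al hv')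
    exact hvv (mem_K.1 ((Submodule.Quotient.mk_eq_zero _).1 h9)).2
  -- in G^{W0} a line through g is determined by its point x or x + a
  have two : ∀ t, G.E (x + γ) t → (∃ r, r ∈ G.dd x a ∧ G.E x (t + r)) ∨
      (∃ r, r ∈ G.dd x a ∧ G.E (x + a) (t + r)) := by
    intro t ht
    obtain ⟨⟨s, hsW⟩, k1, k2⟩ := linkT (G := G.up (G.dd x a))
      (y := Submodule.Quotient.mk t) (y' := Submodule.Quotient.mk y)
      ⟨⟨x + γ, hgW⟩, ht⟩ ⟨⟨x, hxW⟩, hx⟩
    have k1 : G.E s t := k1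
    have k2 : G.E s y := k2
    by_cases hs : x + s = 0
    · left
      refine ⟨0, Submodule.zero_mem _, ?_⟩
      rw [add_zero, eo hs]; exact k1
    · right
      have k3 := hcon (x + s) ⟨hx.C_l k2, fun w hw haw => hw.al (hsW w (mem_dd.2 ⟨hw, haw⟩))⟩ hs
      refine ⟨0, Submodule.zero_mem _, ?_⟩
      rw [add_zero, ← k3, aab]; exact k1
  have uniq : ∀ s (_ : s = x ∨ s = x + a) t t' , t ∈ G.yc (G.swap.dd y h) →
      t' ∈ G.yc (G.swap.dd y h) → G.E (x + γ) t → G.E (x + γ) t' → G.E s t → G.E s t' →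
      t = t' := by
    intro s hs t t' ht ht' k1 k2 k3 k4
    have hsW : s ∈ G.xc (G.dd x a) := by
      rcases hs with rfl | rfl
      · exact hxW
      · exact fun w hw => (hxW w hw).al (haW w hw)
    have hsy : G.E s y := by
      rcases hs with rfl | rfl
      · exact hx
      · exact hx.al hay
    have k5 := hE0.uniq (s := ⟨x + γ, hgW⟩) (s' := ⟨s, hsW⟩) (t := Submodule.Quotient.mk t)
      (t' := Submodule.Quotient.mk t') (by
        intro k6
        have k7 : x + γ = s := congrArg Subtype.val k6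
        rw [← k7] at hsy
        exact nE γ gy hsy) k1 k3 k2 k4
    have k6 := quo_eq k5
    have k7 : t + t' = 0 ∨ t + t' = h :=
      Kp _ (mem_dd.1 k6).1 (fun k hk => C.ar (G := G) (ht k hk) (ht' k hk))
    rcases k7 with k7 | k7
    · exact eo k7
    · rw [k7] at k6
      exact absurd (mem_dd.1 k6).2 hah
  obtain ⟨t0, m1, m2, m3, m4⟩ := line 0 (C.zl y)
  obtain ⟨t1, n1, n2, n3, n4⟩ := line u hu
  obtain ⟨t2, o1, o2, o3, o4⟩ := line u' hu'
  have e01 : t0 ≠ t1 := by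
    rintro rfl
    exact dist 0 u t0 (C.zl y) hu (by rw [zero_add]; exact h1) m1 m2 m3 n3
  have e02 : t0 ≠ t2 := by
    rintro rfl
    exact dist 0 u' t0 (C.zl y) hu' (by rw [zero_add]; exact h2) m1 m2 m3 o3
  have e12 : t1 ≠ t2 := by
    rintro rfl
    exact dist u u' t1 hu hu' h3 n1 n2 n3 o3
  have two' : ∀ t, G.E (x + γ) t → G.E x t ∨ G.E (x + a) t := by
    intro t ht
    rcases two t ht with ⟨r, k1, k2⟩ | ⟨r, k1, k2⟩
    · left
      exact (k2.ar (mem_dd.1 k1).1).eq rfl (eo (by abel_nf <;> simp only [ch2, ch3, ch4, ch5, ch6, add_zero, zero_add]))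
    · right
      exact (k2.ar ((mem_dd.1 k1).1.al (mem_dd.1 k1).2)).eq rfl (eo (by abel_nf <;> simp only [ch2, ch3, ch4, ch5, ch6, add_zero, zero_add]))
  rcases two' t0 m4 with k0 | k0 <;> rcases two' t1 n4 with k1 | k1 <;>
    rcases two' t2 o4 with k2 | k2
  · exact e01 (uniq x (Or.inl rfl) t0 t1 m1 n1 m4 n4 k0 k1)
  · exact e01 (uniq x (Or.inl rfl) t0 t1 m1 n1 m4 n4 k0 k1)
  · exact e02 (uniq x (Or.inl rfl) t0 t2 m1 o1 m4 o4 k0 k2)
  · exact e12 (uniq _ (Or.inr rfl) t1 t2 n1 o1 n4 o4 k1 k2)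
  · exact e12 (uniq x (Or.inl rfl) t1 t2 n1 o1 n4 o4 k1 k2)
  · exact e02 (uniq _ (Or.inr rfl) t0 t2 m1 o1 m4 o4 k0 k2)
  · exact e01 (uniq _ (Or.inr rfl) t0 t1 m1 n1 m4 n4 k0 k1)
  · exact e01 (uniq _ (Or.inr rfl) t0 t1 m1 n1 m4 n4 k0 k1)

end fin

end TG

end Pool.Agent.PGE
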