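import Pool.Agent.PGE.S9
import Pool.Agent.PGELC.SpE

/-!
Two-sided P-geometries (note 2448 of helper28), sections 9a and 9b.
-/

set_option autoImplicit false
set_option linter.unusedSectionVars false
set_option linter.unusedSimpArgs false
set_option linter.unnecessarySeqFocus false

namespace Pool.Agent.PGE

namespace TG

variable {X Y Q : Type} [AddCommGroup X] [Module (ZMod 2) X] [AddCommGroup Y]
  [Module (ZMod 2) Y] {G : TG X Y Q}

/-- strictness of the splittings of section 9 -/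
def StrP (G : TG X Y Q) : Prop := ∀ x y a h γ, G.C9 x y a h γ → ∀ p k w, G.PP x y a p →
  G.C k y → G.C k h → G.C x w → G.C a w → G.q p h = G.q k w → p = 0

/-- one edge is a dual pair -/
def DP (G : TG X Y Q) (x : X) (y : Y) : Prop :=
  ∃ e, e ≠ G.z ∧ ∀ u w, G.C u y → G.C x w → G.C u w ∨ G.q u w = e

/-- the local trichotomy -/
def LTP (G : TG X Y Q) : Prop := (∃ g g', G.EK g g') ∨ ∀ x y, G.E x y → G.DP x y ∨
  ∃ U1 U2 W1 W2, G.SpE x y U1 U2 W1 W2

/-- induction hypothesis -/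
def IHyp (Q : Type) (N : ℕ) : Prop := ∀ (X Y : Type) [AddCommGroup X] [Module (ZMod 2) X]
  [AddCommGroup Y] [Module (ZMod 2) Y] [Finite X] [Finite Y] (G : TG X Y Q),
  Nat.card X * Nat.card Y < N → G.Red → G.StrP ∧ G.LTP

/-- section 9a, with the extra neighbours -/
theorem C9.bad {x : X} {y : Y} {a : X} {h : Y} {γ : X} (H : G.C9 x y a h γ) {p k : X} {w : Y}
    (hp : G.PP x y a p) (hp0 : p ≠ 0) (hk : G.C k y) (hkh : G.C k h) (hw : G.C x w)
    (haw : G.C a w) (e : G.q p h = G.q k w) :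
    ∃ w1, G.C x w1 ∧ G.C a w1 ∧ G.q k w1 = G.q γ y := by
  have hph : ¬ G.C p h := fun h1 => hp0 (H.PK p hp h1)
  have h1 : G.E x (y + (h + w)) := H.e.ar (H.hx.ar hw)
  have h2 : G.C (p + k) (h + w) := by
    apply (G.addL _ _ _).1
    rw [q_ar (hp.2 w hw haw), e, add_comm h w, q_ar hkh]
  have h3 : G.C (p + k) (y + (h + w)) := (hp.1.al hk).ar h2
  have h4 : G.C γ (y + (h + w)) := (H.gh.ar (H.gw w hw haw)).eq rfl (eo (by abel_nf <;> simp only [ch2, ch3, ch4, ch5, ch6, add_zero, zero_add]))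
  have h5 : G.S (x + (γ + k + p)) := (h1.al (h4.al h3)).S |> fun h6 => by
    have : x + (γ + (p + k)) = x + (γ + k + p) := (eo (by abel_nf <;> simp only [ch2, ch3, ch4, ch5, ch6, add_zero, zero_add]))
    rwa [this] at h6
  have h6 : G.S (x + (γ + k)) := ((H.e.ar H.hx).al (H.gh.al (hk.ar hkh))).S
  have h7 : G.S (x + p) := (H.e.al hp.1).S
  obtain ⟨y2, k1, k2, k3⟩ := (S2_iff H.e.S h6 h7).1 h5
  have k4 : G.C x (y + y2) := H.e.C_r k1
  have k5 : G.C p (y + y2) := hp.1.ar k3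
  have k6 : G.C a (y + y2) := by
    by_contra k7
    have k8 := hp.2 _ (k4.ar H.hx) (H.idx _ _ k4 H.hx k7 H.ah)
    exact hph ((k5.ar k8).eq rfl (eo (by abel_nf <;> simp only [ch2, ch3, ch4, ch5, ch6, add_zero, zero_add])))
  refine ⟨y + y2, k4, k6, ?_⟩
  have k7 : G.q γ y2 = G.q k y2 := (G.addL _ _ _).2 k2
  have k8 : G.q γ y2 = G.q γ y := by
    have := q_ar (G := G) (x := γ) (y := y) (v := y + y2) (H.gw _ k4 k6)
    rw [aab] at this
    exact this
  rw [add_comm, q_ar hk, ← k7, k8]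

theorem C9.bad2 {x : X} {y : Y} {a : X} {h : Y} {γ : X} (H : G.C9 x y a h γ) {k : X} {w1 : Y}
    (hk : G.C k y) (hkh : G.C k h) (h1 : G.C x w1) (h2 : G.C a w1) (h3 : G.q k w1 = G.q γ y)
    {p : X} (hp : G.PP x y a p) : G.S (x + (γ + (k + p))) ∧
    ∃ w, G.C x w ∧ G.C a w ∧ G.q p h = G.q k w := by
  have h4 : G.C (γ + k) (y + w1) := by
    apply (G.addL _ _ _).1
    rw [q_ar (H.gw w1 h1 h2), ← h3, add_comm y w1, q_ar hk]
  have h5 : G.C p (y + w1) := hp.1.ar (hp.2 w1 h1 h2)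
  have h6 : G.S (x + (γ + (k + p))) := by
    have h7 := ((H.e.ar h1).al (h4.al h5)).S
    have : x + (γ + k + p) = x + (γ + (k + p)) := (eo (by abel_nf <;> simp only [ch2, ch3, ch4, ch5, ch6, add_zero, zero_add]))
    rwa [this] at h7
  refine ⟨h6, ?_⟩
  have h7 : G.S (x + γ) := ((H.e.ar H.hx).al H.gh).S
  have h8 : G.S (x + (k + p)) := (H.e.al (hk.al hp.1)).S
  obtain ⟨y2, k1, k2, k3⟩ := (S2_iff H.e.S h7 h8).1 h6
  have k4 : G.C x (y + y2) := H.e.C_r k1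
  have k5 : ¬ G.C a (y + y2) := by
    intro k6
    have k7 := H.gw _ k4 k6
    exact H.gy ((k2.ar k7).eq rfl (eo (by abel_nf <;> simp only [ch2, ch3, ch4, ch5, ch6, add_zero, zero_add])))
  have k6 : G.C a (y + y2 + h) := H.idx _ _ k4 H.hx k5 H.ah
  refine ⟨y + y2 + h, k4.ar H.hx, k6, ?_⟩
  have k7 : G.C (k + p) (y + y2) := (hk.al hp.1).ar k3
  have k8 : G.q k (y + y2) = G.q p (y + y2) := (G.addL _ _ _).2 k7
  have k9 : G.q k (y + y2 + h) = G.q k (y + y2) := q_ar hkh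
  have k10 : G.q p h = G.q p (y + y2) := by
    have k11 := q_ar (G := G) (x := p) (y := h) (v := y + y2 + h) (hp.2 _ (k4.ar H.hx) k6)
    rw [← k11, show h + (y + y2 + h) = y + y2 from (eo (by abel_nf <;> simp only [ch2, ch3, ch4, ch5, ch6, add_zero, zero_add]))]
  rw [k9, k8, k10]

/-- atoms of `G` are atoms of `G^M` -/
theorem At.up {x a : X} (ha : G.At x a) {M : Submodule (ZMod 2) Y} (hx : ∀ m ∈ M, G.C x m)
    (haM : ∀ m ∈ M, G.C a m) : (G.up M).At ⟨x, hx⟩ ⟨a, haM⟩ where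
  ne := fun h => ha.ne (congrArg Subtype.val h)
  S := up_S.2 ha.S
  mx := by
    rintro ⟨v, hvM⟩ hv0 hv h1 w hw hvw
    obtain ⟨w, rfl⟩ := Submodule.Quotient.mk_surjective _ w
    exact ha.mx v (fun h => hv0 (Subtype.ext h)) (up_S.1 hv)
      (fun w hw haw => h1 (Submodule.Quotient.mk w) hw haw) w hw hvw

section fin
variable [Finite X] [Finite Y]

/-- a `Y`-atom outside the perp of `a` -/
theorem Red.exY (hG : G.Red) {x : X} {y : Y} (hx : G.E x y) {a : X} {w : Y} (hw : G.C x w)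
    (haw : ¬ G.C a w) : ∃ h, G.swap.At y h ∧ G.C x h ∧ ¬ G.C a h := by
  by_contra hcon
  push Not at hcon
  have h1 := hG.swap.gen (x := y) (y := x) (v := w) hx hw
  have h2 : Submodule.span (ZMod 2) {p | G.swap.At y p ∧ G.swap.C p x} ≤ G.yx a := by
    rw [Submodule.span_le]
    rintro b ⟨hb1, hb2⟩
    exact hcon b hb1 hb2
  exact haw (h2 h1)

/-- an `X`-atom outside the perp of `h` -/
theorem Red.exX (hG : G.Red) {x : X} {y : Y} (hx : G.E x y) {h : Y} {u : X} (hu : G.C u y)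
    (huh : ¬ G.C u h) : ∃ a, G.At x a ∧ G.C a y ∧ ¬ G.C a h :=
  hG.swap.exY (x := y) (y := x) hx hu huh

/-- claim 1 -/
theorem C9.M0 (hG : G.Red) (ih : IHyp Q (Nat.card X * Nat.card Y)) {x : X} {y : Y} {a : X}
    {h : Y} {γ : X} (H : G.C9 x y a h γ) {p k : X} {w : Y}
    (hp : G.PP x y a p) (hp0 : p ≠ 0) (hk : G.C k y) (hkh : G.C k h) (hw : G.C x w)
    (haw : G.C a w) (e : G.q p h = G.q k w) {m : Y} (hm : G.C x m) (ham : G.C a m)
    (hkm : G.C k m) : m = 0 := by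
  by_contra hm0
  let M := G.cl x (fun u => u = a ∨ u = k)
  have hM : ∀ w, w ∈ M ↔ G.C x w ∧ G.C a w ∧ G.C k w := by
    intro w
    constructor
    · intro h1
      exact ⟨h1.1, h1.2 a (Or.inl rfl), h1.2 k (Or.inr rfl)⟩
    · rintro ⟨h1, h2, h3⟩
      refine ⟨h1, ?_⟩
      rintro u (rfl | rfl)
      · exact h2
      · exact h3
  have hR : (G.up M).Red := hG.cl H.e.S (by
    rintro u (rfl | rfl)
    · exact (H.e.al H.ay).S
    · exact (H.e.al hk).S)
  have := finQ M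
  obtain ⟨st, -⟩ := ih _ _ (G.up M) (card_up G M ((hM m).2 ⟨hm, ham, hkm⟩) hm0) hR
  have hxM : x ∈ G.xc M := fun w hw => ((hM w).1 hw).1
  have haM : a ∈ G.xc M := fun w hw => ((hM w).1 hw).2.1
  have hkM : k ∈ G.xc M := fun w hw => ((hM w).1 hw).2.2
  have hPM : ∀ p, G.PP x y a p → p ∈ G.xc M := fun p hp w hw =>
    hp.2 w ((hM w).1 hw).1 ((hM w).1 hw).2.1
  have hE : (G.up M).E ⟨x, hxM⟩ (Submodule.Quotient.mk y) := H.e
  have hPP : ∀ p (hp : G.PP x y a p),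
      (G.up M).PP ⟨x, hxM⟩ (Submodule.Quotient.mk y) ⟨a, haM⟩ ⟨p, hPM p hp⟩ := by
    intro p hp
    refine ⟨hp.1, ?_⟩
    intro w hw haw
    obtain ⟨w, rfl⟩ := Submodule.Quotient.mk_surjective _ w
    exact hp.2 w hw haw
  obtain ⟨h', h1, h2, h3⟩ := hR.exY hE (a := ⟨a, haM⟩) (w := Submodule.Quotient.mk h) H.hx H.ah
  obtain ⟨p2, hp2, hp20, hp2a⟩ := H.two
  obtain ⟨γ', H'⟩ := hR.c9 hE (H.ata.up hxM haM) H.ay (hPP p2 hp2)
    (fun h4 => hp20 (congrArg Subtype.val h4)) (fun h4 => hp2a (congrArg Subtype.val h4))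
    h1 h2 h3
  have st' := st _ _ _ _ _ H'
  obtain ⟨h', rfl⟩ := Submodule.Quotient.mk_surjective _ h'
  have h2 : G.C x h' := h2
  have h3 : ¬ G.C a h' := h3
  -- h + h' in W0
  have h4 : G.C a (h + h') := H.idx _ _ H.hx h2 H.ah h3
  have h5 : G.C x (h + h') := H.hx.ar h2
  obtain ⟨⟨p', hp'M⟩, hp', h6⟩ := H'.sum ⟨k, hkM⟩ hk
  have h6 : G.C (k + p') h' := h6
  have hp'1 : G.C p' y := hp'.1
  have hp'2 : ∀ w, G.C x w → G.C a w → G.C p' w := fun w hw haw =>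
    hp'.2 (Submodule.Quotient.mk w) hw haw
  -- p' = 0
  have h7 : G.q p' h' = G.q (k + p') (h + h') := by
    have e1 : G.q (k + p') (h + h') = G.q (k + p') h := q_ar h6
    have e2 : G.q (k + p') h = G.q p' h := by rw [add_comm, q_al hkh]
    have e3 : G.q p' h = G.q p' h' := by
      have := q_ar (G := G) (x := p') (y := h) (v := h + h') (hp'2 _ h5 h4)
      rw [aab] at this
      exact this.symm
    rw [e1, e2, e3]
  have h8 := st' ⟨p', hp'M⟩ ⟨k + p', fun w hw => (hkM w hw).al (hp'M w hw)⟩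
    (Submodule.Quotient.mk (h + h')) hp' (hk.al hp'1) h6 h5 h4 h7
  have h9 : p' = 0 := congrArg Subtype.val h8
  subst h9
  rw [add_zero] at h6
  have h10 : G.q p h' = G.q k w := by
    rw [← e]
    have := q_ar (G := G) (x := p) (y := h) (v := h + h') (hp.2 _ h5 h4)
    rw [aab] at this
    exact this
  have h11 := st' ⟨p, hPM p hp⟩ ⟨k, hkM⟩ (Submodule.Quotient.mk w) (hPP p hp) hk h6 hw haw h10
  exact hp0 (congrArg Subtype.val h11)

end fin

end TG

end Pool.Agent.PGE
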