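import Pool.Agent.PGE.S9b

/-!
Two-sided P-geometries (note 2448 of helper28), section 9b: the splittings of section 9 are
strict.
-/

set_option autoImplicit false
set_option linter.unusedSectionVars false
set_option linter.unusedSimpArgs false
set_option linter.unnecessarySeqFocus false

namespace Pool.Agent.PGE

namespace TG

variable {X Y Q : Type} [AddCommGroup X] [Module (ZMod 2) X] [AddCommGroup Y]
  [Module (ZMod 2) Y] {G : TG X Y Q}

section fin
variable [Finite X] [Finite Y]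

/-- the case `n = 1` -/
theorem C9.one (hG : G.Red) {x : X} {y : Y} {a : X}
    {h : Y} {γ : X} (H : G.C9 x y a h γ) {k : X} (hk : G.C k y) (hkh : G.C k h)
    (hK : ∀ u, G.C u y → G.C u h → u = 0 ∨ u = k)
    (hM : ∀ m, G.C x m → G.C a m → G.C k m → m = 0)
    {w1 w2 w3 : Y} (h1 : G.C x w1) (h2 : G.C a w1) (h3 : G.q k w1 = G.q γ y)
    (k1 : G.C x w2) (k2 : G.C a w2) (k3 : w2 ≠ 0) (l1 : G.C x w3) (l2 : G.C a w3) (l3 : w3 ≠ 0)
    (hne : w2 ≠ w3) : False := by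
  have hE : G.E x (y + h) := H.e.ar H.hx
  -- X_{y+h}
  have hX : ∀ u, G.C u (y + h) → u = 0 ∨ u = k ∨ u = γ ∨ u = γ + k := by
    intro u hu
    rcases H.Xh u hu with h4 | h4
    · have h5 : G.C u h := (h4.ar hu).eq rfl (aab y h)
      rcases hK u h4 h5 with h6 | h6
      · exact Or.inl h6
      · exact Or.inr (Or.inl h6)
    · have h5 : G.C (u + γ) h := ((hu.al H.gh).ar h4).eq rfl (eo (by abel_nf <;> simp only [ch2, ch3, ch4, ch5, ch6, add_zero, zero_add]))
      rcases hK _ h4 h5 with h6 | h6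
      · exact Or.inr (Or.inr (Or.inl (eo h6)))
      · right; right; right
        rw [← h6]; exact (eo (by abel_nf <;> simp only [ch2, ch3, ch4, ch5, ch6, add_zero, zero_add]))
  have hkw : ∀ w, G.C x w → G.C a w → w ≠ 0 → ¬ G.C k w := fun w m1 m2 m3 m4 =>
    m3 (hM w m1 m2 m4)
  have hd : ¬ G.C γ y := H.gy
  -- the perp of w2 in X_{y+h}
  have hw2 : ∀ w, G.C x w → G.C a w → w ≠ 0 → ∀ u, G.C u (y + h) → G.C u w →
      u = 0 ∨ u = γ := by
    intro w m1 m2 m3 u hu huw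
    rcases hX u hu with h4 | h4 | h4 | h4
    · exact Or.inl h4
    · rw [h4] at huw; exact absurd huw (hkw w m1 m2 m3)
    · exact Or.inr h4
    · rw [h4] at huw
      have h5 : G.C k w := (huw.al (H.gw w m1 m2)).eq (eo (by abel_nf <;> simp only [ch2, ch3, ch4, ch5, ch6, add_zero, zero_add])) rfl
      exact absurd h5 (hkw w m1 m2 m3)
  -- w2 is an atom
  have hat : G.swap.At (y + h) w2 := by
    refine ⟨k3, (hE.ar k1).T, ?_⟩
    intro v hv0 hv m1 u hu hvu
    have hu : G.C u (y + h) := hu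
    have hvu : G.C u v := hvu
    have hgv : G.C γ v := m1 γ H.gh (H.gw w2 k1 k2)
    by_contra hcon
    have hcon : ¬ G.C u w2 := hcon
    -- then v commutes with all of X_{y+h}
    obtain ⟨x1, m2, m3⟩ := (T_iff hE.T).1 hv
    obtain ⟨u', m4, m5⟩ := hG.swap.perp_ne hv0 (x := y + h) (y := x1) m2 m3
    have m4 : G.C u' (y + h) := m4
    have m5 : ¬ G.C u' v := m5
    apply m5
    have hkv : G.C k v := by
      rcases hX u hu with h4 | h4 | h4 | h4
      · rw [h4] at hcon; exact absurd (C.zl w2) hcon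
      · rw [h4] at hvu; exact hvu
      · rw [h4] at hcon; exact absurd (H.gw w2 k1 k2) hcon
      · rw [h4] at hvu
        exact (hvu.al hgv).eq (eo (by abel_nf <;> simp only [ch2, ch3, ch4, ch5, ch6, add_zero, zero_add])) rfl
    rcases hX u' m4 with h4 | h4 | h4 | h4
    · rw [h4]; exact C.zl v
    · rw [h4]; exact hkv
    · rw [h4]; exact hgv
    · rw [h4]; exact hgv.al hkv
  have hPP : ∀ w, G.C x w → G.C a w → G.swap.PP (y + h) x w2 w := by
    intro w m1 m2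
    refine ⟨m1, ?_⟩
    intro u hu huw
    have hu : G.C u (y + h) := hu
    have huw : G.C u w2 := huw
    show G.C u w
    rcases hw2 w2 k1 k2 k3 u hu huw with h4 | h4
    · rw [h4]; exact C.zl w
    · rw [h4]; exact H.gw w m1 m2
  obtain ⟨b, hb1, hb2, hb3⟩ := hG.exX hE (h := w2) (u := k) (hk.ar hkh) (hkw w2 k1 k2 k3)
  obtain ⟨γ', H'⟩ := hG.swap.c9 (x := y + h) (y := x) (a := w2) (p := w3) (h := b) hE hat k1
    (hPP w3 l1 l2) l3 (Ne.symm hne) hb1 hb2 hb3
  have hb0 : b ≠ 0 := by rintro rfl; exact hb3 (C.zl w2)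
  have hbg : b ≠ γ := by rintro rfl; exact hb3 (H.gw w2 k1 k2)
  -- a bad pair
  have hbad : ∃ w, G.C x w ∧ G.C b w ∧ G.q b w1 = G.q γ w := by
    rcases hX b hb2 with h4 | h4 | h4 | h4
    · exact absurd h4 hb0
    · refine ⟨h, H.hx, by rw [h4]; exact hkh, ?_⟩
      rw [h4, h3]
      exact (G.addR γ y h).2 H.gh
    · exact absurd h4 hbg
    · have e1 : G.q γ (h + w1) = G.q γ y := by
        rw [q_ar (H.gw w1 h1 h2)]
        exact ((G.addR γ y h).2 H.gh).symm
      have e2 : G.q k (h + w1) = G.q γ y := by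
        rw [add_comm, q_ar hkh, h3]
      refine ⟨h + w1, H.hx.ar h1, ?_, ?_⟩
      · rw [h4]
        exact (G.addL _ _ _).1 (e1.trans e2.symm)
      · rw [h4, e1, add_comm, q_al (H.gw w1 h1 h2), h3]
  obtain ⟨w, m1, m2, m3⟩ := hbad
  have hw10 : w1 ≠ 0 := by
    rintro rfl
    apply hd
    show G.q γ y = G.z
    rw [← h3]; exact C.zr k
  obtain ⟨u1, n1, n2, n3⟩ := H'.bad (p := w1) (k := w) (w := γ) (hPP w1 h1 h2) hw10 m1 m2 H.gh
    (H.gw w2 k1 k2) m3
  have key : ∀ w', G.C x w' → G.C a w' → w' ≠ 0 → G.q b w' = G.q γ w := by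
    intro w' o1 o2 o3
    obtain ⟨-, u, o4, o5, o6⟩ := H'.bad2 (k := w) (w1 := u1) m1 m2 n1 n2 n3
      (p := w') (hPP w' o1 o2)
    have o4 : G.C u (y + h) := o4
    have o5 : G.C u w2 := o5
    have o6 : G.q b w' = G.q u w := o6
    rcases hw2 w2 k1 k2 k3 u o4 o5 with h4 | h4
    · exfalso
      have h5 : G.C b w' := by
        show G.q b w' = G.z
        rw [o6, h4]; exact C.zl w
      exact o3 (H'.PK w' (hPP w' o1 o2) h5)
    · rw [o6, h4]
  have o1 := (key w2 k1 k2 k3).trans (key w3 l1 l2 l3).symm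
  have o2 : G.C b (w2 + w3) := (G.addR _ _ _).1 o1
  exact hne (eo (H'.PK (w2 + w3) (hPP _ (k1.ar l1) (k2.ar l2)) o2))

/-- 9b: always strict -/
theorem Red.strP (hG : G.Red) (ih : IHyp Q (Nat.card X * Nat.card Y)) : G.StrP := by
  intro x y a h γ H p k w hp hk hkh hw haw e
  by_contra hp0
  have hM : ∀ (p k : X) (w : Y), G.PP x y a p → p ≠ 0 → G.C k y → G.C k h → G.C x w → G.C a w →
      G.q p h = G.q k w → ∀ m, G.C x m → G.C a m → G.C k m → m = 0 := by
    intro p k w hp hp0 hk hkh hw haw e m h1 h2 h3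
    exact H.M0 hG ih hp hp0 hk hkh hw haw e h1 h2 h3
  obtain ⟨w1, h1, h2, h3⟩ := H.bad hp hp0 hk hkh hw haw e
  have hall : ∀ p, G.PP x y a p → ∃ w, G.C x w ∧ G.C a w ∧ G.q p h = G.q k w :=
    fun p hp => (H.bad2 hk hkh h1 h2 h3 hp).2
  have nh : ∀ p, G.PP x y a p → p ≠ 0 → ¬ G.C p h := fun p hp hp0 h1 => hp0 (H.PK p hp h1)
  -- two different elements of W0
  obtain ⟨p2, hp2, hp20, hp2a⟩ := H.two
  obtain ⟨wa, a1, a2, a3⟩ := hall a (PP.self H.ay)
  obtain ⟨wb, b1, b2, b3⟩ := hall p2 hp2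
  have hwa : wa ≠ 0 := by
    rintro rfl
    exact H.ah (a3.trans (C.zr k))
  have hwb : wb ≠ 0 := by
    rintro rfl
    exact nh p2 hp2 hp20 (b3.trans (C.zr k))
  have hab : wa ≠ wb := by
    rintro rfl
    have c1 : G.C (a + p2) h := (G.addL _ _ _).1 (a3.trans b3.symm)
    exact hp2a (eo (H.PK _ ((PP.self H.ay).add hp2) c1)).symm
  -- the residue at h
  let M := G.cl x (fun u => G.C u y ∧ G.C u h)
  have hMm : ∀ w, w ∈ M ↔ w = 0 ∨ w = h := by
    intro w
    constructor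
    · intro c1
      exact H.Kp w c1.1 (fun k c2 c3 => c1.2 k ⟨c2, c3⟩)
    · rintro (rfl | rfl)
      · exact Submodule.zero_mem _
      · exact ⟨H.hx, fun u hu => hu.2⟩
  have hR : (G.up M).Red := hG.cl H.e.S (fun u hu => (H.e.al hu.1).S)
  have := finQ M
  obtain ⟨-, lt⟩ := ih _ _ (G.up M) (card_up G M ((hMm h).2 (Or.inr rfl)) H.ath.ne) hR
  have hMem : ∀ u, G.C u h → u ∈ G.xc M := by
    intro u hu w hw
    rcases (hMm w).1 hw with rfl | rfl
    · exact C.zr u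
    · exact hu
  have hxM : x ∈ G.xc M := hMem x H.hx
  have hkM : k ∈ G.xc M := hMem k hkh
  have hE : (G.up M).E ⟨x, hxM⟩ (Submodule.Quotient.mk y) := H.e
  have hnM : ∀ w, G.C a w → w ≠ 0 → w ∉ M := by
    intro w c1 c2 c3
    rcases (hMm w).1 c3 with rfl | rfl
    · exact c2 rfl
    · exact H.ah c1
  rcases lt with ⟨g, g', hEK⟩ | lt
  · -- G^{<h>} = E_k : K has one nonzero element
    have hK : ∀ u, G.C u y → G.C u h → u = 0 ∨ u = k := by
      intro u c1 c2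
      by_cases hu0 : u = 0
      · exact Or.inl hu0
      by_cases huk : u = k
      · exact Or.inr huk
      exfalso
      have hk0 : k ≠ 0 := by
        rintro rfl
        exact H.ah (a3.trans (C.zl wa))
      have c3 := hEK.big (t := Submodule.Quotient.mk y) ⟨⟨x, hxM⟩, hE⟩ (v := ⟨u, hMem u c2⟩)
        (v' := ⟨k, hkM⟩) (fun c => hu0 (congrArg Subtype.val c))
        (fun c => hk0 (congrArg Subtype.val c)) (fun c => huk (congrArg Subtype.val c)) c1 hk
      subst c3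
      have c4 := hEK.small (x := ⟨x, hxM⟩) (w := Submodule.Quotient.mk wa)
        (w' := Submodule.Quotient.mk wb) hE (quo_ne (hnM wa a2 hwa)) (quo_ne (hnM wb b2 hwb))
        a1 b1
      exact hnM (wa + wb) (a2.ar b2) (fun c => hab (eo c)) (quo_eq c4)
    exact H.one hG hk hkh hK (hM p k w hp hp0 hk hkh hw haw e) h1 h2 h3 a1 a2 hwa b1 b2 hwb hab
  rcases lt _ _ hE with ⟨v, hv, hD⟩ | ⟨U1, U2, W1, W2, hS⟩
  · -- dual pair
    have c1 : ∀ w', G.C x w' → G.C a w' → w' ≠ 0 → G.q k w' = v := by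
      intro w' c1 c2 c3
      refine (hD ⟨k, hkM⟩ (Submodule.Quotient.mk w') hk c1).resolve_left ?_
      intro c4
      exact c3 (hM p k w hp hp0 hk hkh hw haw e w' c1 c2 c4)
    have c2 : G.C k (wa + wb) := (G.addR _ _ _).1
      ((c1 wa a1 a2 hwa).trans (c1 wb b1 b2 hwb).symm)
    exact hab (eo (hM p k w hp hp0 hk hkh hw haw e _ (a1.ar b1) (a2.ar b2) c2))
  · -- two pieces
    have hS' := hS.swp hR
    -- representatives in W0
    have rep : ∀ w', G.C x w' → ∃ w'', G.C x w'' ∧ G.C a w'' ∧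
        (Submodule.Quotient.mk w' : Y ⧸ M) = Submodule.Quotient.mk w'' := by
      intro w' c1
      by_cases c2 : G.C a w'
      · exact ⟨w', c1, c2, rfl⟩
      · refine ⟨w' + h, c1.ar H.hx, H.idx _ _ c1 H.hx c2 H.ah, ?_⟩
        rw [Submodule.Quotient.eq]
        have : w' - (w' + h) = h := by
          rw [sub_eq_iff_eq_add]; exact (eo (by abel_nf <;> simp only [ch2, ch3, ch4, ch5, ch6, add_zero, zero_add]))
        rw [this]
        exact (hMm h).2 (Or.inr rfl)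
    -- vectors of K orthogonal to one of the pieces are not bad
    have nb : ∀ (κ : X) (p : X) (w : Y), G.PP x y a p → p ≠ 0 → G.C κ y → G.C κ h →
        G.C x w → G.C a w → G.q p h = G.q κ w → (∃ b : Y ⧸ M, b ≠ 0 ∧
        (G.up M).C ⟨x, hxM⟩ b ∧ ∀ (hκ : κ ∈ G.xc M), (G.up M).C ⟨κ, hκ⟩ b) → False := by
      rintro κ p w hp hp0 c1 c2 c3 c4 c5 ⟨b, c6, c7, c8⟩
      obtain ⟨b, rfl⟩ := Submodule.Quotient.mk_surjective _ b
      obtain ⟨b', c9, c10, c11⟩ := rep b c7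
      rw [c11] at c6 c8
      have c12 : G.C κ b' := c8 (hMem κ c2)
      have c13 := hM p κ w hp hp0 c1 c2 c3 c4 c5 b' c9 c10 c12
      rw [c13] at c6
      exact c6 rfl
    obtain ⟨⟨k1, hk1M⟩, hk1, ⟨k2, hk2M⟩, hk2, hkk⟩ := hS.su ⟨k, hkM⟩ hk
    have hkk : k = k1 + k2 := congrArg Subtype.val hkk
    have hk1y : G.C k1 y := hS.u1 _ hk1
    have hk2y : G.C k2 y := hS.u2 _ hk2
    have hk1h : G.C k1 h := hk1M h ((hMm h).2 (Or.inr rfl))
    have hk2h : G.C k2 h := hk2M h ((hMm h).2 (Or.inr rfl))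
    obtain ⟨hb6, -⟩ := H.bad2 hk hkh h1 h2 h3 hp
    -- q(k1, W0) contains d if k2 is orthogonal to something
    have step : ∀ k1 k2 : X, k = k1 + k2 → G.C k1 y → G.C k1 h → G.C k2 y → G.C k2 h →
        (∃ b : Y ⧸ M, b ≠ 0 ∧ (G.up M).C ⟨x, hxM⟩ b ∧
          ∀ (hκ : k2 ∈ G.xc M), (G.up M).C ⟨k2, hκ⟩ b) →
        ∃ w', G.C x w' ∧ G.C a w' ∧ G.q k1 w' = G.q γ y := by
      intro k1 k2 hkk hk1y hk1h hk2y hk2h hb
      have c1 : G.S (x + (γ + k1)) :=
        ((H.e.ar H.hx).al (H.gh.al (hk1y.ar hk1h))).S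
      have c2 : G.S (x + (k2 + p)) := (H.e.al (hk2y.al hp.1)).S
      have c3 : G.S (x + (γ + k1 + (k2 + p))) := by
        have : γ + k1 + (k2 + p) = γ + (k + p) := by rw [hkk]; exact (eo (by abel_nf <;> simp only [ch2, ch3, ch4, ch5, ch6, add_zero, zero_add]))
        rw [this]; exact hb6
      obtain ⟨y2, d1, d2, d3⟩ := (S2_iff H.e.S c1 c2).1 c3
      have d4 : G.C x (y + y2) := H.e.C_r d1
      have d5 : G.C (k2 + p) (y + y2) := (hk2y.al hp.1).ar d3
      by_cases d6 : G.C a (y + y2)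
      · refine ⟨y + y2, d4, d6, ?_⟩
        have d7 : G.q γ y2 = G.q k1 y2 := (G.addL _ _ _).2 d2
        have d8 : G.q γ y2 = G.q γ y := by
          have := q_ar (G := G) (x := γ) (y := y) (v := y + y2) (H.gw _ d4 d6)
          rw [aab] at this
          exact this
        rw [add_comm, q_ar hk1y, ← d7, d8]
      · exfalso
        have d7 : G.C a (y + y2 + h) := H.idx _ _ d4 H.hx d6 H.ah
        refine nb k2 p (y + y2 + h) hp hp0 hk2y hk2h (d4.ar H.hx) d7 ?_ hb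
        have d8 : G.q k2 (y + y2) = G.q p (y + y2) := (G.addL _ _ _).2 d5
        have d9 : G.q k2 (y + y2 + h) = G.q k2 (y + y2) := q_ar hk2h
        have d10 : G.q p h = G.q p (y + y2) := by
          have d11 := q_ar (G := G) (x := p) (y := h) (v := y + y2 + h)
            (hp.2 _ (d4.ar H.hx) d7)
          rw [← d11, show h + (y + y2 + h) = y + y2 from (eo (by abel_nf <;> simp only [ch2, ch3, ch4, ch5, ch6, add_zero, zero_add]))]
        rw [d9, d8, d10]
    obtain ⟨bb1, hbb1, hbb10⟩ := hS'.n1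
    obtain ⟨bb2, hbb2, hbb20⟩ := hS'.n2
    obtain ⟨wx, c1, c2, c3⟩ := step k1 k2 hkk hk1y hk1h hk2y hk2h
      ⟨bb1, hbb10, hS.w1 _ hbb1, fun hκ => hS.o21 _ hk2 _ hbb1⟩
    obtain ⟨wy, d1, d2, d3⟩ := step k2 k1 (by rw [hkk, add_comm]) hk2y hk2h hk1y hk1h
      ⟨bb2, hbb20, hS.w2 _ hbb2, fun hκ => hS.o12 _ hk1 _ hbb2⟩
    obtain ⟨r1, hr1, r2, hr2, hr⟩ := hS.sw (Submodule.Quotient.mk wx) c1
    obtain ⟨s1, hs1, s2, hs2, hs⟩ := hS.sw (Submodule.Quotient.mk wy) d1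
    have f1 : (G.up M).q ⟨k1, hk1M⟩ r1 = G.q γ y := by
      rw [← c3]
      show _ = (G.up M).q ⟨k1, hk1M⟩ (Submodule.Quotient.mk wx)
      rw [hr]
      exact (q_ar (hS.o12 _ hk1 _ hr2)).symm
    have f2 : (G.up M).q ⟨k2, hk2M⟩ s2 = G.q γ y := by
      rw [← d3]
      show _ = (G.up M).q ⟨k2, hk2M⟩ (Submodule.Quotient.mk wy)
      rw [hs, add_comm]
      exact (q_ar (hS.o21 _ hk2 _ hs1)).symm
    have f3 := hS.st _ hk1 _ hr1 _ hk2 _ hs2 (f1.trans f2.symm)
    exact H.gy (f1.symm.trans f3)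

end fin

end TG

end Pool.Agent.PGE
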